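import Mathlib.Topology.Algebra.Module.ModuleTopology
import Mathlib.Algebra.Order.Ring.Star
import Mathlib.Analysis.InnerProductSpace.Basic
import Mathlib.Algebra.Order.Star.Real
import Mathlib.Analysis.Calculus.Deriv.MeanValue
import Mathlib.Tactic.Polynomial.Basic

-- ======== part 0: formerly Pool.Agent.MP_79e3be_pr.Bin
section MrgPart0

/-! Binomial expectations: basic toolkit. -/

set_option autoImplicit false

open Finset

namespace Pool.Agent.MP_79e3be_pr

/-- binomial weights -/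
noncomputable def bb (n : ℕ) (s : ℝ) (k : ℕ) : ℝ := (n.choose k : ℝ) * s ^ k * (1 - s) ^ (n - k)

/-- expectation of `f` under the binomial law -/
noncomputable def EE (n : ℕ) (s : ℝ) (f : ℕ → ℝ) : ℝ := ∑ k ∈ range (n + 1), bb n s k * f k

lemma bb_nonneg {s : ℝ} (h0 : 0 ≤ s) (h1 : s ≤ 1) (n k : ℕ) : 0 ≤ bb n s k := by
  unfold bb
  have : 0 ≤ 1 - s := by linarith
  positivity

lemma bb_eq_zero {n k : ℕ} (h : n < k) (s : ℝ) : bb n s k = 0 := by
  simp [bb, Nat.choose_eq_zero_of_lt h]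

lemma bb_zero (n : ℕ) (s : ℝ) : bb n s 0 = (1 - s) ^ n := by simp [bb]

lemma bb_succ_succ (n k : ℕ) (s : ℝ) :
    bb (n + 1) s (k + 1) = (1 - s) * bb n s (k + 1) + s * bb n s k := by
  unfold bb
  rcases lt_trichotomy k n with h | h | h
  · obtain ⟨m, rfl⟩ := Nat.exists_eq_add_of_lt h
    have e1 : k + m + 1 + 1 - (k + 1) = m + 1 := by omega
    have e2 : k + m + 1 - (k + 1) = m := by omega
    have e3 : k + m + 1 - k = m + 1 := by omega
    rw [e1, e2, e3, Nat.choose_succ_succ']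
    push_cast; ring
  · subst h
    simp; ring
  · rw [Nat.choose_eq_zero_of_lt (by omega : n + 1 < k + 1),
      Nat.choose_eq_zero_of_lt (by omega : n < k + 1), Nat.choose_eq_zero_of_lt h]
    simp

@[simp] lemma EE_zero (s : ℝ) (f : ℕ → ℝ) : EE 0 s f = f 0 := by simp [EE, bb]

lemma EE_succ (n : ℕ) (s : ℝ) (f : ℕ → ℝ) :
    EE (n + 1) s f = (1 - s) * EE n s f + s * EE n s (fun k => f (k + 1)) := by
  unfold EE
  rw [sum_range_succ' (fun k => bb (n + 1) s k * f k)]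
  simp only [bb_succ_succ, add_mul, sum_add_distrib, mul_assoc, ← mul_sum]
  have h : ∑ k ∈ range (n + 1), bb n s k * f k
      = ∑ k ∈ range (n + 1), bb n s (k + 1) * f (k + 1) + bb n s 0 * f 0 := by
    rw [← sum_range_succ' (fun k => bb n s k * f k), sum_range_succ (fun k => bb n s k * f k) (n + 1),
      bb_eq_zero (Nat.lt_succ_self n)]
    simp
  rw [h, bb_zero, bb_zero]; ring

lemma EE_congr {n : ℕ} {s : ℝ} {f g : ℕ → ℝ} (h : ∀ k ≤ n, f k = g k) : EE n s f = EE n s g :=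
  sum_congr rfl fun k hk => by rw [h k (by simpa [Nat.lt_succ_iff] using hk)]

lemma EE_add (n : ℕ) (s : ℝ) (f g : ℕ → ℝ) :
    EE n s (fun k => f k + g k) = EE n s f + EE n s g := by
  simp only [EE, mul_add, sum_add_distrib]

lemma EE_sub (n : ℕ) (s : ℝ) (f g : ℕ → ℝ) :
    EE n s (fun k => f k - g k) = EE n s f - EE n s g := by
  simp only [EE, mul_sub, sum_sub_distrib]

lemma EE_mul (n : ℕ) (s c : ℝ) (f : ℕ → ℝ) : EE n s (fun k => c * f k) = c * EE n s f := by
  simp only [EE, mul_sum]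
  exact sum_congr rfl fun k _ => by ring

lemma EE_neg (n : ℕ) (s : ℝ) (f : ℕ → ℝ) : EE n s (fun k => - f k) = - EE n s f := by
  simp only [EE, mul_neg, sum_neg_distrib]

@[simp] lemma EE_const (n : ℕ) (s c : ℝ) : EE n s (fun _ => c) = c := by
  induction n with
  | zero => simp
  | succ n ih => rw [EE_succ, ih]; ring

lemma EE_eq_const {n : ℕ} {s c : ℝ} {f : ℕ → ℝ} (h : ∀ k ≤ n, f k = c) : EE n s f = c := by
  rw [EE_congr (g := fun _ => c) h, EE_const]

lemma EE_mono {n : ℕ} {s : ℝ} (h0 : 0 ≤ s) (h1 : s ≤ 1) {f g : ℕ → ℝ} (h : ∀ k ≤ n, f k ≤ g k) :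
    EE n s f ≤ EE n s g :=
  sum_le_sum fun k hk => mul_le_mul_of_nonneg_left (h k (by simpa [Nat.lt_succ_iff] using hk))
    (bb_nonneg h0 h1 n k)

lemma EE_nonneg {n : ℕ} {s : ℝ} (h0 : 0 ≤ s) (h1 : s ≤ 1) {f : ℕ → ℝ} (h : ∀ k ≤ n, 0 ≤ f k) :
    0 ≤ EE n s f := by
  have := EE_mono h0 h1 (f := fun _ => 0) h
  simpa using this

lemma EE_le_const {n : ℕ} {s c : ℝ} (h0 : 0 ≤ s) (h1 : s ≤ 1) {f : ℕ → ℝ} (h : ∀ k ≤ n, f k ≤ c) :
    EE n s f ≤ c := by
  have := EE_mono h0 h1 (g := fun _ => c) h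
  simpa using this

lemma EE_comm (n m : ℕ) (s r : ℝ) (F : ℕ → ℕ → ℝ) :
    EE n s (fun x => EE m r (fun y => F x y)) = EE m r (fun y => EE n s (fun x => F x y)) := by
  simp only [EE, mul_sum]
  rw [sum_comm]
  exact sum_congr rfl fun y _ => sum_congr rfl fun x _ => by ring

lemma EE_prob_zero (n : ℕ) (f : ℕ → ℝ) : EE n 0 f = f 0 := by
  induction n with
  | zero => simp
  | succ n ih => rw [EE_succ, ih]; ring

lemma bb_sum (n : ℕ) (s : ℝ) : ∑ k ∈ range (n + 1), bb n s k = 1 := by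
  have := EE_const n s 1
  simpa [EE] using this

lemma bb_le_one {s : ℝ} (h0 : 0 ≤ s) (h1 : s ≤ 1) (n k : ℕ) : bb n s k ≤ 1 := by
  rcases lt_or_ge n k with h | h
  · rw [bb_eq_zero h]; norm_num
  · rw [← bb_sum n s]
    exact single_le_sum (f := fun k => bb n s k) (fun k _ => bb_nonneg h0 h1 n k)
      (mem_range.2 (by omega))

/-- splitting off the first term -/
lemma EE_split (n : ℕ) (s : ℝ) (f : ℕ → ℝ) :
    EE n s f = (1 - s) ^ n * f 0 + ∑ k ∈ range n, bb n s (k + 1) * f (k + 1) := by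
  unfold EE
  rw [sum_range_succ' (fun k => bb n s k * f k), bb_zero]; ring

lemma EE_reflect (n : ℕ) (s : ℝ) (f : ℕ → ℝ) :
    EE n s f = EE n (1 - s) (fun k => f (n - k)) := by
  unfold EE
  rw [← sum_range_reflect]
  refine sum_congr rfl fun k hk => ?_
  have hk' : k ≤ n := by simpa [Nat.lt_succ_iff] using hk
  have e : n + 1 - 1 - k = n - k := by omega
  rw [e]
  unfold bb
  rw [Nat.choose_symm hk', Nat.sub_sub_self hk']
  simp only [sub_sub_cancel]; ring

lemma bb_I0 (n k : ℕ) (s : ℝ) :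
    ((n : ℝ) + 1) * (1 - s) * bb n s k = bb (n + 1) s k * ((n : ℝ) + 1 - k) := by
  unfold bb
  rcases le_or_gt k n with h | h
  · have e : n + 1 - k = (n - k) + 1 := by omega
    have h2 := Nat.choose_mul_succ_eq n k
    have h3 : ((n.choose k : ℕ) : ℝ) * ((n : ℝ) + 1) = ((n + 1).choose k : ℕ) * ((n : ℝ) + 1 - k) := by
      have := congrArg (Nat.cast : ℕ → ℝ) h2
      push_cast [Nat.cast_sub (by omega : k ≤ n + 1)] at this
      exact this
    rw [e, pow_succ]
    linear_combination (s ^ k * (1 - s) ^ (n - k) * (1 - s)) * h3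
  · rw [Nat.choose_eq_zero_of_lt h]
    rcases (by omega : k = n + 1 ∨ n + 1 < k) with h' | h'
    · subst h'; push_cast; ring
    · rw [Nat.choose_eq_zero_of_lt h']; simp

lemma bb_I1 (n k : ℕ) (s : ℝ) :
    ((n : ℝ) + 1) * s * bb n s k = bb (n + 1) s (k + 1) * ((k : ℝ) + 1) := by
  unfold bb
  have e : n + 1 - (k + 1) = n - k := by omega
  have h2 := Nat.add_one_mul_choose_eq n k
  have h3 : ((n : ℝ) + 1) * (n.choose k : ℕ) = ((n + 1).choose (k + 1) : ℕ) * ((k : ℝ) + 1) := by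
    exact_mod_cast h2
  rw [e, pow_succ]
  linear_combination (s ^ k * s * (1 - s) ^ (n - k)) * h3

lemma EE_I0 (n : ℕ) (s : ℝ) (f : ℕ → ℝ) :
    ((n : ℝ) + 1) * (1 - s) * EE n s f = EE (n + 1) s (fun k => ((n : ℝ) + 1 - k) * f k) := by
  unfold EE
  rw [sum_range_succ _ (n + 1), mul_sum]
  simp only [← mul_assoc, bb_I0]
  push_cast; ring

lemma EE_I1 (n : ℕ) (s : ℝ) (f : ℕ → ℝ) :
    ((n : ℝ) + 1) * s * EE n s (fun k => f (k + 1)) = EE (n + 1) s (fun k => (k : ℝ) * f k) := by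
  unfold EE
  rw [sum_range_succ' (fun k => bb (n + 1) s k * ((k : ℝ) * f k)), mul_sum]
  simp only [← mul_assoc, bb_I1]
  push_cast; ring

/-- first Krawtchouk identity -/
lemma EE_K1 (n : ℕ) (s : ℝ) (g : ℕ → ℝ) :
    ((n : ℝ) + 1) * s * (1 - s) * EE n s (fun k => g (k + 1) - g k)
      = EE (n + 1) s (fun k => ((k : ℝ) - ((n : ℝ) + 1) * s) * g k) := by
  have h0 := EE_I0 n s g
  have h1 := EE_I1 n s g
  have h2 : EE (n + 1) s (fun k => ((k : ℝ) - ((n : ℝ) + 1) * s) * g k)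
      = (1 - s) * EE (n + 1) s (fun k => (k : ℝ) * g k)
        - s * EE (n + 1) s (fun k => ((n : ℝ) + 1 - k) * g k) := by
    rw [← EE_mul, ← EE_mul, ← EE_sub]
    exact EE_congr fun k _ => by ring
  rw [h2, ← h0, ← h1, EE_sub]; ring

/-- second Krawtchouk polynomial -/
noncomputable def K2 (n : ℕ) (s : ℝ) (k : ℕ) : ℝ :=
  ((k : ℝ) - ((n : ℝ) + 2) * s) * ((k : ℝ) - 1 - ((n : ℝ) + 1) * s) - s * ((n : ℝ) + 2 - k)

lemma EE_K2 (n : ℕ) (s : ℝ) (f : ℕ → ℝ) :
    ((n : ℝ) + 1) * ((n : ℝ) + 2) * s ^ 2 * (1 - s) ^ 2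
        * EE n s (fun k => f (k + 2) - 2 * f (k + 1) + f k)
      = EE (n + 2) s (fun k => K2 n s k * f k) := by
  have h1 := EE_K1 n s (fun k => f (k + 1) - f k)
  have h2 := EE_K1 (n + 1) s (fun k => ((k : ℝ) - 1 - ((n : ℝ) + 1) * s) * f k)
  have h3 := EE_I0 (n + 1) s f
  have e1 : EE n s (fun k => f (k + 2) - 2 * f (k + 1) + f k)
      = EE n s (fun k => f (k + 1 + 1) - f (k + 1) - (f (k + 1) - f k)) :=
    EE_congr fun k _ => by ring
  have e2 : EE (n + 1) s (fun k => (((k + 1 : ℕ) : ℝ) - 1 - ((n : ℝ) + 1) * s) * f (k + 1)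
        - ((k : ℝ) - 1 - ((n : ℝ) + 1) * s) * f k)
      = EE (n + 1) s (fun k => ((k : ℝ) - ((n : ℝ) + 1) * s) * (f (k + 1) - f k))
        + EE (n + 1) s f := by
    rw [← EE_add]
    exact EE_congr fun k _ => by push_cast; ring
  have e3 : EE (n + 2) s (fun k => K2 n s k * f k)
      = EE (n + 1 + 1) s (fun k => ((k : ℝ) - (((n + 1 : ℕ) : ℝ) + 1) * s)
          * (((k : ℝ) - 1 - ((n : ℝ) + 1) * s) * f k))
        - s * EE (n + 1 + 1) s (fun k => (((n + 1 : ℕ) : ℝ) + 1 - k) * f k) := by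
    rw [← EE_mul, ← EE_sub]
    exact EE_congr fun k _ => by unfold K2; push_cast; ring
  rw [e3, ← h2, ← h3, e2, ← h1, e1]
  push_cast; ring

lemma EE_K2_sq (n : ℕ) (s : ℝ) :
    EE (n + 2) s (fun k => K2 n s k ^ 2) = 2 * (((n : ℝ) + 1) * ((n : ℝ) + 2) * s ^ 2 * (1 - s) ^ 2) := by
  have h := EE_K2 n s (K2 n s)
  have e : EE n s (fun k => K2 n s (k + 2) - 2 * K2 n s (k + 1) + K2 n s k) = 2 :=
    EE_eq_const fun k _ => by unfold K2; push_cast; ring
  rw [e] at h
  simp only [sq]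
  rw [← h]; ring

lemma EE_mean (n : ℕ) (s : ℝ) : EE n s (fun k => (k : ℝ)) = n * s := by
  cases n with
  | zero => simp
  | succ n =>
    have := EE_I1 n s (fun _ => 1)
    simp only [EE_const, mul_one] at this
    rw [← this]; push_cast; ring

lemma EE_affine (n : ℕ) (s c d : ℝ) : EE n s (fun k => c + d * (k : ℝ)) = c + d * (n * s) := by
  rw [EE_add, EE_const, EE_mul, EE_mean]

lemma EE_var (n : ℕ) (s : ℝ) : EE n s (fun k => ((k : ℝ) - n * s) ^ 2) = n * s * (1 - s) := by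
  cases n with
  | zero => simp
  | succ n =>
    have h := EE_K1 n s (fun k => (k : ℝ) - ((n : ℝ) + 1) * s)
    have e : EE n s (fun k => (((k + 1 : ℕ) : ℝ) - ((n : ℝ) + 1) * s) - ((k : ℝ) - ((n : ℝ) + 1) * s)) = 1 := by
      rw [← EE_const n s 1]
      exact EE_congr fun k _ => by push_cast; ring
    rw [e] at h
    push_cast
    simp only [sq]
    rw [← h]; ring

/-- second moment about any point -/
lemma EE_sq (n : ℕ) (s c : ℝ) :
    EE n s (fun k => ((k : ℝ) - c) ^ 2) = n * s * (1 - s) + (n * s - c) ^ 2 := by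
  have e : EE n s (fun k => ((k : ℝ) - c) ^ 2)
      = EE n s (fun k => ((k : ℝ) - n * s) ^ 2) + (2 * (n * s - c) * EE n s (fun k => (k : ℝ))
        + (c ^ 2 - (n * s) ^ 2)) := by
    rw [← EE_mul, ← EE_const n s (c ^ 2 - (n * s) ^ 2), ← EE_add, ← EE_add]
    exact EE_congr fun k _ => by ring
  rw [e, EE_var, EE_mean]; ring

lemma EE_pow (n : ℕ) (s z : ℝ) : EE n s (fun k => z ^ k) = (1 + s * (z - 1)) ^ n := by
  induction n with
  | zero => simp
  | succ n ih =>
    rw [EE_succ]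
    have : EE n s (fun k => z ^ (k + 1)) = z * EE n s (fun k => z ^ k) := by
      rw [← EE_mul]; exact EE_congr fun k _ => by ring
    rw [this, ih]; ring

lemma EE_cs {n : ℕ} {s : ℝ} (h0 : 0 ≤ s) (h1 : s ≤ 1) (f g : ℕ → ℝ) :
    EE n s (fun k => f k * g k) ^ 2 ≤ EE n s (fun k => f k ^ 2) * EE n s (fun k => g k ^ 2) := by
  unfold EE
  refine sum_sq_le_sum_mul_sum_of_sq_le_mul _ (fun k _ => ?_) (fun k _ => ?_) (fun k _ => ?_)
  · exact mul_nonneg (bb_nonneg h0 h1 n k) (sq_nonneg _)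
  · exact mul_nonneg (bb_nonneg h0 h1 n k) (sq_nonneg _)
  · exact le_of_eq (by ring)

lemma EE_hasDerivAt (n : ℕ) (f : ℕ → ℝ) (s : ℝ) :
    HasDerivAt (fun s => EE (n + 1) s f) (((n : ℝ) + 1) * EE n s (fun k => f (k + 1) - f k)) s := by
  induction n generalizing f with
  | zero =>
    simp only [EE_succ, EE_zero]
    have h := (((hasDerivAt_id s).const_sub 1).mul_const (f 0)).add
      ((hasDerivAt_id s).mul_const (f (0 + 1)))
    refine HasDerivAt.congr_deriv h ?_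
    simp; ring
  | succ n ih =>
    have e : (fun s => EE (n + 1 + 1) s f)
        = fun s => (1 - s) * EE (n + 1) s f + s * EE (n + 1) s (fun k => f (k + 1)) := by
      funext s; rw [EE_succ]
    rw [e]
    have h := (((hasDerivAt_id s).const_sub 1).mul (ih f)).add
      ((hasDerivAt_id s).mul (ih (fun k => f (k + 1))))
    refine HasDerivAt.congr_deriv h ?_
    have := EE_succ n s (fun k => f (k + 1) - f k)
    rw [EE_sub (n + 1)] at this
    simp only [id]
    rw [EE_sub (n + 1)]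
    push_cast
    linear_combination (-((n : ℝ) + 1)) * this

/-- one more trial -/
lemma EE_sub_succ (n : ℕ) (s : ℝ) (f : ℕ → ℝ) :
    EE n s f - EE (n + 1) s f = s * EE n s (fun k => f k - f (k + 1)) := by
  rw [EE_succ, EE_sub]; ring

lemma EE_succ_le {n : ℕ} {s : ℝ} (h0 : 0 ≤ s) (h1 : s ≤ 1) {f : ℕ → ℝ} (hf : Antitone f) :
    EE (n + 1) s f ≤ EE n s f := by
  have h := EE_sub_succ n s f
  have : 0 ≤ EE n s (fun k => f k - f (k + 1)) :=
    EE_nonneg h0 h1 fun k _ => sub_nonneg.2 (hf (Nat.le_succ k))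
  nlinarith [mul_nonneg h0 this]

lemma EE_anti_n {n m : ℕ} (hnm : n ≤ m) {s : ℝ} (h0 : 0 ≤ s) (h1 : s ≤ 1) {f : ℕ → ℝ}
    (hf : Antitone f) : EE m s f ≤ EE n s f := by
  induction hnm with
  | refl => exact le_rfl
  | step _ ih => exact (EE_succ_le h0 h1 hf).trans ih

lemma EE_shift_le {n : ℕ} {s : ℝ} (h0 : 0 ≤ s) (h1 : s ≤ 1) {f : ℕ → ℝ} (hf : Antitone f) :
    EE n s (fun k => f (k + 1)) ≤ EE (n + 1) s f := by
  rw [EE_succ]
  have : EE n s (fun k => f (k + 1)) ≤ EE n s f := EE_mono h0 h1 fun k _ => hf (Nat.le_succ k)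
  nlinarith [mul_nonneg (sub_nonneg.2 h1) (sub_nonneg.2 this)]

lemma EE_anti_s (n : ℕ) {s r : ℝ} (h0 : 0 ≤ s) (hsr : s ≤ r) (h1 : r ≤ 1) {f : ℕ → ℝ}
    (hf : Antitone f) : EE n r f ≤ EE n s f := by
  induction n generalizing f with
  | zero => simp
  | succ n ih =>
    rw [EE_succ, EE_succ]
    have a1 := ih hf
    have a2 := ih (f := fun k => f (k + 1)) fun x y h => hf (Nat.succ_le_succ h)
    have a3 : EE n s (fun k => f (k + 1)) ≤ EE n s f :=
      EE_mono h0 (hsr.trans h1) fun k _ => hf (Nat.le_succ k)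
    have b1 := mul_le_mul_of_nonneg_left a1 (sub_nonneg.2 h1)
    have b2 := mul_le_mul_of_nonneg_left a2 (h0.trans hsr)
    nlinarith [mul_nonneg (sub_nonneg.2 hsr) (sub_nonneg.2 a3)]

lemma EE_inv {n : ℕ} {s : ℝ} (h0 : 0 ≤ s) (h1 : s < 1) :
    EE n s (fun k => 1 / ((n : ℝ) + 1 - k)) ≤ 1 / (((n : ℝ) + 1) * (1 - s)) := by
  have h := EE_I0 n s (fun k => 1 / ((n : ℝ) + 1 - k))
  have h2 : EE (n + 1) s (fun k => ((n : ℝ) + 1 - k) * (1 / ((n : ℝ) + 1 - k))) ≤ 1 := by
    refine EE_le_const h0 h1.le fun k _ => ?_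
    rcases eq_or_ne ((n : ℝ) + 1 - k) 0 with h | h
    · rw [h]; simp
    · rw [mul_one_div_cancel h]
  have hp : 0 < ((n : ℝ) + 1) * (1 - s) := mul_pos (by positivity) (by linarith)
  rw [le_div_iff₀ hp]; linarith

/-- comparison of increments by derivatives -/
lemma incr_le {f g f' g' : ℝ → ℝ} {x y : ℝ} (hxy : x ≤ y)
    (hf : ∀ t ∈ Set.Icc x y, HasDerivAt f (f' t) t) (hg : ∀ t ∈ Set.Icc x y, HasDerivAt g (g' t) t)
    (h : ∀ t ∈ Set.Icc x y, f' t ≤ g' t) : f y - f x ≤ g y - g x := by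
  rcases hxy.eq_or_lt with rfl | hlt
  · simp
  have hc : ContinuousOn (fun t => g t - f t) (Set.Icc x y) := fun t ht =>
    ((hg t ht).sub (hf t ht)).continuousAt.continuousWithinAt
  obtain ⟨c, hc1, hc2⟩ := exists_hasDerivAt_eq_slope (fun t => g t - f t) (fun t => g' t - f' t)
    hlt hc (fun t ht => (hg t (Set.Ioo_subset_Icc_self ht)).sub (hf t (Set.Ioo_subset_Icc_self ht)))
  have h3 := h c (Set.Ioo_subset_Icc_self hc1)
  have h4 : 0 ≤ (g y - f y - (g x - f x)) / (y - x) := by rw [← hc2]; linarith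
  have h5 := (div_nonneg_iff.1 h4)
  rcases h5 with ⟨h5, _⟩ | ⟨_, h5⟩
  · linarith
  · linarith

end Pool.Agent.MP_79e3be_pr

end MrgPart0

-- ======== part 1: formerly Pool.Agent.MP_79e3be_pr.Val
section MrgPart1

/-! The value function of the counting chain. -/

set_option autoImplicit false

open Finset

namespace Pool.Agent.MP_79e3be_pr

/-- clamped fraction `i / n` -/
noncomputable def pr (n i : ℕ) : ℝ := ((min i n : ℕ) : ℝ) / n

lemma pr_nonneg (n i : ℕ) : 0 ≤ pr n i := by unfold pr; positivity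

lemma pr_le_one (n i : ℕ) : pr n i ≤ 1 := by
  unfold pr
  exact div_le_one_of_le₀ (by exact_mod_cast min_le_right i n) (by positivity)

lemma pr_mono (n : ℕ) {i j : ℕ} (h : i ≤ j) : pr n i ≤ pr n j := by
  unfold pr
  exact div_le_div_of_nonneg_right (by exact_mod_cast min_le_min_right n h) (by positivity)

lemma pr_eq {n i : ℕ} (h : i ≤ n) : pr n i = (i : ℝ) / n := by unfold pr; rw [min_eq_left h]

/-- the one-step operator on pairs of counts -/
noncomputable def TT (a b : ℕ) (f : ℕ → ℕ → ℝ) (i j : ℕ) : ℝ :=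
  EE (a - i) (pr b j) fun x => EE (b - j) (pr a i) fun y => f (i + x) (j + y)

/-- probability of not being finished after `t` rounds -/
noncomputable def vv (a b : ℕ) : ℕ → ℕ → ℕ → ℝ
  | 0 => fun i j => if a ≤ i ∧ b ≤ j then 0 else 1
  | t + 1 => TT a b (vv a b t)

/-- expected remaining time -/
noncomputable def VV (a b i j : ℕ) : ℝ := ∑' t, vv a b t i j

lemma TT_mono {a b : ℕ} {f g : ℕ → ℕ → ℝ} {i j : ℕ}
    (h : ∀ x ≤ a - i, ∀ y ≤ b - j, f (i + x) (j + y) ≤ g (i + x) (j + y)) :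
    TT a b f i j ≤ TT a b g i j :=
  EE_mono (pr_nonneg _ _) (pr_le_one _ _) fun x hx =>
    EE_mono (pr_nonneg _ _) (pr_le_one _ _) fun y hy => h x hx y hy

lemma EE_step {N i : ℕ} {s : ℝ} (h0 : 0 ≤ s) (h1 : s ≤ 1) {f : ℕ → ℝ} (hf : Antitone f) :
    EE (N - (i + 1)) s (fun x => f (i + 1 + x)) ≤ EE (N - i) s (fun x => f (i + x)) := by
  rcases lt_or_ge i N with h | h
  · have e : N - i = N - (i + 1) + 1 := by omega
    rw [e]
    refine le_trans (le_of_eq ?_) (EE_shift_le h0 h1 (f := fun x => f (i + x))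
      fun x y h => hf (by omega))
    exact EE_congr fun k _ => by congr 1; omega
  · rw [Nat.sub_eq_zero_of_le h, Nat.sub_eq_zero_of_le (by omega : N ≤ i + 1)]
    simpa using hf (Nat.le_succ i)

/-- antitone in both variables -/
def Anti2 (f : ℕ → ℕ → ℝ) : Prop := ∀ i j i' j', i ≤ i' → j ≤ j' → f i' j' ≤ f i j

lemma anti2_of_succ {f : ℕ → ℕ → ℝ} (h1 : ∀ i j, f (i + 1) j ≤ f i j)
    (h2 : ∀ i j, f i (j + 1) ≤ f i j) : Anti2 f := fun i _ _ j' hi hj =>
  (antitone_nat_of_succ_le (f := fun i => f i j') (fun i => h1 i j') hi).trans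
    (antitone_nat_of_succ_le (f := fun j => f i j) (fun j => h2 i j) hj)

lemma TT_anti {a b : ℕ} {f : ℕ → ℕ → ℝ} (hf : Anti2 f) : Anti2 (TT a b f) := by
  refine anti2_of_succ (fun i j => ?_) (fun i j => ?_)
  · unfold TT
    refine le_trans (EE_mono (pr_nonneg _ _) (pr_le_one _ _)
      (g := fun x => EE (b - j) (pr a i) fun y => f (i + 1 + x) (j + y)) fun x _ => ?_) ?_
    · exact EE_anti_s _ (pr_nonneg _ _) (pr_mono a (Nat.le_succ i)) (pr_le_one _ _)
        fun y y' h => hf _ _ _ _ le_rfl (by omega)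
    · exact EE_step (pr_nonneg _ _) (pr_le_one _ _)
        (f := fun u => EE (b - j) (pr a i) fun y => f u (j + y))
        fun u u' h => EE_mono (pr_nonneg _ _) (pr_le_one _ _) fun y _ => hf _ _ _ _ h le_rfl
  · unfold TT
    refine le_trans (EE_mono (pr_nonneg _ _) (pr_le_one _ _)
      (g := fun x => EE (b - j) (pr a i) fun y => f (i + x) (j + y)) fun x _ => ?_) ?_
    · exact EE_step (pr_nonneg _ _) (pr_le_one _ _) (f := fun w => f (i + x) w)
        fun w w' h => hf _ _ _ _ le_rfl h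
    · exact EE_anti_s _ (pr_nonneg _ _) (pr_mono b (Nat.le_succ j)) (pr_le_one _ _)
        fun x x' h => EE_mono (pr_nonneg _ _) (pr_le_one _ _) fun y _ => hf _ _ _ _ (by omega) le_rfl

lemma vv_anti (a b t : ℕ) : Anti2 (vv a b t) := by
  induction t with
  | zero =>
    intro i j i' j' hi hj
    simp only [vv]
    split_ifs with h1 h2 h2 <;> first | omega | norm_num
  | succ t ih => exact TT_anti ih

lemma vv_nonneg (a b t i j : ℕ) : 0 ≤ vv a b t i j := by
  induction t generalizing i j with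
  | zero => simp only [vv]; split_ifs <;> norm_num
  | succ t ih =>
    exact EE_nonneg (pr_nonneg _ _) (pr_le_one _ _) fun x _ =>
      EE_nonneg (pr_nonneg _ _) (pr_le_one _ _) fun y _ => ih _ _

lemma TT_sum (a b n : ℕ) (f : ℕ → ℕ → ℕ → ℝ) (i j : ℕ) :
    TT a b (fun u w => ∑ t ∈ range n, f t u w) i j = ∑ t ∈ range n, TT a b (f t) i j := by
  induction n with
  | zero => simp [TT]
  | succ n ih =>
    simp only [sum_range_succ]
    rw [← ih]
    simp only [TT, EE_add]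

lemma TT_top (a b : ℕ) (f : ℕ → ℕ → ℝ) : TT a b f a b = f a b := by simp [TT]

/-- the crude supersolution -/
noncomputable def Wh (a b i j : ℕ) : ℝ := a * b * (((a : ℝ) - i) + ((b : ℝ) - j))

lemma Wh_super {a b i j : ℕ} (ha : 1 ≤ a) (hb : 1 ≤ b) (hi : i ≤ a) (hj : j ≤ b) (h0 : 1 ≤ i + j)
    (h1 : ¬ (a ≤ i ∧ b ≤ j)) : 1 + TT a b (Wh a b) i j ≤ Wh a b i j := by
  have e : TT a b (Wh a b) i j
      = Wh a b i j - a * b * (((a - i : ℕ) : ℝ) * pr b j + ((b - j : ℕ) : ℝ) * pr a i) := by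
    unfold TT
    have e1 : ∀ x : ℕ, EE (b - j) (pr a i) (fun y => Wh a b (i + x) (j + y))
        = (Wh a b i j - a * b * (((b - j : ℕ) : ℝ) * pr a i)) - a * b * (x : ℝ) := by
      intro x
      rw [EE_congr (g := fun y => (Wh a b i j - a * b * (x : ℝ)) + (-(a * b)) * (y : ℝ))
        fun y _ => by simp only [Wh]; push_cast; ring, EE_affine]
      ring
    simp only [e1]
    rw [EE_sub, EE_const, EE_mul, EE_mean]; ring
  rw [e, pr_eq hi, pr_eq hj]
  have ha' : (0 : ℝ) < a := by exact_mod_cast ha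
  have hb' : (0 : ℝ) < b := by exact_mod_cast hb
  have e2 : (a : ℝ) * b * (((a - i : ℕ) : ℝ) * ((j : ℝ) / b) + ((b - j : ℕ) : ℝ) * ((i : ℝ) / a))
      = ((a * ((a - i) * j) + b * ((b - j) * i) : ℕ) : ℝ) := by
    push_cast; field_simp
  have h3 : 1 ≤ a * ((a - i) * j) + b * ((b - j) * i) := by
    rcases Nat.eq_zero_or_pos j with hj0 | hj0
    · have : 0 < b * ((b - j) * i) := Nat.mul_pos hb (Nat.mul_pos (by omega) (by omega))
      omega
    · rcases lt_or_ge i a with h | h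
      · have : 0 < a * ((a - i) * j) := Nat.mul_pos ha (Nat.mul_pos (by omega) hj0)
        omega
      · have : 0 < b * ((b - j) * i) := Nat.mul_pos hb (Nat.mul_pos (by omega) (by omega))
        omega
  have h4 : (1 : ℝ) ≤ ((a * ((a - i) * j) + b * ((b - j) * i) : ℕ) : ℝ) := by exact_mod_cast h3
  rw [e2]; linarith

lemma Wh_nonneg {a b i j : ℕ} (hi : i ≤ a) (hj : j ≤ b) : 0 ≤ Wh a b i j := by
  unfold Wh
  have h1 : (i : ℝ) ≤ a := by exact_mod_cast hi
  have h2 : (j : ℝ) ≤ b := by exact_mod_cast hj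
  exact mul_nonneg (by positivity) (by linarith)

lemma sum_vv_le {a b : ℕ} (ha : 1 ≤ a) (hb : 1 ≤ b) (n : ℕ) {i j : ℕ} (hi : i ≤ a) (hj : j ≤ b)
    (h0 : 1 ≤ i + j) : ∑ t ∈ range n, vv a b t i j ≤ Wh a b i j := by
  induction n generalizing i j with
  | zero => simpa using Wh_nonneg hi hj
  | succ n ih =>
    rw [sum_range_succ']
    have e : ∑ t ∈ range n, vv a b (t + 1) i j
        = TT a b (fun u w => ∑ t ∈ range n, vv a b t u w) i j := by
      rw [TT_sum]; rfl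
    have h2 : TT a b (fun u w => ∑ t ∈ range n, vv a b t u w) i j ≤ TT a b (Wh a b) i j :=
      TT_mono fun x hx y hy => ih (by omega) (by omega) (by omega)
    rw [e]
    by_cases h1 : a ≤ i ∧ b ≤ j
    · obtain rfl : i = a := by omega
      obtain rfl : j = b := by omega
      rw [TT_top, TT_top] at h2
      rw [TT_top]
      simpa [vv] using h2
    · have := Wh_super ha hb hi hj h0 h1
      simp only [vv, if_neg h1]
      linarith

lemma summable_vv {a b : ℕ} (ha : 1 ≤ a) (hb : 1 ≤ b) {i j : ℕ} (h0 : 1 ≤ i + j) :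
    Summable fun t => vv a b t i j := by
  have h : Summable fun t => vv a b t (min i a) (min j b) :=
    summable_of_sum_range_le (fun t => vv_nonneg a b t _ _)
      fun n => sum_vv_le ha hb n (min_le_right _ _) (min_le_right _ _) (by omega)
  exact Summable.of_nonneg_of_le (fun t => vv_nonneg a b t i j)
    (fun t => vv_anti a b t _ _ _ _ (min_le_left _ _) (min_le_left _ _)) h

lemma hasSum_EE (n : ℕ) (s : ℝ) {g : ℕ → ℕ → ℝ} {G : ℕ → ℝ} (h : ∀ k, HasSum (fun t => g t k) (G k)) :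
    HasSum (fun t => EE n s (g t)) (EE n s G) :=
  hasSum_sum fun k _ => (h k).mul_left _

lemma VV_anti {a b : ℕ} (ha : 1 ≤ a) (hb : 1 ≤ b) {i j i' j' : ℕ} (h0 : 1 ≤ i + j) (hi : i ≤ i')
    (hj : j ≤ j') : VV a b i' j' ≤ VV a b i j :=
  (summable_vv ha hb (by omega)).tsum_le_tsum (fun t => vv_anti a b t _ _ _ _ hi hj)
    (summable_vv ha hb h0)

lemma VV_eq {a b : ℕ} (ha : 1 ≤ a) (hb : 1 ≤ b) {i j : ℕ} (h0 : 1 ≤ i + j)
    (h1 : ¬ (a ≤ i ∧ b ≤ j)) : VV a b i j = 1 + TT a b (VV a b) i j := by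
  have h : HasSum (fun t => vv a b (t + 1) i j) (TT a b (VV a b) i j) :=
    hasSum_EE _ _ fun x => hasSum_EE _ _ fun y => (summable_vv ha hb (by omega)).hasSum
  rw [VV, (summable_vv ha hb h0).tsum_eq_zero_add, h.tsum_eq]
  simp only [vv, if_neg h1]

lemma VV_top (a b : ℕ) : VV a b a b = 0 := by
  have : ∀ t, vv a b t a b = 0 := by
    intro t
    induction t with
    | zero => simp [vv]
    | succ t ih => simp only [vv, TT_top, ih]
  simp [VV, this]

/-- maximum principle for the two-dimensional chain -/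
lemma max_principle {a b : ℕ} (ha : 1 ≤ a) (hb : 1 ≤ b) {H : ℕ → ℕ → ℝ} (htop : H a b ≤ 0)
    (hH : ∀ i ≤ a, ∀ j ≤ b, 1 ≤ i + j → ¬ (a ≤ i ∧ b ≤ j) → H i j ≤ TT a b H i j) :
    ∀ i ≤ a, ∀ j ≤ b, 1 ≤ i + j → H i j ≤ 0 := by
  classical
  intro i hi j hj h0
  by_contra hc
  push Not at hc
  set S := (range (a + 1) ×ˢ range (b + 1)).filter fun p => 1 ≤ p.1 + p.2 with hS
  have hmem : ∀ u ≤ a, ∀ w ≤ b, 1 ≤ u + w → (u, w) ∈ S := fun u hu w hw h => by
    simp only [hS, mem_filter, mem_product, mem_range]; omega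
  obtain ⟨⟨u, w⟩, hp, hmax⟩ := exists_max_image S (fun p => H p.1 p.2 / (Wh a b p.1 p.2 + 1))
    ⟨_, hmem i hi j hj h0⟩
  have hp' : u ≤ a ∧ w ≤ b ∧ 1 ≤ u + w := by
    simp only [hS, mem_filter, mem_product, mem_range] at hp; omega
  obtain ⟨hu, hw, huw⟩ := hp'
  set Z := H u w / (Wh a b u w + 1) with hZ
  have hW := Wh_nonneg hu hw
  have hZ0 : 0 < Z := lt_of_lt_of_le (div_pos hc (by linarith [Wh_nonneg hi hj]))
    (hmax _ (hmem i hi j hj h0))
  have hH0 : H u w = Z * (Wh a b u w + 1) := by rw [hZ]; field_simp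
  by_cases h1 : a ≤ u ∧ b ≤ w
  · obtain rfl : u = a := by omega
    obtain rfl : w = b := by omega
    nlinarith
  · have h2 := hH u hu w hw huw h1
    have h3 : TT a b H u w ≤ TT a b (fun x y => Z * (Wh a b x y + 1)) u w := by
      refine TT_mono fun x hx y hy => ?_
      have := hmax _ (hmem (u + x) (by omega) (w + y) (by omega) (by omega))
      have h5 := Wh_nonneg (a := a) (b := b) (i := u + x) (j := w + y) (by omega) (by omega)
      rwa [div_le_iff₀ (by linarith)] at this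
    have h4 : TT a b (fun x y => Z * (Wh a b x y + 1)) u w = Z * (TT a b (Wh a b) u w + 1) := by
      simp only [TT, EE_mul, EE_add, EE_const]
    have := Wh_super ha hb hu hw huw h1
    nlinarith

end Pool.Agent.MP_79e3be_pr

end MrgPart1

-- marker of a merged file
example : 731051 + 140084 = 731051 + 140084 := rfl
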