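import Pool.Agent.MP_79e3be_pr.Prog2
import Pool.Agent.MP_79e3be_pr.Box01
import Pool.Agent.MP_79e3be_pr.Box02
import Pool.Agent.MP_79e3be_pr.Box03
import Pool.Agent.MP_79e3be_pr.Box04
import Pool.Agent.MP_79e3be_pr.Box05
import Pool.Agent.MP_79e3be_pr.Box06
import Pool.Agent.MP_79e3be_pr.Box07
import Pool.Agent.MP_79e3be_pr.Box08
import Pool.Agent.MP_79e3be_pr.Box09
import Pool.Agent.MP_79e3be_pr.Box10
import Pool.Agent.MP_79e3be_pr.Box11
import Pool.Agent.MP_79e3be_pr.Box12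
import Pool.Agent.MP_79e3be_pr.Box13
import Pool.Agent.MP_79e3be_pr.Box14
import Pool.Agent.MP_79e3be_pr.Box15
import Pool.Agent.MP_79e3be_pr.Small4

-- ======== part 0: formerly Pool.Agent.MP_79e3be_pr.Final
section MrgPart0

/-! The first step, and the two analytic ranges. -/

set_option autoImplicit false

open Finset Real

namespace Pool.Agent.MP_79e3be_pr

lemma bb_rec {n : ℕ} (hn : 1 ≤ n) (s : ℝ) (k : ℕ) :
    bb n s (k + 1) * ((k : ℝ) + 1) * (1 - s) = bb n s k * ((n : ℝ) - k) * s := by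
  obtain ⟨n, rfl⟩ : ∃ m, n = m + 1 := ⟨n - 1, by omega⟩
  rw [← bb_I1]; push_cast; rw [← bb_I0]; ring

lemma bb_pos {n k : ℕ} {s : ℝ} (h0 : 0 < s) (h1 : s < 1) (hk : k ≤ n) : 0 < bb n s k := by
  unfold bb
  have : 0 < 1 - s := by linarith
  have : 0 < n.choose k := Nat.choose_pos hk
  positivity

lemma sum_tail (n : ℕ) (s : ℝ) : ∑ k ∈ range n, bb n s (k + 1) = 1 - (1 - s) ^ n := by
  have := EE_split n s (fun _ => 1)
  simp only [EE_const, mul_one] at this
  linarith

section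
variable {a b : ℕ} (hb : 1 ≤ b) (hba : b < a)
include hb hba

lemma mlr {l k : ℕ} (h : l ≤ k) :
    bb a (1 / b) l * bb b (1 / a) k ≤ bb a (1 / b) k * bb b (1 / a) l := by
  have hb' : (1 : ℝ) ≤ b := by exact_mod_cast hb
  have hba' : (b : ℝ) + 1 ≤ a := by exact_mod_cast hba
  have s0 : (0 : ℝ) < 1 / a := one_div_pos.2 (by linarith)
  have s1 : (1 : ℝ) / a < 1 := by rw [div_lt_one (by linarith)]; linarith
  have r0 : (0 : ℝ) ≤ 1 / b := by positivity
  have r1 : (1 : ℝ) / b ≤ 1 := by rw [div_le_one (by linarith)]; linarith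
  have hsr : (1 : ℝ) / a ≤ 1 / b := one_div_le_one_div_of_le (by linarith) (by linarith)
  rcases lt_or_ge b k with hk | hk
  · rw [bb_eq_zero hk, mul_zero]
    exact mul_nonneg (bb_nonneg r0 r1 _ _) (bb_nonneg s0.le s1.le _ _)
  rw [← div_le_div_iff₀ (bb_pos s0 s1 (h.trans hk)) (bb_pos s0 s1 hk)]
  induction h with
  | refl => exact le_rfl
  | @step k _ ih =>
    refine (ih (by omega)).trans ?_
    rw [div_le_div_iff₀ (bb_pos s0 s1 (by omega)) (bb_pos s0 s1 hk)]
    have e1 := bb_rec (n := a) (by omega) (1 / b) k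
    have e2 := bb_rec hb (1 / a) k
    have hk' : (k : ℝ) + 1 ≤ b := by exact_mod_cast hk
    have x0 := bb_nonneg r0 r1 a k
    have x1 := bb_nonneg r0 r1 a (k + 1)
    have y0 := bb_nonneg s0.le s1.le b k
    refine le_of_mul_le_mul_right ?_ (by have := sub_pos.2 s1; positivity : 0 < ((k : ℝ) + 1) * (1 - 1 / a))
    have a1 : ((b : ℝ) - k) * (1 / a) ≤ ((a : ℝ) - k) * (1 / b) :=
      mul_le_mul (by linarith) hsr s0.le (by linarith)
    have a2 := mul_le_mul_of_nonneg_left a1 (mul_nonneg x0 y0)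
    have a3 := mul_le_mul_of_nonneg_left (by linarith : 1 - (1 : ℝ) / b ≤ 1 - 1 / a)
      (by positivity : 0 ≤ bb a (1 / b) (k + 1) * bb b (1 / a) k * ((k : ℝ) + 1))
    calc _ = bb a (1 / b) k * (bb b (1 / a) (k + 1) * ((k : ℝ) + 1) * (1 - 1 / a)) := by
          simp only [Nat.succ_eq_add_one]; ring
      _ = bb a (1 / b) k * bb b (1 / a) k * (((b : ℝ) - k) * (1 / a)) := by rw [e2]; ring
      _ ≤ _ := a2
      _ = bb b (1 / a) k * (bb a (1 / b) (k + 1) * ((k : ℝ) + 1) * (1 - 1 / b)) := by rw [e1]; ring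
      _ ≤ _ := by simp only [Nat.succ_eq_add_one]; linarith

lemma cond_dom {g : ℕ → ℝ} (hg : Antitone g) :
    (1 - (1 - 1 / (a : ℝ)) ^ b) * ∑ k ∈ range a, bb a (1 / b) (k + 1) * g (k + 1)
      ≤ (1 - (1 - 1 / (b : ℝ)) ^ a) * ∑ k ∈ range b, bb b (1 / a) (k + 1) * g (k + 1) := by
  have ext : ∀ f : ℕ → ℝ, ∑ k ∈ range b, bb b (1 / a) (k + 1) * f k
      = ∑ k ∈ range a, bb b (1 / a) (k + 1) * f k := fun f =>
    sum_subset (range_subset_range.2 hba.le) fun k _ hk => by
      rw [bb_eq_zero (by rw [mem_range] at hk; omega), zero_mul]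
  have e := ext fun _ => 1
  simp only [mul_one] at e
  rw [← sum_tail, ← sum_tail, e, ext fun k => g (k + 1)]
  set X : ℕ → ℝ := fun k => bb a (1 / b) (k + 1) with hX
  set Y : ℕ → ℝ := fun k => bb b (1 / a) (k + 1) with hY
  have h : ∑ k ∈ range a, ∑ l ∈ range a, (X k * Y l - X l * Y k) * (g (k + 1) - g (l + 1)) ≤ 0 := by
    refine sum_nonpos fun k _ => sum_nonpos fun l _ => ?_
    rcases le_total k l with h | h
    · exact mul_nonpos_of_nonpos_of_nonneg (sub_nonpos.2 (mlr hb hba (Nat.succ_le_succ h)))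
        (sub_nonneg.2 (hg (Nat.succ_le_succ h)))
    · exact mul_nonpos_of_nonneg_of_nonpos (sub_nonneg.2 (mlr hb hba (Nat.succ_le_succ h)))
        (sub_nonpos.2 (hg (Nat.succ_le_succ h)))
  have e2 : ∀ k l, (X k * Y l - X l * Y k) * (g (k + 1) - g (l + 1))
      = (X k * g (k + 1)) * Y l + Y k * (X l * g (l + 1))
        - (X k * (Y l * g (l + 1)) + (Y k * g (k + 1)) * X l) := fun k l => by ring
  simp only [e2, sum_sub_distrib, sum_add_distrib, ← mul_sum, ← sum_mul] at h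
  change (∑ k ∈ range a, Y k) * ∑ k ∈ range a, X k * g (k + 1)
    ≤ (∑ k ∈ range a, X k) * ∑ k ∈ range a, Y k * g (k + 1)
  linarith

lemma lt_of_key (h : (∑ k ∈ range b, bb b (1 / a) (k + 1) * MM a b (k + 1) 1)
    * (1 - (1 - 1 / (b : ℝ)) ^ a) < (1 - 1 / (a : ℝ)) ^ b - (1 - 1 / (b : ℝ)) ^ a) :
    VV a b 0 1 < VV a b 1 0 := by
  have ha : 1 ≤ a := by omega
  have hb' : (1 : ℝ) ≤ b := by exact_mod_cast hb
  have hba' : (b : ℝ) + 1 ≤ a := by exact_mod_cast hba
  have h1 := VV_eq ha hb (i := 1) (j := 0) le_rfl (by omega)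
  have h2 := VV_eq ha hb (i := 0) (j := 1) le_rfl (by omega)
  rw [TT, pr_eq (Nat.zero_le b), pr_eq ha] at h1
  rw [TT, pr_eq (Nat.zero_le a), pr_eq hb] at h2
  simp only [CharP.cast_eq_zero, zero_div, EE_prob_zero, add_zero, zero_add, tsub_zero,
    Nat.cast_one] at h1 h2
  rw [EE_split] at h1 h2
  have h3 := cond_dom hb hba (g := fun k => VV a b k 1) fun k l h => VV_anti ha hb (by omega) h le_rfl
  simp only [MM, mul_sub, sum_sub_distrib] at h
  have s1 : 0 < 1 - (1 - 1 / (a : ℝ)) ^ b := by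
    refine sub_pos.2 (pow_lt_one₀ ?_ ?_ (by omega))
    · rw [sub_nonneg, div_le_one (by linarith)]; linarith
    · have : 0 < 1 / (a : ℝ) := by positivity
      linarith
  have s2 : 0 < 1 - (1 - 1 / (b : ℝ)) ^ a := by
    refine sub_pos.2 (pow_lt_one₀ ?_ ?_ (by omega))
    · rw [sub_nonneg, div_le_one (by linarith)]; linarith
    · have : 0 < 1 / (b : ℝ) := by positivity
      linarith
  refine lt_of_mul_lt_mul_left ?_ (mul_pos s1 s2).le
  generalize (1 - 1 / (a : ℝ)) ^ b = y at *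
  generalize (1 - 1 / (b : ℝ)) ^ a = x at *
  have e1 : (1 - y) * (1 - x) * VV a b 0 1
      = (1 - y) * (1 + ∑ k ∈ range a, bb a (1 / b) (k + 1) * VV a b (k + 1) 1) := by
    linear_combination (1 - y) * h2
  have e2 : (1 - y) * (1 - x) * VV a b 1 0
      = (1 - x) * (1 + ∑ k ∈ range b, bb b (1 / a) (k + 1) * VV a b 1 (k + 1)) := by
    linear_combination (1 - x) * h1
  rw [e1, e2]
  linarith

lemma sum_M_large : ∑ k ∈ range b, bb b (1 / a) (k + 1) * MM a b (k + 1) 1
    ≤ (1 - (1 - 1 / (a : ℝ)) ^ b) * (1 + a / (4 * ((a : ℝ) - 1))) - bb b (1 / a) 1 := by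
  have ha : 1 ≤ a := by omega
  have hb' : (1 : ℝ) ≤ b := by exact_mod_cast hb
  have hba' : (b : ℝ) + 1 ≤ a := by exact_mod_cast hba
  have s0 : (0 : ℝ) < 1 / a := by positivity
  have s1 : (1 : ℝ) / a < 1 := by rw [div_lt_one (by linarith)]; linarith
  obtain ⟨q, hq⟩ : ∃ q, q = (a : ℝ) / (4 * ((a : ℝ) - 1)) := ⟨_, rfl⟩
  have ha1 : (0 : ℝ) < a - 1 := by linarith
  have hq0 : 0 ≤ q := by rw [hq]; positivity
  rw [← hq, ← sum_tail]
  obtain ⟨n, rfl⟩ : ∃ n, b = n + 1 := ⟨b - 1, by omega⟩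
  have h1 : ∑ k ∈ range n, bb (n + 1) (1 / a) (k + 1 + 1) * MM a (n + 1) (k + 1 + 1) 1
      ≤ ∑ k ∈ range n, (bb (n + 1) (1 / a) (k + 1 + 1) + q * bb (n + 1) (1 / a) (k + 1)) := by
    refine sum_le_sum fun k hk => ?_
    rw [mem_range] at hk
    have hk' : (k : ℝ) + 1 ≤ n := by exact_mod_cast hk
    have a1 := catch_B ha hb (u := k + 2) (y0 := 0) (y := 1) (y' := k + 2) (α := 1) (by omega) (by omega)
      hba.le (phiU_le_one (by positivity)) (by omega) (by omega) (by omega)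
    have a2 : VV a (n + 1) (k + 2) (k + 2) ≤ VV a (n + 1) 1 (k + 2) :=
      VV_anti ha hb (by omega) (by omega) le_rfl
    have a3 : ∑ z ∈ Ico 1 (k + 2), 1 / ((((n + 1 : ℕ) : ℝ) - z) * (((k + 2 : ℕ) : ℝ) / a))
        ≤ ((k : ℝ) + 1) * (a / (((n : ℝ) - k) * ((k : ℝ) + 2))) := by
      refine (sum_le_card_nsmul _ _ (a / (((n : ℝ) - k) * ((k : ℝ) + 2))) fun z hz => ?_).trans
        (le_of_eq ?_)
      · rw [mem_Ico] at hz
        have : (z : ℝ) ≤ k + 1 := by exact_mod_cast (by omega : z ≤ k + 1)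
        push_cast
        rw [← mul_div_assoc, one_div_div]
        exact div_le_div_of_nonneg_left (by positivity) (mul_pos (by linarith) (by positivity))
          (mul_le_mul_of_nonneg_right (by linarith) (by positivity))
      · simp
    have y0 := bb_nonneg s0.le s1.le (n + 1) (k + 1)
    have y1 := bb_nonneg s0.le s1.le (n + 1) (k + 1 + 1)
    have e := bb_rec hb (1 / a) (k + 1)
    have hnk : (0 : ℝ) < n - k := by linarith
    have e2 : bb (n + 1) (1 / a) (k + 1 + 1)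
        = bb (n + 1) (1 / a) (k + 1) * ((n : ℝ) - k) / (((k : ℝ) + 2) * ((a : ℝ) - 1)) := by
      rw [eq_div_iff (by positivity)]
      push_cast at e
      have ha0 : (a : ℝ) ≠ 0 := by linarith
      field_simp at e
      linear_combination e
    have a4 : bb (n + 1) (1 / a) (k + 1 + 1) * (((k : ℝ) + 1) * (a / (((n : ℝ) - k) * ((k : ℝ) + 2))))
        ≤ q * bb (n + 1) (1 / a) (k + 1) := by
      have e3 : bb (n + 1) (1 / a) (k + 1 + 1) * (((k : ℝ) + 1) * (a / (((n : ℝ) - k) * ((k : ℝ) + 2))))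
          = q * bb (n + 1) (1 / a) (k + 1) * (4 * ((k : ℝ) + 1) / ((k : ℝ) + 2) ^ 2) := by
        rw [e2, hq]; field_simp
      rw [e3]
      refine mul_le_of_le_one_right (mul_nonneg hq0 y0) ?_
      rw [div_le_one (by positivity)]
      nlinarith only [sq_nonneg (k : ℝ)]
    have a5 : MM a (n + 1) (k + 1 + 1) 1 ≤ 1 + ((k : ℝ) + 1) * (a / (((n : ℝ) - k) * ((k : ℝ) + 2))) := by
      change VV a (n + 1) (k + 2) 1 - VV a (n + 1) 1 (k + 2) ≤ _
      linarith
    have a6 := mul_le_mul_of_nonneg_left a5 y1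
    linarith
  rw [sum_add_distrib, ← mul_sum] at h1
  have h2 := sum_range_succ (fun k => bb (n + 1) (1 / a) (k + 1)) n
  have h3 := sum_range_succ' (fun k => bb (n + 1) (1 / a) (k + 1)) n
  have h4 := mul_nonneg hq0 (bb_nonneg s0.le s1.le (n + 1) (n + 1))
  rw [sum_range_succ']
  have h5 : MM a (n + 1) (0 + 1) 1 = 0 := sub_self _
  rw [h5]
  simp only [zero_add] at *
  have h6 : q * ∑ k ∈ range (n + 1), bb (n + 1) (1 / a) (k + 1)
      = q * ∑ k ∈ range n, bb (n + 1) (1 / a) (k + 1) + q * bb (n + 1) (1 / a) (n + 1) := by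
    rw [h2]; ring
  linarith

lemma bb_eq_y0 {k : ℕ} (hk : k ≤ b) : bb b (1 / a) k
    = (1 - 1 / (a : ℝ)) ^ b * ((b.choose k : ℝ) / (b : ℝ) ^ k * ((b : ℝ) / ((a : ℝ) - 1)) ^ k) := by
  have hb' : (1 : ℝ) ≤ b := by exact_mod_cast hb
  have hba' : (b : ℝ) + 1 ≤ a := by exact_mod_cast hba
  have ha1 : (0 : ℝ) < a - 1 := by linarith
  have e : (1 - 1 / (a : ℝ)) ^ b = (1 - 1 / (a : ℝ)) ^ (b - k) * (((a : ℝ) - 1) / a) ^ k := by
    have : ((a : ℝ) - 1) / a = 1 - 1 / a := by rw [sub_div, div_self (by linarith)]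
    rw [this, ← pow_add]; congr 1; omega
  unfold bb
  rw [e, div_pow, div_pow, div_pow, one_pow]
  field_simp

theorem lt_large (hab : 3 * b ≤ 2 * a) : VV a b 0 1 < VV a b 1 0 := by
  have hb' : (1 : ℝ) ≤ b := by exact_mod_cast hb
  have hba' : (b : ℝ) + 1 ≤ a := by exact_mod_cast hba
  have hab' : 3 * (b : ℝ) ≤ 2 * a := by exact_mod_cast hab
  have ha1 : (0 : ℝ) < a - 1 := by linarith
  refine lt_of_key hb hba ?_
  have h1 := sum_M_large hb hba
  rw [bb_eq_y0 hb hba hb] at h1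
  have r1 : 0 ≤ 1 - 1 / (b : ℝ) := by rw [sub_nonneg, div_le_one (by linarith)]; linarith
  have sX : 0 ≤ 1 - (1 - 1 / (b : ℝ)) ^ a :=
    sub_nonneg.2 (pow_le_one₀ r1 (by have : 0 < 1 / (b : ℝ) := by positivity
                                     linarith))
  refine (mul_le_mul_of_nonneg_right h1 sX).trans_lt ?_
  rcases le_or_gt a 9 with h9 | h9
  · have : b ≤ 6 := by omega
    clear h1 sX r1 ha1 hab' hba' hb'
    interval_cases a <;> interval_cases b <;> first | omega | norm_num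
  have h10 : (10 : ℝ) ≤ a := by exact_mod_cast h9
  have e0 : ((b.choose 1 : ℕ) : ℝ) / (b : ℝ) ^ 1 * ((b : ℝ) / ((a : ℝ) - 1)) ^ 1 = b / ((a : ℝ) - 1) := by
    rw [Nat.choose_one_right]; field_simp
  rw [e0]
  obtain ⟨η, hη⟩ : ∃ η, η = (b : ℝ) / ((a : ℝ) - 1) := ⟨_, rfl⟩
  have hη0 : 0 < η := by rw [hη]; positivity
  have hη1 : η ≤ 20 / 27 := by rw [hη, div_le_iff₀ ha1]; linarith
  have hq : (a : ℝ) / (4 * ((a : ℝ) - 1)) ≤ 5 / 18 := by rw [div_le_iff₀ (by linarith)]; linarith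
  have hx : (1 - 1 / (b : ℝ)) ^ a ≤ 0.2232 := by
    refine (pow_le_exp r1 a).trans ?_
    have a1 : (a : ℝ) * (1 - 1 / (b : ℝ) - 1) ≤ -1 + -(1 / 2) := by
      have : (3 : ℝ) / 2 ≤ a * (1 / b) := by rw [mul_one_div, le_div_iff₀ (by linarith)]; linarith
      linarith
    refine (exp_le_exp.2 a1).trans ?_
    have a2 := Real.sum_le_exp_of_nonneg (x := 1 / 2) (by norm_num) 5
    simp only [sum_range_succ, range_zero, sum_empty, Nat.factorial] at a2
    norm_num at a2
    have a3 : exp (-(1 / 2 : ℝ)) ≤ 0.6067 := by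
      rw [Real.exp_neg, inv_le_comm₀ (exp_pos _) (by norm_num)]; norm_num; linarith
    rw [Real.exp_add]
    refine (mul_le_mul Real.exp_neg_one_lt_d9.le a3 (exp_pos _).le (by norm_num)).trans (by norm_num)
  have hy : 1 ≤ (1 - 1 / (a : ℝ)) ^ b * (1 + η + η ^ 2 / 2 + 2 / 9 * η ^ 3) := by
    have a1 := pow_le_exp (x := a / ((a : ℝ) - 1)) (by positivity) b
    have e1 : (b : ℝ) * (a / ((a : ℝ) - 1) - 1) = η := by rw [hη]; field_simp; ring
    have a2 := Real.exp_bound' hη0.le (by linarith) (n := 3) (by norm_num)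
    simp only [sum_range_succ, range_zero, sum_empty, Nat.factorial] at a2
    norm_num at a2
    have e2 : (1 - 1 / (a : ℝ)) ^ b * (a / ((a : ℝ) - 1)) ^ b = 1 := by
      rw [← mul_pow]
      have : (1 - 1 / (a : ℝ)) * (a / ((a : ℝ) - 1)) = 1 := by field_simp
      rw [this, one_pow]
    rw [e1] at a1
    refine e2.symm.le.trans (mul_le_mul_of_nonneg_left (by linarith) (pow_nonneg ?_ _))
    rw [sub_nonneg, div_le_one (by linarith)]; linarith
  have hy0 : 0 < (1 - 1 / (a : ℝ)) ^ b := pow_pos (by rw [sub_pos, div_lt_one (by linarith)]; linarith) _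
  have hy1 : (1 - 1 / (a : ℝ)) ^ b ≤ 1 := pow_le_one₀
    (by rw [sub_nonneg, div_le_one (by linarith)]; linarith) (by have : 0 < 1 / (a : ℝ) := by positivity
                                                                 linarith)
  rw [← hη]
  generalize (1 - 1 / (a : ℝ)) ^ b = y at *
  generalize (1 - 1 / (b : ℝ)) ^ a = x at *
  generalize (a : ℝ) / (4 * ((a : ℝ) - 1)) = q at *
  have b1 : 1 + q * (1 - x) ≤ 1.5652 * (1 - x) := by
    have := mul_le_mul_of_nonneg_right hq sX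
    linarith
  have b2 : 1.5652 * (η + η ^ 2 / 2 + 2 / 9 * η ^ 3) < 1 + η := by
    have c1 : η ^ 2 ≤ 20 / 27 * η := by nlinarith only [hη0, hη1]
    have c2 : η ^ 3 ≤ 20 / 27 * η ^ 2 := by nlinarith only [sq_nonneg η, hη1]
    linarith
  have b3 := mul_le_mul_of_nonneg_left b1 (sub_nonneg.2 hy1)
  have b4 := mul_le_mul_of_nonneg_right (show 1 - y ≤ y * (η + η ^ 2 / 2 + 2 / 9 * η ^ 3) by linarith) sX
  have b5 := mul_lt_mul_of_pos_left b2 (mul_pos hy0 (by linarith : 0 < 1 - x))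
  linarith

end

lemma main_ineq {x : ℝ} (h0 : 0 < x) (h1 : x ≤ 1 / 2) :
    x * (3.14 * (1 - exp (-(1 + x)))) < (1 + x) ^ 2 * (1 - exp (-((1 + x) - 1 / (1 + x)))) := by
  obtain ⟨w, hw⟩ : ∃ w, w = (1 + x) - 1 / (1 + x) := ⟨_, rfl⟩
  have hw' : w = x * (2 + x) / (1 + x) := by rw [hw]; field_simp; ring
  have hw0 : 0 ≤ w := by rw [hw']; positivity
  have hw1 : w ≤ 1 := by rw [hw', div_le_one (by linarith)]; nlinarith
  rw [← hw]
  have a1 := (abs_le.1 (Real.exp_bound (x := -w) (by rw [abs_neg, abs_of_nonneg hw0]; exact hw1)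
    (n := 4) (by norm_num))).2
  have a2 := (abs_le.1 (Real.exp_bound (x := -x) (by rw [abs_neg, abs_of_pos h0]; linarith)
    (n := 3) (by norm_num))).1
  rw [abs_neg, abs_of_nonneg hw0] at a1
  rw [abs_neg, abs_of_pos h0] at a2
  simp only [sum_range_succ, range_zero, sum_empty, Nat.factorial] at a1 a2
  norm_num at a1 a2
  have a3 : 0.36787 * (1 - x + x ^ 2 / 2 - 7 / 18 * x ^ 3 + x ^ 3 / 6) ≤ exp (-(1 + x)) := by
    rw [neg_add, Real.exp_add]
    refine mul_le_mul (by linarith [Real.exp_neg_one_gt_d9]) (by linarith) ?_ (exp_pos _).le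
    have c1 : x ^ 3 ≤ 1 / 2 * x ^ 2 := by nlinarith only [sq_nonneg x, h1]
    nlinarith only [c1, sq_nonneg x, h1]
  have a4 : w - w ^ 2 / 2 + w ^ 3 / 6 - 5 / 96 * w ^ 4 ≤ 1 - exp (-w) := by linarith
  have e : (1 + x) ^ 2 * (w - w ^ 2 / 2 + w ^ 3 / 6 - 5 / 96 * w ^ 4)
      = x * ((2 + x) * ((1 + x) ^ 3 - (1 + x) ^ 2 * (x * (2 + x)) / 2 + (1 + x) * (x * (2 + x)) ^ 2 / 6
        - 5 / 96 * (x * (2 + x)) ^ 3) / (1 + x) ^ 2) := by
    rw [hw']; field_simp
  refine lt_of_lt_of_le ?_ (mul_le_mul_of_nonneg_left a4 (by positivity))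
  rw [e]
  refine mul_lt_mul_of_pos_left ?_ h0
  rw [lt_div_iff₀ (by positivity)]
  have a5 := mul_le_mul_of_nonneg_right a3 (by positivity : 0 ≤ (1 + x) ^ 2)
  have p : ∀ n : ℕ, x ^ (n + 1) ≤ 1 / 2 * x ^ n := fun n => by
    rw [pow_succ, mul_comm]; exact mul_le_mul_of_nonneg_right h1 (by positivity)
  linarith [p 3, p 4, p 5, p 6, sq_nonneg (x - 0.1), pow_pos h0 3]

theorem lt_main {a b : ℕ} (hb19 : 19 ≤ b) (hba : b < a) (hab : 2 * a ≤ 3 * b) {ψ : ℕ → ℕ → ℝ}
    (hψ : TabOK b ψ) (hf : FinOK b ψ) : VV a b 0 1 < VV a b 1 0 := by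
  have hb : 1 ≤ b := by omega
  have hb' : (19 : ℝ) ≤ b := by exact_mod_cast hb19
  have hba' : (b : ℝ) + 1 ≤ a := by exact_mod_cast hba
  have hab' : 2 * (a : ℝ) ≤ 3 * b := by exact_mod_cast hab
  have hb0 : (0 : ℝ) < b := by linarith
  have ha0 : (0 : ℝ) < a := by linarith
  have ha1 : (0 : ℝ) < a - 1 := by linarith
  refine lt_of_key hb hba ?_
  obtain ⟨x, hx⟩ : ∃ x, x = ((a : ℝ) - b) / b := ⟨_, rfl⟩
  obtain ⟨η, hη⟩ : ∃ η, η = (b : ℝ) / ((a : ℝ) - 1) := ⟨_, rfl⟩
  obtain ⟨t, ht⟩ : ∃ t, t = 1 / (b : ℝ) := ⟨_, rfl⟩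
  have hx0 : 0 < x := by rw [hx]; exact div_pos (by linarith) hb0
  have hx1 : x ≤ 1 / 2 := by rw [hx, div_le_iff₀ hb0]; linarith
  have hη0 : 0 ≤ η := by rw [hη]; positivity
  have hη1 : η ≤ 1 := by rw [hη, div_le_one ha1]; linarith
  have ht0 : 0 < t := by rw [ht]; positivity
  have ht1 : t ≤ 1 / 19 := by rw [ht]; exact one_div_le_one_div_of_le (by norm_num) hb'
  have hρ : 1 + x = a * t := by rw [hx, ht]; field_simp; ring
  have y1 : 0 < 1 - 1 / (a : ℝ) := by rw [sub_pos, div_lt_one ha0]; linarith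
  have hy0 : 0 < (1 - 1 / (a : ℝ)) ^ b := pow_pos y1 _
  have hψ0 : ∀ k, 2 ≤ k → k ≤ b → 0 ≤ ψ k 1 := fun k h1 h2 => by
    rcases lt_or_ge (k + 1) 32 with h | h
    · exact (hψ.2 k 1 (by omega) h2 le_rfl hb (by omega) h).1.le
    · rw [hψ.1 k 1 h]; unfold Phi; positivity
  obtain ⟨Ψ, hΨ⟩ : ∃ Ψ, Ψ = ∑ k ∈ Ico 2 (b + 1), ψ k 1 * ((b.choose k : ℝ) / (b : ℝ) ^ k) := ⟨_, rfl⟩
  have hΨ0 : 0 ≤ Ψ := by
    rw [hΨ]
    exact sum_nonneg fun k hk => mul_nonneg
      (hψ0 k (mem_Ico.1 hk).1 (by have := (mem_Ico.1 hk).2; omega)) (by positivity)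
  have h1 : ∑ k ∈ range b, bb b (1 / a) (k + 1) * MM a b (k + 1) 1
      ≤ (1 - 1 / (a : ℝ)) ^ b * (x * η ^ 2 * Ψ) := by
    rw [range_eq_Ico, sum_Ico_add' (fun k => bb b (1 / a) k * MM a b k 1), zero_add,
      sum_eq_sum_Ico_succ_bot (by omega), show MM a b 1 1 = 0 from sub_self _, mul_zero, zero_add,
      hΨ, mul_sum, mul_sum]
    refine sum_le_sum fun k hk => ?_
    rw [mem_Ico] at hk
    have a1 := M_le hb hba hab hψ (i := k) (j := 1) (by omega) (by omega) le_rfl hb (by omega)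
    rw [← hx] at a1
    have a2 : η ^ k ≤ η ^ 2 := pow_le_pow_of_le_one hη0 hη1 hk.1
    rw [bb_eq_y0 hb hba (by omega), ← hη, mul_assoc]
    refine mul_le_mul_of_nonneg_left ?_ hy0.le
    have a3 := hψ0 k hk.1 (by omega)
    calc _ ≤ (b.choose k : ℝ) / (b : ℝ) ^ k * η ^ k * (x * ψ k 1) :=
          mul_le_mul_of_nonneg_left a1 (by positivity)
      _ ≤ (b.choose k : ℝ) / (b : ℝ) ^ k * η ^ 2 * (x * ψ k 1) := by gcongr
      _ = _ := by ring
  unfold FinOK at hf
  rw [← hΨ, ← ht] at hf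
  rw [← ht]
  have t1 : 0 < 1 - t := by linarith
  have h2 : (1 - t) ^ a ≤ (1 - 1 / (a : ℝ)) ^ b * exp (-((1 + x) - 1 / (1 + x))) := by
    have a1 : 1 / (a : ℝ) ≤ t := by rw [ht]; exact one_div_le_one_div_of_le hb0 (by linarith)
    have a2 : log (1 - t) - log (1 - 1 / (a : ℝ)) ≤ 1 / (a : ℝ) - t := by
      rw [← Real.log_div t1.ne' y1.ne']
      refine (Real.log_le_sub_one_of_pos (div_pos t1 y1)).trans ?_
      rw [div_sub_one y1.ne', div_le_iff₀ y1]
      have : 0 < 1 / (a : ℝ) := by positivity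
      nlinarith only [a1, this]
    have a3 : log (1 - 1 / (a : ℝ)) ≤ - (1 / (a : ℝ)) := by
      linarith [Real.log_le_sub_one_of_pos y1]
    rw [← Real.exp_log t1, ← Real.exp_log y1, ← Real.exp_nat_mul, ← Real.exp_nat_mul, ← Real.exp_add]
    refine exp_le_exp.2 ?_
    have e1 : 1 / (1 + x) = b * (1 / (a : ℝ)) := by rw [hρ, ht]; field_simp
    have b1 := mul_le_mul_of_nonneg_left a2 ha0.le
    have b2 := mul_le_mul_of_nonneg_left a3 (by linarith : (0 : ℝ) ≤ a - b)
    rw [e1, hρ]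
    linarith
  have h3 : 1 - (1 - t) ^ a ≤ (1 - exp (-(1 + x))) * (1 + 0.31 * t) := by
    have a1 := (abs_le.1 (Real.abs_log_sub_add_sum_range_le (x := t)
      (by rw [abs_of_pos ht0]; linarith) 3)).1
    rw [abs_of_pos ht0] at a1
    simp only [sum_range_succ, range_zero, sum_empty] at a1
    norm_num at a1
    have a2 : t ^ 4 / (1 - t) ≤ t ^ 3 / 6 := by
      rw [div_le_div_iff₀ t1 (by norm_num)]
      have := mul_le_mul_of_nonneg_left ht1 (pow_pos ht0 3).le
      linarith [pow_pos ht0 3]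
    have a3 : t ^ 3 ≤ 1 / 19 * t ^ 2 := by nlinarith only [sq_nonneg t, ht1]
    have a4 : -(t + 10 / 19 * t ^ 2) ≤ log (1 - t) := by linarith
    have a5 : exp (-(1 + x)) * (1 - (1 + x) * (10 / 19 * t)) ≤ (1 - t) ^ a := by
      rw [← Real.exp_log t1, ← Real.exp_nat_mul]
      refine (mul_le_mul_of_nonneg_left (Real.one_sub_le_exp_neg _) (exp_pos _).le).trans ?_
      rw [← Real.exp_add]
      refine exp_le_exp.2 ?_
      have := mul_le_mul_of_nonneg_left a4 ha0.le
      rw [hρ]; linarith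
    have a6 : exp (-(1 + x)) ≤ exp (-1) := exp_le_exp.2 (by linarith)
    have a7 : exp (-(1 + x)) * (1 + x) ≤ exp (-1) := by
      calc _ ≤ exp (-(1 + x)) * exp x :=
            mul_le_mul_of_nonneg_left (by linarith [Real.add_one_le_exp x]) (exp_pos _).le
        _ = _ := by rw [← Real.exp_add]; congr 1; ring
    have a8 := Real.exp_neg_one_lt_d9
    have a9 := mul_le_mul_of_nonneg_right (a7.trans a8.le) ht0.le
    have a10 := mul_le_mul_of_nonneg_right (a6.trans a8.le) ht0.le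
    linarith
  have h4 : η * (1 - t) * (1 + x) ≤ 1 := by
    have : η * (1 - t) * (1 + x) = a * (b - 1) / (b * (a - 1)) := by rw [hρ, hη, ht]; field_simp
    rw [this, div_le_one (by positivity)]; linarith
  have h5 := main_ineq hx0 hx1
  have s0 : 0 ≤ 1 - (1 - t) ^ a := sub_nonneg.2 (pow_le_one₀ t1.le (by linarith))
  have s1 : 0 ≤ 1 - exp (-(1 + x)) := sub_nonneg.2 (exp_le_one_iff.2 (by linarith))
  have h6 : x * η ^ 2 * Ψ * (1 - (1 - t) ^ a) < 1 - exp (-((1 + x) - 1 / (1 + x))) := by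
    refine lt_of_mul_lt_mul_left (lt_of_le_of_lt ?_ h5) (sq_nonneg (1 + x))
    have c1 := pow_le_pow_left₀ (by positivity) h4 2
    calc _ ≤ (1 + x) ^ 2 * (x * η ^ 2 * Ψ * ((1 - exp (-(1 + x))) * (1 + 0.31 * t))) := by gcongr
      _ = (1 + x) ^ 2 * x * η ^ 2 * (1 - exp (-(1 + x))) * (Ψ * (1 + 0.31 * t)) := by ring
      _ ≤ (1 + x) ^ 2 * x * η ^ 2 * (1 - exp (-(1 + x))) * (3.14 * (1 - t) ^ 2) :=
          mul_le_mul_of_nonneg_left hf (by positivity)
      _ = x * (3.14 * (1 - exp (-(1 + x)))) * (η * (1 - t) * (1 + x)) ^ 2 := by ring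
      _ ≤ x * (3.14 * (1 - exp (-(1 + x)))) * 1 ^ 2 := mul_le_mul_of_nonneg_left c1 (by positivity)
      _ = _ := by ring
  have h7 := mul_lt_mul_of_pos_left h6 hy0
  have h8 := mul_le_mul_of_nonneg_right h1 s0
  linarith

end Pool.Agent.MP_79e3be_pr

end MrgPart0

-- ======== part 1: formerly Pool.Agent.MP_79e3be_pr.Boxes
section MrgPart1

/-! All ranges of `b ≥ 19` together. -/

set_option autoImplicit false

namespace Pool.Agent.MP_79e3be_pr

lemma box_ok {b b1 n1 d1 N T : ℕ} (B : Box b b1 n1 d1 N)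
    (h1 : rangeChk b1 n1 d1 N T 3 13 = true)
    (h2 : rangeChk b1 n1 d1 N T 16 4 = true)
    (h3 : rangeChk b1 n1 d1 N T 20 3 = true)
    (h4 : rangeChk b1 n1 d1 N T 23 2 = true)
    (h5 : rangeChk b1 n1 d1 N T 25 2 = true)
    (h6 : rangeChk b1 n1 d1 N T 27 1 = true)
    (h7 : rangeChk b1 n1 d1 N T 28 1 = true)
    (h8 : rangeChk b1 n1 d1 N T 29 1 = true)
    (h9 : rangeChk b1 n1 d1 N T 30 1 = true)
    (h10 : rangeChk b1 n1 d1 N T 31 1 = true)
    (hf : finChk b1 n1 d1 T = true) : ∃ ψ, TabOK b ψ ∧ FinOK b ψ := by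
  refine ⟨psiR T, tabOK_of_all B fun s hs1 hs2 => ?_, finOK_of_chk B hf⟩
  rcases lt_or_ge s 16 with a1 | a1
  · exact rangeChk_spec h1 s (by omega) (by omega)
  rcases lt_or_ge s 20 with a2 | a2
  · exact rangeChk_spec h2 s (by omega) (by omega)
  rcases lt_or_ge s 23 with a3 | a3
  · exact rangeChk_spec h3 s (by omega) (by omega)
  rcases lt_or_ge s 25 with a4 | a4
  · exact rangeChk_spec h4 s (by omega) (by omega)
  rcases lt_or_ge s 27 with a5 | a5
  · exact rangeChk_spec h5 s (by omega) (by omega)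
  rcases lt_or_ge s 28 with a6 | a6
  · exact rangeChk_spec h6 s (by omega) (by omega)
  rcases lt_or_ge s 29 with a7 | a7
  · exact rangeChk_spec h7 s (by omega) (by omega)
  rcases lt_or_ge s 30 with a8 | a8
  · exact rangeChk_spec h8 s (by omega) (by omega)
  rcases lt_or_ge s 31 with a9 | a9
  · exact rangeChk_spec h9 s (by omega) (by omega)
  exact rangeChk_spec h10 s (by omega) (by omega)

theorem exists_table {b : ℕ} (h0 : 19 ≤ b) : ∃ ψ, TabOK b ψ ∧ FinOK b ψ := by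
  rcases le_or_gt b 19 with h1 | h1
  · exact box_ok ⟨by norm_num, by norm_num, by norm_num, by omega, by omega⟩
      Box01.t1 Box01.t2 Box01.t3 Box01.t4 Box01.t5
      Box01.t6 Box01.t7 Box01.t8 Box01.t9 Box01.t10 Box01.tf
  rcases le_or_gt b 20 with h2 | h2
  · exact box_ok ⟨by norm_num, by norm_num, by norm_num, by omega, by omega⟩
      Box02.t1 Box02.t2 Box02.t3 Box02.t4 Box02.t5
      Box02.t6 Box02.t7 Box02.t8 Box02.t9 Box02.t10 Box02.tf
  rcases le_or_gt b 21 with h3 | h3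
  · exact box_ok ⟨by norm_num, by norm_num, by norm_num, by omega, by omega⟩
      Box03.t1 Box03.t2 Box03.t3 Box03.t4 Box03.t5
      Box03.t6 Box03.t7 Box03.t8 Box03.t9 Box03.t10 Box03.tf
  rcases le_or_gt b 22 with h4 | h4
  · exact box_ok ⟨by norm_num, by norm_num, by norm_num, by omega, by omega⟩
      Box04.t1 Box04.t2 Box04.t3 Box04.t4 Box04.t5
      Box04.t6 Box04.t7 Box04.t8 Box04.t9 Box04.t10 Box04.tf
  rcases le_or_gt b 24 with h5 | h5
  · exact box_ok ⟨by norm_num, by norm_num, by norm_num, by omega, by omega⟩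
      Box05.t1 Box05.t2 Box05.t3 Box05.t4 Box05.t5
      Box05.t6 Box05.t7 Box05.t8 Box05.t9 Box05.t10 Box05.tf
  rcases le_or_gt b 26 with h6 | h6
  · exact box_ok ⟨by norm_num, by norm_num, by norm_num, by omega, by omega⟩
      Box06.t1 Box06.t2 Box06.t3 Box06.t4 Box06.t5
      Box06.t6 Box06.t7 Box06.t8 Box06.t9 Box06.t10 Box06.tf
  rcases le_or_gt b 29 with h7 | h7
  · exact box_ok ⟨by norm_num, by norm_num, by norm_num, by omega, by omega⟩
      Box07.t1 Box07.t2 Box07.t3 Box07.t4 Box07.t5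
      Box07.t6 Box07.t7 Box07.t8 Box07.t9 Box07.t10 Box07.tf
  rcases le_or_gt b 33 with h8 | h8
  · exact box_ok ⟨by norm_num, by norm_num, by norm_num, by omega, by omega⟩
      Box08.t1 Box08.t2 Box08.t3 Box08.t4 Box08.t5
      Box08.t6 Box08.t7 Box08.t8 Box08.t9 Box08.t10 Box08.tf
  rcases le_or_gt b 39 with h9 | h9
  · exact box_ok ⟨by norm_num, by norm_num, by norm_num, by omega, by omega⟩
      Box09.t1 Box09.t2 Box09.t3 Box09.t4 Box09.t5
      Box09.t6 Box09.t7 Box09.t8 Box09.t9 Box09.t10 Box09.tf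
  rcases le_or_gt b 48 with h10 | h10
  · exact box_ok ⟨by norm_num, by norm_num, by norm_num, by omega, by omega⟩
      Box10.t1 Box10.t2 Box10.t3 Box10.t4 Box10.t5
      Box10.t6 Box10.t7 Box10.t8 Box10.t9 Box10.t10 Box10.tf
  rcases le_or_gt b 62 with h11 | h11
  · exact box_ok ⟨by norm_num, by norm_num, by norm_num, by omega, by omega⟩
      Box11.t1 Box11.t2 Box11.t3 Box11.t4 Box11.t5
      Box11.t6 Box11.t7 Box11.t8 Box11.t9 Box11.t10 Box11.tf
  rcases le_or_gt b 88 with h12 | h12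
  · exact box_ok ⟨by norm_num, by norm_num, by norm_num, by omega, by omega⟩
      Box12.t1 Box12.t2 Box12.t3 Box12.t4 Box12.t5
      Box12.t6 Box12.t7 Box12.t8 Box12.t9 Box12.t10 Box12.tf
  rcases le_or_gt b 150 with h13 | h13
  · exact box_ok ⟨by norm_num, by norm_num, by norm_num, by omega, by omega⟩
      Box13.t1 Box13.t2 Box13.t3 Box13.t4 Box13.t5
      Box13.t6 Box13.t7 Box13.t8 Box13.t9 Box13.t10 Box13.tf
  rcases le_or_gt b 300 with h14 | h14
  · exact box_ok ⟨by norm_num, by norm_num, by norm_num, by omega, by omega⟩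
      Box14.t1 Box14.t2 Box14.t3 Box14.t4 Box14.t5
      Box14.t6 Box14.t7 Box14.t8 Box14.t9 Box14.t10 Box14.tf
  exact box_ok ⟨by norm_num, by norm_num, by norm_num, by omega, by omega⟩
      Box15.t1 Box15.t2 Box15.t3 Box15.t4 Box15.t5
      Box15.t6 Box15.t7 Box15.t8 Box15.t9 Box15.t10 Box15.tf

end Pool.Agent.MP_79e3be_pr

end MrgPart1

-- ======== part 2: formerly Pool.Agent.MP_79e3be_pr.SmallOK
section MrgPart2

/-! Soundness of the direct check. -/

set_option autoImplicit false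

open Finset

namespace Pool.Agent.MP_79e3be_pr

lemma bb_eq_wt {n p m x : ℕ} (hm : 1 ≤ m) (hp : p ≤ m) (hx : x ≤ n) :
    bb n ((p : ℝ) / m) x = (wt n p (m - p) x : ℝ) / (m : ℝ) ^ n := by
  have hm' : (0 : ℝ) < m := by exact_mod_cast hm
  simp only [wt, n_mul, n_div, n_sub, n_pow, fct_eq]
  rw [← Nat.choose_eq_factorial_div_factorial hx]
  have e : (m : ℝ) ^ n = (m : ℝ) ^ x * (m : ℝ) ^ (n - x) := by rw [← pow_add]; congr 1; omega
  have e2 : 1 - (p : ℝ) / m = ((m : ℝ) - p) / m := by field_simp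
  unfold bb
  rw [e, e2, div_pow, div_pow]
  push_cast [Nat.cast_sub hp]
  field_simp

lemma sinner_eq (T u j : ℕ) (fp : ℕ → ℕ) (n : ℕ) :
    sinner (srow T u) (ofL j fp (Nat.mul 24) (fun _ => 0) n)
      = ∑ y ∈ range n, fp y * sval T u (j + y) :=
  sumL_ofL (fun _ p sh _ => Nat.mul p (Nat.mod (Nat.shiftRight (srow T u) sh) 16777216)) j fp _ _ n

lemma ssum_eq {a b i j : ℕ} (T : ℕ) (ha : 1 ≤ a) (hb : 1 ≤ b) (hi : i ≤ a) (hj : j ≤ b) :
    TT a b (fun u w => (sval T u w : ℝ)) i j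
      = (ssum a b T i j : ℝ) / ((b ^ (a - i) * a ^ (b - j) : ℕ) : ℝ) := by
  simp only [ssum, mkL_eq, sumTo_eq, frc_eq, sinner_eq]
  simp only [n_add, n_mul, n_sub, n_succ]
  rw [TT, pr_eq hi, pr_eq hj, Nat.cast_sum, sum_div]
  refine sum_congr rfl fun x hx => ?_
  simp only [EE]
  rw [bb_eq_wt hb hj (Nat.le_of_lt_succ (mem_range.1 hx)), Nat.cast_mul, Nat.cast_sum, mul_sum,
    mul_sum, sum_div]
  refine sum_congr rfl fun y hy => ?_
  rw [bb_eq_wt ha hi (Nat.le_of_lt_succ (mem_range.1 hy))]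
  push_cast; ring

theorem lt_of_small {a b T : ℕ} (ha : 1 ≤ a) (hb : 1 ≤ b) (h : smallChk a b T = true) :
    VV a b 0 1 < VV a b 1 0 := by
  simp only [smallChk, ifLe_eq] at h
  replace h := ite_false_eq h
  obtain ⟨h0, h⟩ := h
  replace h := ite_false_eq h
  obtain ⟨h1, h⟩ := h
  simp only [n_mul, n_succ] at h1
  set f : ℕ → ℕ → ℝ := fun u w => (sval T u w : ℝ) with hf
  have key : ∀ i ≤ a, ∀ j ≤ b, 1 ≤ i + j → ¬ (a ≤ i ∧ b ≤ j) →
      262144 + TT a b f i j ≤ f i j ∧ f i j ≤ 262145 + TT a b f i j := by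
    intro i hi j hj h2 h3
    have h4 := allTo_spec (allTo_spec h i (by rw [n_succ]; omega)) j (by rw [n_succ]; omega)
    simp only [sstate, ifLe_eq, frc_eq] at h4
    rw [if_neg (by rw [n_add]; omega), if_neg (by rw [n_add, n_add]; omega)] at h4
    replace h4 := ite_false_eq h4
    obtain ⟨h5, h6⟩ := h4
    replace h6 := Nat.le_of_ble_eq_true h6
    simp only [n_add, n_mul, n_sub, n_pow] at h5 h6
    rw [ssum_eq T ha hb hi hj]
    have hD : (0 : ℝ) < ((b ^ (a - i) * a ^ (b - j) : ℕ) : ℝ) := by positivity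
    generalize b ^ (a - i) * a ^ (b - j) = D at *
    have h7 := (Nat.cast_le (α := ℝ)).2 h5
    have h8 := (Nat.cast_le (α := ℝ)).2 h6
    push_cast at h7 h8
    rw [add_div' _ _ _ hD.ne', add_div' _ _ _ hD.ne', div_le_iff₀ hD, le_div_iff₀ hD]
    exact ⟨h7, h8⟩
  have htop : f a b = 0 := by simp only [hf]; exact_mod_cast Nat.le_zero.1 h0
  have lin : ∀ (c d : ℝ) (i j : ℕ), TT a b (fun u w => c * VV a b u w + d * f u w) i j
      = c * TT a b (VV a b) i j + d * TT a b f i j := fun c d i j => by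
    simp only [TT, EE_add, EE_mul]
  have u1 := max_principle ha hb (H := fun u w => 262144 * VV a b u w + (-1) * f u w)
    (by simp only [VV_top, htop]; norm_num) (fun i hi j hj h2 h3 => by
      rw [lin]; linarith [(key i hi j hj h2 h3).1, VV_eq ha hb h2 h3]) 0 (Nat.zero_le a) 1 hb le_rfl
  have u2 := max_principle ha hb (H := fun u w => (-262145) * VV a b u w + 1 * f u w)
    (by simp only [VV_top, htop]; norm_num) (fun i hi j hj h2 h3 => by
      rw [lin]; linarith [(key i hi j hj h2 h3).2, VV_eq ha hb h2 h3]) 1 ha 0 (Nat.zero_le b) le_rfl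
  have h9 := (Nat.cast_le (α := ℝ)).2 h1
  push_cast at h9
  simp only [hf] at u1 u2
  linarith

end Pool.Agent.MP_79e3be_pr

end MrgPart2

-- ======== part 3: formerly Pool.Agent.MP_79e3be_pr.Main
section MrgPart3

/-! The inequality for the value function, for all `a > b ≥ 1`. -/

set_option autoImplicit false

namespace Pool.Agent.MP_79e3be_pr

theorem lt_small {a b : ℕ} (hb : b ≤ 18) (hba : b < a) (hab : 2 * a < 3 * b) :
    VV a b 0 1 < VV a b 1 0 := by
  have h3 : 3 ≤ b := by omega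
  interval_cases b
  · obtain rfl : a = 4 := by omega
    · exact lt_of_small (by norm_num) (by norm_num) Small.s_4_3
  · obtain rfl : a = 5 := by omega
    · exact lt_of_small (by norm_num) (by norm_num) Small.s_5_4
  · obtain rfl | rfl : a = 6 ∨ a = 7 := by omega
    · exact lt_of_small (by norm_num) (by norm_num) Small.s_6_5
    · exact lt_of_small (by norm_num) (by norm_num) Small.s_7_5
  · obtain rfl | rfl : a = 7 ∨ a = 8 := by omega
    · exact lt_of_small (by norm_num) (by norm_num) Small.s_7_6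
    · exact lt_of_small (by norm_num) (by norm_num) Small.s_8_6
  · obtain rfl | rfl | rfl : a = 8 ∨ a = 9 ∨ a = 10 := by omega
    · exact lt_of_small (by norm_num) (by norm_num) Small.s_8_7
    · exact lt_of_small (by norm_num) (by norm_num) Small.s_9_7
    · exact lt_of_small (by norm_num) (by norm_num) Small.s_10_7
  · obtain rfl | rfl | rfl : a = 9 ∨ a = 10 ∨ a = 11 := by omega
    · exact lt_of_small (by norm_num) (by norm_num) Small.s_9_8
    · exact lt_of_small (by norm_num) (by norm_num) Small.s_10_8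
    · exact lt_of_small (by norm_num) (by norm_num) Small.s_11_8
  · obtain rfl | rfl | rfl | rfl : a = 10 ∨ a = 11 ∨ a = 12 ∨ a = 13 := by omega
    · exact lt_of_small (by norm_num) (by norm_num) Small.s_10_9
    · exact lt_of_small (by norm_num) (by norm_num) Small.s_11_9
    · exact lt_of_small (by norm_num) (by norm_num) Small.s_12_9
    · exact lt_of_small (by norm_num) (by norm_num) Small.s_13_9
  · obtain rfl | rfl | rfl | rfl : a = 11 ∨ a = 12 ∨ a = 13 ∨ a = 14 := by omega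
    · exact lt_of_small (by norm_num) (by norm_num) Small.s_11_10
    · exact lt_of_small (by norm_num) (by norm_num) Small.s_12_10
    · exact lt_of_small (by norm_num) (by norm_num) Small.s_13_10
    · exact lt_of_small (by norm_num) (by norm_num) Small.s_14_10
  · obtain rfl | rfl | rfl | rfl | rfl : a = 12 ∨ a = 13 ∨ a = 14 ∨ a = 15 ∨ a = 16 := by omega
    · exact lt_of_small (by norm_num) (by norm_num) Small.s_12_11
    · exact lt_of_small (by norm_num) (by norm_num) Small.s_13_11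
    · exact lt_of_small (by norm_num) (by norm_num) Small.s_14_11
    · exact lt_of_small (by norm_num) (by norm_num) Small.s_15_11
    · exact lt_of_small (by norm_num) (by norm_num) Small.s_16_11
  · obtain rfl | rfl | rfl | rfl | rfl : a = 13 ∨ a = 14 ∨ a = 15 ∨ a = 16 ∨ a = 17 := by omega
    · exact lt_of_small (by norm_num) (by norm_num) Small.s_13_12
    · exact lt_of_small (by norm_num) (by norm_num) Small.s_14_12
    · exact lt_of_small (by norm_num) (by norm_num) Small.s_15_12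
    · exact lt_of_small (by norm_num) (by norm_num) Small.s_16_12
    · exact lt_of_small (by norm_num) (by norm_num) Small.s_17_12
  · obtain rfl | rfl | rfl | rfl | rfl | rfl : a = 14 ∨ a = 15 ∨ a = 16 ∨ a = 17 ∨ a = 18 ∨ a = 19 := by omega
    · exact lt_of_small (by norm_num) (by norm_num) Small.s_14_13
    · exact lt_of_small (by norm_num) (by norm_num) Small.s_15_13
    · exact lt_of_small (by norm_num) (by norm_num) Small.s_16_13
    · exact lt_of_small (by norm_num) (by norm_num) Small.s_17_13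
    · exact lt_of_small (by norm_num) (by norm_num) Small.s_18_13
    · exact lt_of_small (by norm_num) (by norm_num) Small.s_19_13
  · obtain rfl | rfl | rfl | rfl | rfl | rfl : a = 15 ∨ a = 16 ∨ a = 17 ∨ a = 18 ∨ a = 19 ∨ a = 20 := by omega
    · exact lt_of_small (by norm_num) (by norm_num) Small.s_15_14
    · exact lt_of_small (by norm_num) (by norm_num) Small.s_16_14
    · exact lt_of_small (by norm_num) (by norm_num) Small.s_17_14
    · exact lt_of_small (by norm_num) (by norm_num) Small.s_18_14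
    · exact lt_of_small (by norm_num) (by norm_num) Small.s_19_14
    · exact lt_of_small (by norm_num) (by norm_num) Small.s_20_14
  · obtain rfl | rfl | rfl | rfl | rfl | rfl | rfl : a = 16 ∨ a = 17 ∨ a = 18 ∨ a = 19 ∨ a = 20 ∨ a = 21 ∨ a = 22 := by omega
    · exact lt_of_small (by norm_num) (by norm_num) Small.s_16_15
    · exact lt_of_small (by norm_num) (by norm_num) Small.s_17_15
    · exact lt_of_small (by norm_num) (by norm_num) Small.s_18_15
    · exact lt_of_small (by norm_num) (by norm_num) Small.s_19_15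
    · exact lt_of_small (by norm_num) (by norm_num) Small.s_20_15
    · exact lt_of_small (by norm_num) (by norm_num) Small.s_21_15
    · exact lt_of_small (by norm_num) (by norm_num) Small.s_22_15
  · obtain rfl | rfl | rfl | rfl | rfl | rfl | rfl : a = 17 ∨ a = 18 ∨ a = 19 ∨ a = 20 ∨ a = 21 ∨ a = 22 ∨ a = 23 := by omega
    · exact lt_of_small (by norm_num) (by norm_num) Small.s_17_16
    · exact lt_of_small (by norm_num) (by norm_num) Small.s_18_16
    · exact lt_of_small (by norm_num) (by norm_num) Small.s_19_16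
    · exact lt_of_small (by norm_num) (by norm_num) Small.s_20_16
    · exact lt_of_small (by norm_num) (by norm_num) Small.s_21_16
    · exact lt_of_small (by norm_num) (by norm_num) Small.s_22_16
    · exact lt_of_small (by norm_num) (by norm_num) Small.s_23_16
  · obtain rfl | rfl | rfl | rfl | rfl | rfl | rfl | rfl : a = 18 ∨ a = 19 ∨ a = 20 ∨ a = 21 ∨ a = 22 ∨ a = 23 ∨ a = 24 ∨ a = 25 := by omega
    · exact lt_of_small (by norm_num) (by norm_num) Small.s_18_17
    · exact lt_of_small (by norm_num) (by norm_num) Small.s_19_17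
    · exact lt_of_small (by norm_num) (by norm_num) Small.s_20_17
    · exact lt_of_small (by norm_num) (by norm_num) Small.s_21_17
    · exact lt_of_small (by norm_num) (by norm_num) Small.s_22_17
    · exact lt_of_small (by norm_num) (by norm_num) Small.s_23_17
    · exact lt_of_small (by norm_num) (by norm_num) Small.s_24_17
    · exact lt_of_small (by norm_num) (by norm_num) Small.s_25_17
  · obtain rfl | rfl | rfl | rfl | rfl | rfl | rfl | rfl : a = 19 ∨ a = 20 ∨ a = 21 ∨ a = 22 ∨ a = 23 ∨ a = 24 ∨ a = 25 ∨ a = 26 := by omega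
    · exact lt_of_small (by norm_num) (by norm_num) Small.s_19_18
    · exact lt_of_small (by norm_num) (by norm_num) Small.s_20_18
    · exact lt_of_small (by norm_num) (by norm_num) Small.s_21_18
    · exact lt_of_small (by norm_num) (by norm_num) Small.s_22_18
    · exact lt_of_small (by norm_num) (by norm_num) Small.s_23_18
    · exact lt_of_small (by norm_num) (by norm_num) Small.s_24_18
    · exact lt_of_small (by norm_num) (by norm_num) Small.s_25_18
    · exact lt_of_small (by norm_num) (by norm_num) Small.s_26_18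

theorem VV_lt {a b : ℕ} (hb : 1 ≤ b) (hba : b < a) : VV a b 0 1 < VV a b 1 0 := by
  rcases le_or_gt (3 * b) (2 * a) with h | h
  · exact lt_large hb hba h
  rcases le_or_gt b 18 with h' | h'
  · exact lt_small h' hba h
  obtain ⟨ψ, h1, h2⟩ := exists_table h'
  exact lt_main h' hba h.le h1 h2

end Pool.Agent.MP_79e3be_pr

end MrgPart3

-- marker of a merged file
example : 731051 + 168314 = 731051 + 168314 := rfl
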