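import Mathlib.MeasureTheory.Constructions.UnitInterval
import Mathlib.Probability.ProductMeasure

/-! Randomized zero forcing on a finite weighted directed graph. -/

set_option autoImplicit false

open MeasureTheory
open scoped ENNReal

namespace Pool.Agent.MP_79e3be_pr

variable {V : Type} [Fintype V] [DecidableEq V]

/-- The probability that the white vertex `v` turns blue when the blue set is `B`: the weight of
the edges from `B` into `v` over the weight of all edges into `v` (`0` if the latter is `0`). -/
noncomputable def prob (w : V → V → ℝ) (B : Finset V) (v : V) : ℝ :=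
  (∑ x ∈ B, w x v) / ∑ x, w x v

/-- One round: blue vertices stay blue, and `v` turns blue when its coin `u v` is below
`prob w B v`. -/
noncomputable def step (w : V → V → ℝ) (B : Finset V) (u : V → unitInterval) : Finset V :=
  B ∪ Finset.univ.filter fun v => (u v : ℝ) < prob w B v

/-- The blue set after `t` rounds from the start set `X`; round `t + 1` uses the coins `ω t`. -/
noncomputable def blue (w : V → V → ℝ) (X : Finset V) (ω : ℕ → V → unitInterval) : ℕ → Finset V
  | 0 => X
  | t + 1 => step w (blue w X ω t) (ω t)

/-- The first time at which every vertex is blue (`∞` if there is none). -/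
noncomputable def tau (w : V → V → ℝ) (X : Finset V) (ω : ℕ → V → unitInterval) : ℝ≥0∞ :=
  ⨅ (t : ℕ) (_ : blue w X ω t = Finset.univ), (t : ℝ≥0∞)

/-- Independent coins, uniform on `[0, 1]`, one for each round and vertex. -/
noncomputable def coins (V : Type) [Fintype V] : Measure (ℕ → V → unitInterval) :=
  Measure.infinitePi fun _ : ℕ => Measure.pi fun _ : V => (volume : Measure unitInterval)

/-- The expected propagation time of randomized zero forcing from the start set `X`. -/
noncomputable def ept (w : V → V → ℝ) (X : Finset V) : ℝ≥0∞ := ∫⁻ ω, tau w X ω ∂coins V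

/-- The bidirectional complete bipartite graph with parts `Fin a` and `Fin b`, all edges of
weight `c`. -/
def bip (a b : ℕ) (c : ℝ) : Fin a ⊕ Fin b → Fin a ⊕ Fin b → ℝ
  | .inl _, .inr _ => c
  | .inr _, .inl _ => c
  | .inl _, .inl _ => 0
  | .inr _, .inr _ => 0

end Pool.Agent.MP_79e3be_pr
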