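import Mathlib.MeasureTheory.Measure.RegularityCompacts
import Mathlib.Data.Finset.Slice
import Mathlib.Order.CompletePartialOrder
import Mathlib.Probability.Independence.InfinitePi
import Mathlib.Topology.UniformSpace.Uniformizable
import Pool.Agent.MP_79e3be_pr.Defs
import Pool.Agent.MP_79e3be_pr.Val

/-! From the process on path space to the counting chain. -/

set_option autoImplicit false
set_option linter.unusedSectionVars false

open Finset MeasureTheory ProbabilityTheory
open scoped ENNReal

namespace Pool.Agent.MP_79e3be_pr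

section general

variable {V : Type} [Fintype V] [DecidableEq V] (w : V → V → ℝ)

/-- transition weights -/
noncomputable def KW (B B' : Finset V) : ℝ :=
  ∏ v, if v ∈ B' then (if v ∈ B then 1 else prob w B v) else 1 - (if v ∈ B then 1 else prob w B v)

/-- transition operator -/
noncomputable def KK (f : Finset V → ℝ) (B : Finset V) : ℝ := ∑ B', KW w B B' * f B'

lemma step_eq_pi (B B' : Finset V) : {u : V → unitInterval | step w B u = B'}
    = Set.univ.pi fun v => {x : unitInterval | (v ∈ B ∨ (x : ℝ) < prob w B v) ↔ v ∈ B'} := by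
  ext u
  simp [step, Finset.ext_iff]

lemma measurableSet_coin (B B' : Finset V) (v : V) :
    MeasurableSet {x : unitInterval | (v ∈ B ∨ (x : ℝ) < prob w B v) ↔ v ∈ B'} := by
  have h : MeasurableSet {x : unitInterval | (x : ℝ) < prob w B v} :=
    measurableSet_lt measurable_subtype_coe measurable_const
  by_cases h1 : v ∈ B <;> by_cases h2 : v ∈ B' <;> simp only [h1, h2, true_or, false_or, iff_true,
    iff_false]
  · exact MeasurableSet.const _
  · exact MeasurableSet.const _
  · exact h
  · exact h.compl

lemma measurableSet_step (B B' : Finset V) :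
    MeasurableSet {u : V → unitInterval | step w B u = B'} := by
  rw [step_eq_pi]
  exact MeasurableSet.univ_pi fun v => measurableSet_coin w B B' v

lemma measure_step (hw : ∀ B v, 0 ≤ prob w B v ∧ prob w B v ≤ 1) (B B' : Finset V) :
    (Measure.pi fun _ : V => (volume : Measure unitInterval)).real {u | step w B u = B'}
      = KW w B B' := by
  rw [step_eq_pi, Measure.real, Measure.pi_pi, ENNReal.toReal_prod]
  refine prod_congr rfl fun v _ => ?_
  by_cases h1 : v ∈ B <;> by_cases h2 : v ∈ B' <;> simp only [h1, h2, true_or, false_or, iff_true,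
    iff_false, if_true, if_false]
  · simp
  · simp
  · have : {x : unitInterval | (x : ℝ) < prob w B v} = Set.Iio ⟨prob w B v, hw B v⟩ := rfl
    rw [this, unitInterval.volume_Iio, ENNReal.toReal_ofReal (hw B v).1]
  · have : {x : unitInterval | ¬ (x : ℝ) < prob w B v} = Set.Ici ⟨prob w B v, hw B v⟩ := by
      ext x; exact not_lt
    rw [this, unitInterval.volume_Ici, ENNReal.toReal_ofReal (sub_nonneg.2 (hw B v).2)]

instance : IsProbabilityMeasure (coins V) := by unfold coins; infer_instance

lemma blue_succ_eq (X : Finset V) (t : ℕ) (B' : Finset V) :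
    {ω | blue w X ω (t + 1) = B'} = ⋃ B ∈ (univ : Finset (Finset V)),
      {ω | blue w X ω t = B} ∩ (fun ω => ω t) ⁻¹' {u | step w B u = B'} := by
  ext ω
  simp [blue]

/-- the sigma-algebra of one round -/
@[reducible] def sig (V : Type) (n : ℕ) : MeasurableSpace (ℕ → V → unitInterval) :=
  MeasurableSpace.comap (fun ω => ω n) inferInstance

lemma sig_le (n : ℕ) : sig V n ≤ MeasurableSpace.pi := (measurable_pi_apply n).comap_le

lemma measurableSet_blue_sig (X : Finset V) (t : ℕ) (B : Finset V) :
    MeasurableSet[⨆ i ∈ Set.Iio t, sig V i] {ω | blue w X ω t = B} := by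
  induction t generalizing B with
  | zero => exact MeasurableSet.const (X = B)
  | succ t ih =>
    rw [blue_succ_eq]
    refine Finset.measurableSet_biUnion _ fun B0 _ => MeasurableSet.inter ?_ ?_
    · exact (biSup_mono fun i (hi : i < t) => (hi.trans (Nat.lt_succ_self t) : i < t + 1) :
        (⨆ i ∈ Set.Iio t, sig V i) ≤ ⨆ i ∈ Set.Iio (t + 1), sig V i) _ (ih B0)
    · exact (le_biSup (sig V) (Nat.lt_succ_self t) : sig V t ≤ ⨆ i ∈ Set.Iio (t + 1), sig V i) _
        ⟨_, measurableSet_step w B0 B, rfl⟩

lemma measurableSet_blue (X : Finset V) (t : ℕ) (B : Finset V) :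
    MeasurableSet {ω | blue w X ω t = B} :=
  (iSup₂_le fun i _ => sig_le i : (⨆ i ∈ Set.Iio t, sig V i) ≤ MeasurableSpace.pi) _
    (measurableSet_blue_sig w X t B)

lemma measure_blue_succ (hw : ∀ B v, 0 ≤ prob w B v ∧ prob w B v ≤ 1) (X : Finset V) (t : ℕ)
    (B' : Finset V) : (coins V).real {ω | blue w X ω (t + 1) = B'}
      = ∑ B, (coins V).real {ω | blue w X ω t = B} * KW w B B' := by
  have hind : iIndep (sig V) (coins V) :=
    (iIndepFun_infinitePi (P := fun _ : ℕ => Measure.pi fun _ : V => (volume : Measure unitInterval))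
      (X := fun _ u => u) fun _ => measurable_id).iIndep
  have h2 := (Indep_iff _ _ _).1 (indep_iSup_of_disjoint sig_le hind (S := Set.Iio t) (T := {t})
    (by simp))
  rw [blue_succ_eq, measureReal_biUnion_finset]
  · refine sum_congr rfl fun B _ => ?_
    rw [← measure_step w hw, Measure.real, h2 _ _ (measurableSet_blue_sig w X t B)
      ((le_biSup (sig V) (Set.mem_singleton t) : sig V t ≤ ⨆ i ∈ ({t} : Set ℕ), sig V i) _
        ⟨_, measurableSet_step w B B', rfl⟩), ENNReal.toReal_mul, Measure.real, Measure.real]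
    congr 2
    exact (measurePreserving_eval_infinitePi _ t).measure_preimage
      (measurableSet_step w B B').nullMeasurableSet
  · intro B _ C _ hBC
    refine Set.disjoint_left.2 fun ω h1 h2 => hBC ?_
    exact h1.1.symm.trans h2.1
  · exact fun B _ => (measurableSet_blue w X t B).inter
      (measurable_pi_apply t (measurableSet_step w B B'))

lemma sum_measure_blue (hw : ∀ B v, 0 ≤ prob w B v ∧ prob w B v ≤ 1) (X : Finset V) (t : ℕ)
    (f : Finset V → ℝ) :
    ∑ B, (coins V).real {ω | blue w X ω t = B} * f B = (KK w)^[t] f X := by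
  induction t generalizing f with
  | zero =>
    rw [sum_eq_single X]
    · simp [blue]
    · intro B _ hB
      simp [blue, hB.symm]
    · simp
  | succ t ih =>
    rw [Function.iterate_succ_apply, ← ih]
    simp only [measure_blue_succ w hw, sum_mul, KK, mul_sum]
    rw [sum_comm]
    exact sum_congr rfl fun B _ => sum_congr rfl fun B' _ => by ring

lemma blue_univ_mono (X : Finset V) (ω : ℕ → V → unitInterval) {s t : ℕ} (h : s ≤ t)
    (hs : blue w X ω s = univ) : blue w X ω t = univ := by
  induction h with
  | refl => exact hs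
  | step _ ih => simp only [blue, step, ih]; simp

lemma tau_eq_tsum (X : Finset V) (ω : ℕ → V → unitInterval) :
    tau w X ω = ∑' t, {ω | blue w X ω t = univ}ᶜ.indicator (fun _ => (1 : ℝ≥0∞)) ω := by
  by_cases h : ∃ t, blue w X ω t = univ
  · have e1 : tau w X ω = Nat.find h := by
      refine le_antisymm (iInf₂_le (Nat.find h) (Nat.find_spec h)) (le_iInf₂ fun t ht => ?_)
      exact_mod_cast Nat.find_min' h ht
    rw [e1, tsum_eq_sum (s := range (Nat.find h))]
    · rw [sum_congr rfl (g := fun _ => (1 : ℝ≥0∞))]
      · simp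
      · intro t ht
        exact Set.indicator_of_mem (Nat.find_min h (mem_range.1 ht)) _
    · intro t ht
      refine Set.indicator_of_notMem (Set.notMem_compl_iff.2 ?_) _
      exact blue_univ_mono w X ω (by simpa using ht) (Nat.find_spec h)
  · push Not at h
    have e1 : tau w X ω = ⊤ := by simp [tau, h]
    have e2 : ∀ t, {ω | blue w X ω t = univ}ᶜ.indicator (fun _ => (1 : ℝ≥0∞)) ω = 1 := fun t =>
      Set.indicator_of_mem (s := {ω | blue w X ω t = univ}ᶜ) (h t) _
    simp [e1, e2]

lemma ept_eq_tsum (hw : ∀ B v, 0 ≤ prob w B v ∧ prob w B v ≤ 1) (X : Finset V) :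
    ept w X = ∑' t, ENNReal.ofReal ((KK w)^[t] (fun B => if B = univ then 0 else 1) X) := by
  simp only [ept, tau_eq_tsum]
  rw [lintegral_tsum fun t =>
    (measurable_const.indicator (measurableSet_blue w X t univ).compl).aemeasurable]
  refine tsum_congr fun t => ?_
  rw [lintegral_indicator_const (measurableSet_blue w X t univ).compl, one_mul,
    ← sum_measure_blue w hw, ← ofReal_measureReal]
  congr 1
  have e : {ω | blue w X ω t = univ}ᶜ
      = ⋃ B ∈ (univ : Finset (Finset V)).filter (· ≠ univ), {ω | blue w X ω t = B} := by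
    ext ω; simp
  rw [e, measureReal_biUnion_finset, sum_filter]
  · exact sum_congr rfl fun B _ => by by_cases h : B = univ <;> simp [h]
  · intro B _ C _ hBC
    exact Set.disjoint_left.2 fun ω h1 h2 => hBC (h1.symm.trans h2)
  · exact fun B _ => measurableSet_blue w X t B

end general

lemma sum_powerset_EE {α : Type} [DecidableEq α] (S U : Finset α) (p : ℝ) (h : ℕ → ℝ) :
    ∑ S' ∈ U.powerset, (∏ v ∈ U, if v ∈ S' then (if v ∈ S then 1 else p)
      else 1 - (if v ∈ S then 1 else p)) * h #S' = EE #(U \ S) p fun x => h (#(U ∩ S) + x) := by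
  induction U using Finset.induction_on generalizing h with
  | empty => simp
  | insert v U hv ih =>
    rw [sum_powerset_insert hv]
    have e1 : ∑ S' ∈ U.powerset, (∏ x ∈ insert v U, if x ∈ S' then (if x ∈ S then 1 else p)
        else 1 - (if x ∈ S then 1 else p)) * h #S'
        = (1 - (if v ∈ S then 1 else p)) * EE #(U \ S) p fun x => h (#(U ∩ S) + x) := by
      rw [← ih, mul_sum]
      refine sum_congr rfl fun S' hS' => ?_
      rw [prod_insert hv, if_neg fun h' => hv (mem_powerset.1 hS' h'), mul_assoc]
    have e2 : ∑ S' ∈ U.powerset, (∏ x ∈ insert v U, if x ∈ insert v S' then (if x ∈ S then 1 else p)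
        else 1 - (if x ∈ S then 1 else p)) * h #(insert v S')
        = (if v ∈ S then 1 else p) * EE #(U \ S) p fun x => h (#(U ∩ S) + x + 1) := by
      rw [← ih fun k => h (k + 1), mul_sum]
      refine sum_congr rfl fun S' hS' => ?_
      rw [prod_insert hv, if_pos (mem_insert_self v S'),
        card_insert_of_notMem fun h' => hv (mem_powerset.1 hS' h'), mul_assoc]
      congr 2
      refine prod_congr rfl fun x hx => ?_
      have : x ≠ v := fun e => hv (e ▸ hx)
      simp only [mem_insert, this, false_or]
    rw [e1, e2]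
    by_cases hS : v ∈ S
    · rw [if_pos hS, insert_sdiff_of_mem _ hS, insert_inter_of_mem hS,
        card_insert_of_notMem fun h' => hv (mem_inter.1 h').1]
      simp only [sub_self, zero_mul, one_mul, zero_add]
      exact EE_congr fun k _ => by congr 1; omega
    · rw [if_neg hS, insert_sdiff_of_notMem _ hS, insert_inter_of_notMem hS,
        card_insert_of_notMem fun h' => hv (mem_sdiff.1 h').1, EE_succ]
      rfl

lemma sum_finset_EE {n : ℕ} (S : Finset (Fin n)) (p : ℝ) (h : ℕ → ℝ) :
    ∑ S' : Finset (Fin n), (∏ v, if v ∈ S' then (if v ∈ S then 1 else p)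
      else 1 - (if v ∈ S then 1 else p)) * h #S' = EE (n - #S) p fun x => h (#S + x) := by
  have := sum_powerset_EE S univ p h
  rwa [powerset_univ, univ_inter, card_univ_sdiff, Fintype.card_fin] at this

section bip
variable {a b : ℕ} {c : ℝ}

lemma sum_sum_type (B : Finset (Fin a ⊕ Fin b)) (f : Fin a ⊕ Fin b → ℝ) :
    ∑ x ∈ B, f x = ∑ x ∈ B.toLeft, f (.inl x) + ∑ y ∈ B.toRight, f (.inr y) := by
  conv_lhs => rw [← toLeft_disjSum_toRight (u := B), sum_disjSum]

lemma prob_inl (hc : 0 < c) (B : Finset (Fin a ⊕ Fin b)) (x : Fin a) :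
    prob (bip a b c) B (.inl x) = pr b #B.toRight := by
  rw [pr_eq (by simpa using card_le_univ B.toRight), prob, sum_sum_type, Fintype.sum_sum_type]
  simp only [bip, sum_const, smul_zero, zero_add, nsmul_eq_mul, card_univ, Fintype.card_fin]
  exact mul_div_mul_right _ _ hc.ne'

lemma prob_inr (hc : 0 < c) (B : Finset (Fin a ⊕ Fin b)) (y : Fin b) :
    prob (bip a b c) B (.inr y) = pr a #B.toLeft := by
  rw [pr_eq (by simpa using card_le_univ B.toLeft), prob, sum_sum_type, Fintype.sum_sum_type]
  simp only [bip, sum_const, smul_zero, add_zero, nsmul_eq_mul, card_univ, Fintype.card_fin]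
  exact mul_div_mul_right _ _ hc.ne'

lemma KK_bip (hc : 0 < c) (g : ℕ → ℕ → ℝ) :
    KK (bip a b c) (fun B => g #B.toLeft #B.toRight) = fun B => TT a b g #B.toLeft #B.toRight := by
  funext B
  rw [KK, ← Finset.sumEquiv.toEquiv.symm.sum_comp, Fintype.sum_prod_type, TT,
    ← sum_finset_EE B.toLeft _ fun u => EE (b - #B.toRight) (pr a #B.toLeft) fun y =>
      g u (#B.toRight + y)]
  refine sum_congr rfl fun S1 _ => ?_
  rw [← sum_finset_EE B.toRight _ fun w => g #S1 w, mul_sum]
  refine sum_congr rfl fun S2 _ => ?_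
  change KW (bip a b c) B (S1.disjSum S2) * g #(S1.disjSum S2).toLeft #(S1.disjSum S2).toRight = _
  rw [KW, Fintype.prod_sum_type, toLeft_disjSum, toRight_disjSum, mul_assoc]
  simp only [inl_mem_disjSum, inr_mem_disjSum, prob_inl hc, prob_inr hc, mem_toLeft, mem_toRight]

theorem ept_bip (hc : 0 < c) (ha : 1 ≤ a) (hb : 1 ≤ b) (X : Finset (Fin a ⊕ Fin b))
    (hX : 1 ≤ #X.toLeft + #X.toRight) :
    ept (bip a b c) X = ENNReal.ofReal (VV a b #X.toLeft #X.toRight) := by
  rw [ept_eq_tsum, VV, ENNReal.ofReal_tsum_of_nonneg (fun t => vv_nonneg a b t _ _)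
    (summable_vv ha hb hX)]
  · refine tsum_congr fun t => ?_
    congr 1
    suffices h : (KK (bip a b c))^[t] (fun B => if B = univ then 0 else 1)
        = fun B => vv a b t #B.toLeft #B.toRight from congrFun h X
    induction t with
    | zero =>
      funext B
      simp only [Function.iterate_zero, id, vv]
      congr 1
      have h1 : #B.toLeft ≤ a := by simpa using card_le_univ B.toLeft
      have h2 : #B.toRight ≤ b := by simpa using card_le_univ B.toRight
      rw [← card_eq_iff_eq_univ, ← card_toLeft_add_card_toRight, Fintype.card_sum, Fintype.card_fin,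
        Fintype.card_fin]
      exact propext ⟨fun h => by omega, fun h => by omega⟩
    | succ t ih => rw [Function.iterate_succ_apply', ih, KK_bip hc]; rfl
  · rintro B (x | y)
    · rw [prob_inl hc]; exact ⟨pr_nonneg _ _, pr_le_one _ _⟩
    · rw [prob_inr hc]; exact ⟨pr_nonneg _ _, pr_le_one _ _⟩

end bip

end Pool.Agent.MP_79e3be_pr
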