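import Mathlib.Topology.Sheaves.Presheaf
import Mathlib.Analysis.Complex.ExponentialBounds
import Mathlib.Analysis.SpecialFunctions.Trigonometric.DerivHyp
import Mathlib.Analysis.Real.Pi.Bounds
import Mathlib.Analysis.SpecialFunctions.Stirling
import Pool.Agent.MP_79e3be_pr.Val

-- ======== part 0: formerly Pool.Agent.MP_79e3be_pr.Catch
section MrgPart0

/-! Catch-up bounds for one coordinate. -/

set_option autoImplicit false

open Finset

namespace Pool.Agent.MP_79e3be_pr

lemma catch_abs {N x0 x' : ℕ} {s : ℝ} (h0 : 0 < s) (h1 : s ≤ 1) {W h : ℕ → ℝ} (hx' : x' ≤ N)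
    (hW : ∀ x, x0 ≤ x → x < x' → W x ≤ 1 + EE (N - x) s (fun k => W (x + k)))
    (hanti : ∀ x, x' ≤ x → W x ≤ W x')
    (hh : ∀ x, x0 ≤ x → x < x' →
      1 + EE (N - x) s (fun k => if x + k < x' then h (x + k) else 0) ≤ h x) :
    ∀ x, x0 ≤ x → x < x' → W x ≤ W x' + h x := by
  set H : ℕ → ℝ := fun x => W x - W x' - (if x < x' then h x else 0) with hH
  have key : ∀ n x, x0 ≤ x → x' ≤ x + n → H x ≤ 0 := by
    intro n
    induction n with
    | zero =>
      intro x _ hx
      have := hanti x (by omega)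
      simp only [hH, if_neg (by omega : ¬ x < x')]; linarith
    | succ n ih =>
      intro x hx0 hx
      by_cases hlt : x < x'
      · have e : EE (N - x) s (fun k => H (x + k)) = EE (N - x) s (fun k => W (x + k)) - W x'
            - EE (N - x) s (fun k => if x + k < x' then h (x + k) else 0) := by
          simp only [hH, EE_sub, EE_const]
        have h2 : H x ≤ EE (N - x) s (fun k => H (x + k)) := by
          have a1 := hW x hx0 hlt
          have a2 := hh x hx0 hlt
          rw [e]; simp only [hH, if_pos hlt]; linarith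
        rw [EE_split] at h2
        have h3 : ∑ k ∈ range (N - x), bb (N - x) s (k + 1) * H (x + (k + 1)) ≤ 0 :=
          sum_nonpos fun k _ => mul_nonpos_of_nonneg_of_nonpos (bb_nonneg h0.le h1 _ _)
            (ih _ (by omega) (by omega))
        have h4 : (1 - s) ^ (N - x) < 1 := pow_lt_one₀ (by linarith) (by linarith) (by omega)
        simp only [add_zero] at h2
        by_contra hc
        push Not at hc
        nlinarith
      · have := hanti x (by omega)
        simp only [hH, if_neg hlt]; linarith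
  intro x hx0 hx
  have := key x' x hx0 (by omega)
  simp only [hH, if_pos hx] at this
  linarith

lemma catch_markov {N x0 x' : ℕ} {s : ℝ} (h0 : 0 < s) (h1 : s ≤ 1) {W : ℕ → ℝ} (hx' : x' ≤ N)
    (hW : ∀ x, x0 ≤ x → x < x' → W x ≤ 1 + EE (N - x) s (fun k => W (x + k)))
    (hanti : ∀ x, x' ≤ x → W x ≤ W x') {x : ℕ} (hx0 : x0 ≤ x) (hx : x < x') :
    W x ≤ W x' + (1 + (1 - s) / (((N : ℝ) - x' + 1) * s) * ((N : ℝ) - x)) := by
  have hN : (x' : ℝ) ≤ N := by exact_mod_cast hx'
  have hp : (0 : ℝ) < (N : ℝ) - x' + 1 := by linarith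
  set c := (1 - s) / (((N : ℝ) - x' + 1) * s) with hc
  have hc0 : 0 ≤ c := div_nonneg (by linarith) (mul_pos hp h0).le
  refine catch_abs h0 h1 hx' hW hanti (h := fun x => 1 + c * ((N : ℝ) - x)) (fun y _ hy => ?_) x hx0 hx
  have hyN : y ≤ N := by omega
  have h2 : EE (N - y) s (fun k => if y + k < x' then 1 + c * ((N : ℝ) - ((y + k : ℕ) : ℝ)) else 0)
      ≤ EE (N - y) s (fun k => (1 / ((N : ℝ) - x' + 1) + c) * ((N : ℝ) - y)
        + (-(1 / ((N : ℝ) - x' + 1) + c)) * (k : ℝ)) := by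
    refine EE_mono h0.le h1 fun k hk => ?_
    have hk' : (y : ℝ) + k ≤ N := by exact_mod_cast (by omega : y + k ≤ N)
    have e : (1 / ((N : ℝ) - x' + 1) + c) * ((N : ℝ) - y) + (-(1 / ((N : ℝ) - x' + 1) + c)) * (k : ℝ)
        = ((N : ℝ) - y - k) / ((N : ℝ) - x' + 1) + c * ((N : ℝ) - y - k) := by ring
    rw [e]
    split_ifs with hlt
    · have hlt' : (y : ℝ) + k + 1 ≤ x' := by exact_mod_cast hlt
      have : 1 ≤ ((N : ℝ) - y - k) / ((N : ℝ) - x' + 1) := by
        rw [le_div_iff₀ hp]; linarith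
      push_cast; linarith
    · have : 0 ≤ (N : ℝ) - y - k := by linarith
      positivity
  rw [EE_affine, Nat.cast_sub hyN] at h2
  have e2 : (1 / ((N : ℝ) - x' + 1) + c) * ((N : ℝ) - y)
      + (-(1 / ((N : ℝ) - x' + 1) + c)) * (((N : ℝ) - y) * s) = c * ((N : ℝ) - y) := by
    rw [hc]; field_simp; ring
  linarith

/-- the condition on the additive constant -/
def PhiOK (α L : ℝ) : Prop := 0 ≤ α ∧ ∀ l, 0 < l → l ≤ L → l ≤ (1 + α * l) * (1 - Real.exp (-l))

lemma mean_excess {s α L : ℝ} (h0 : 0 < s) (h1 : s ≤ 1) (hα : PhiOK α L) (m : ℕ)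
    (hm : m * s ≤ L) (r : ℕ) (hr : 1 ≤ r) :
    EE m s (fun k => if r ≤ k then (k : ℝ) - r - α * (m * s) else 0) ≤ 0 := by
  induction m generalizing r with
  | zero => simp only [EE_zero]; rw [if_neg (by omega)]
  | succ m ih =>
    have hm' : (m : ℝ) * s ≤ L := by push_cast at hm; nlinarith
    rcases hr.eq_or_lt with rfl | hr2
    · set c := α * (((m + 1 : ℕ) : ℝ) * s) with hc
      have e : EE (m + 1) s (fun k => if 1 ≤ k then (k : ℝ) - (1 : ℕ) - c else 0)
          = EE (m + 1) s (fun k => (-1 - c) + 1 * (k : ℝ)) + (1 - s) ^ (m + 1) * (1 + c) := by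
        rw [EE_split, EE_split]
        simp only [Nat.le_add_left, if_true]
        rw [if_neg (by omega)]
        have : ∑ k ∈ range (m + 1), bb (m + 1) s (k + 1) * ((((k + 1 : ℕ) : ℝ)) - ((1 : ℕ) : ℝ) - c)
            = ∑ k ∈ range (m + 1), bb (m + 1) s (k + 1) * (-1 - c + 1 * ((k + 1 : ℕ) : ℝ)) :=
          sum_congr rfl fun k _ => by push_cast; ring
        rw [this]; push_cast; ring
      rw [e, EE_affine]
      have hl : (0 : ℝ) < ((m + 1 : ℕ) : ℝ) * s := by positivity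
      have h2 := hα.2 _ hl hm
      have h3 : (1 - s) ^ (m + 1) ≤ Real.exp (-(((m + 1 : ℕ) : ℝ) * s)) := by
        rw [← mul_neg, Real.exp_nat_mul]
        exact pow_le_pow_left₀ (by linarith) (by linarith [Real.add_one_le_exp (-s)]) _
      have h4 : 0 ≤ 1 + c := by have := mul_nonneg hα.1 hl.le; linarith
      nlinarith
    · obtain ⟨r', rfl⟩ : ∃ r', r = r' + 1 := ⟨r - 1, by omega⟩
      have h2 : EE (m + 1) s (fun k => if r' + 1 ≤ k then (k : ℝ) - (r' + 1 : ℕ) - α * (((m + 1 : ℕ) : ℝ) * s) else 0)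
          ≤ EE (m + 1) s (fun k => if r' + 1 ≤ k then (k : ℝ) - (r' + 1 : ℕ) - α * ((m : ℝ) * s) else 0) := by
        refine EE_mono h0.le h1 fun k _ => ?_
        split_ifs
        · have := mul_nonneg hα.1 h0.le
          push_cast; nlinarith
        · exact le_rfl
      refine h2.trans ?_
      rw [EE_succ]
      have a1 := ih hm' (r' + 1) (by omega)
      have a2 := ih hm' r' (by omega)
      have e : EE m s (fun k => if r' + 1 ≤ k + 1 then ((k + 1 : ℕ) : ℝ) - (r' + 1 : ℕ) - α * ((m : ℝ) * s) else 0)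
          = EE m s (fun k => if r' ≤ k then (k : ℝ) - r' - α * ((m : ℝ) * s) else 0) := by
        refine EE_congr fun k _ => ?_
        simp only [Nat.add_le_add_iff_right]
        split_ifs
        · push_cast; ring
        · rfl
      rw [e]
      nlinarith [mul_nonneg (sub_nonneg.2 h1) (neg_nonneg.2 a1), mul_nonneg h0.le (neg_nonneg.2 a2)]

lemma catch_phi {N x0 x' : ℕ} {s α L : ℝ} (h0 : 0 < s) (h1 : s ≤ 1) {W : ℕ → ℝ} (hx' : x' ≤ N)
    (hW : ∀ x, x0 ≤ x → x < x' → W x ≤ 1 + EE (N - x) s (fun k => W (x + k)))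
    (hanti : ∀ x, x' ≤ x → W x ≤ W x') (hα : PhiOK α L) (hL : ((N : ℝ) - x0) * s ≤ L)
    {x : ℕ} (hx0 : x0 ≤ x) (hx : x ≤ x') :
    W x ≤ W x' + (α + ∑ z ∈ Ico x x', 1 / (((N : ℝ) - z) * s)) := by
  rcases hx.eq_or_lt with rfl | hx
  · simpa using hα.1
  refine catch_abs h0 h1 hx' hW hanti (h := fun x => α + ∑ z ∈ Ico x x', 1 / (((N : ℝ) - z) * s))
    (fun y hy0 hy => ?_) x hx0 hx
  have hyN : y < N := by omega
  set S := ∑ z ∈ Ico y x', 1 / (((N : ℝ) - z) * s) with hS
  set m := N - y with hm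
  have hm' : (m : ℝ) = (N : ℝ) - y := by rw [hm, Nat.cast_sub hyN.le]
  have hm0 : (0 : ℝ) < m := by exact_mod_cast (by omega : 0 < m)
  have hms : 0 < (m : ℝ) * s := mul_pos hm0 h0
  have hy0' : (x0 : ℝ) ≤ y := by exact_mod_cast hy0
  have h2 := mean_excess h0 h1 hα m (by rw [hm']; nlinarith) (x' - y) (by omega)
  have hpart : ∀ k, y + k ≤ x' → (k : ℝ) / (m * s) ≤ ∑ z ∈ Ico y (y + k), 1 / (((N : ℝ) - z) * s) := by
    intro k hk
    have : ∑ _z ∈ Ico y (y + k), 1 / ((m : ℝ) * s) ≤ ∑ z ∈ Ico y (y + k), 1 / (((N : ℝ) - z) * s) := by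
      refine sum_le_sum fun z hz => ?_
      rw [mem_Ico] at hz
      have b1 : (y : ℝ) ≤ z := by exact_mod_cast hz.1
      have b2 : (z : ℝ) + 1 ≤ N := by exact_mod_cast (by omega : z + 1 ≤ N)
      exact one_div_le_one_div_of_le (mul_pos (by linarith) h0) (by rw [hm']; nlinarith)
    simpa [div_eq_mul_inv] using this
  have h3 : EE m s (fun k => if y + k < x' then α + ∑ z ∈ Ico (y + k) x', 1 / (((N : ℝ) - z) * s) else 0)
      ≤ EE m s (fun k => ((α + S) + (-(1 / (m * s))) * (k : ℝ))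
        + (1 / (m * s)) * (if x' - y ≤ k then (k : ℝ) - (x' - y : ℕ) - α * (m * s) else 0)) := by
    refine EE_mono h0.le h1 fun k _ => ?_
    by_cases hlt : y + k < x'
    · rw [if_pos hlt, if_neg (by omega)]
      have b1 := hpart k hlt.le
      have b2 := sum_Ico_consecutive (fun z : ℕ => 1 / (((N : ℝ) - z) * s)) (Nat.le_add_right y k) hlt.le
      have e : (k : ℝ) / (m * s) = 1 / (m * s) * k := by ring
      linarith
    · rw [if_neg hlt, if_pos (by omega)]
      have b1 := hpart (x' - y) (by omega)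
      rw [(by omega : y + (x' - y) = x')] at b1
      have e : α + S + -(1 / ((m : ℝ) * s)) * k + 1 / (m * s) * ((k : ℝ) - (x' - y : ℕ) - α * (m * s))
          = S - ((x' - y : ℕ) : ℝ) / (m * s) := by field_simp; ring
      rw [e]; linarith
  rw [EE_add, EE_affine, EE_mul] at h3
  have e2 : -(1 / ((m : ℝ) * s)) * (m * s) = -1 := by field_simp
  have h4 := mul_nonpos_of_nonneg_of_nonpos (one_div_pos.2 hms).le h2
  linarith

/-- explicit upper bound for the additive constant -/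
noncomputable def phiU (l : ℝ) : ℝ :=
  1 - 1 / l + 1 / (l + l ^ 2 / 2 + l ^ 3 / 6 + l ^ 4 / 24 + l ^ 5 / 120)

lemma phiU_le_one {l : ℝ} (h : 0 < l) : phiU l ≤ 1 := by
  unfold phiU
  have : 1 / (l + l ^ 2 / 2 + l ^ 3 / 6 + l ^ 4 / 24 + l ^ 5 / 120) ≤ 1 / l :=
    one_div_le_one_div_of_le h (by have : 0 ≤ l ^ 2 / 2 + l ^ 3 / 6 + l ^ 4 / 24 + l ^ 5 / 120 := by positivity
                                   linarith)
  linarith

lemma phi_mono {l L : ℝ} (h0 : 0 < l) (h : l ≤ L) :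
    1 / (1 - Real.exp (-l)) - 1 / l ≤ 1 / (1 - Real.exp (-L)) - 1 / L := by
  have key := incr_le (f := fun _ => (0 : ℝ)) (f' := fun _ => (0 : ℝ))
    (g := fun t => (1 - Real.exp (-t))⁻¹ - t⁻¹)
    (g' := fun t => -(Real.exp (-t)) / (1 - Real.exp (-t)) ^ 2 - (-(t ^ 2)⁻¹)) h
    (fun t _ => hasDerivAt_const t 0) (fun t ht => ?_) (fun t ht => ?_)
  · simp only [one_div]; linarith
  · have ht0 : 0 < t := lt_of_lt_of_le h0 ht.1
    have h1 : Real.exp (-t) < 1 := Real.exp_lt_one_iff.2 (by linarith)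
    have d1 : HasDerivAt (fun t => 1 - Real.exp (-t)) (Real.exp (-t)) t := by
      have := ((hasDerivAt_neg t).exp).const_sub 1
      simpa using this
    exact (d1.inv (by linarith)).sub (hasDerivAt_inv ht0.ne')
  · have ht0 : 0 < t := lt_of_lt_of_le h0 ht.1
    have h1 : Real.exp (-t) < 1 := Real.exp_lt_one_iff.2 (by linarith)
    have h2 : t / 2 ≤ Real.sinh (t / 2) := Real.self_le_sinh_iff.2 (by linarith)
    rw [Real.sinh_eq] at h2
    set q := Real.exp (-(t / 2)) with hq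
    have hq0 : 0 < q := Real.exp_pos _
    have e1 : Real.exp (-t) = q ^ 2 := by rw [hq, ← Real.exp_nat_mul]; congr 1; push_cast; ring
    have e2 : Real.exp (t / 2) * q = 1 := by rw [hq, ← Real.exp_add]; simp
    have h3 : t * q ≤ 1 - q ^ 2 := by nlinarith
    have h4 : (t * q) ^ 2 ≤ (1 - q ^ 2) ^ 2 := pow_le_pow_left₀ (by positivity) h3 2
    rw [e1] at h1 ⊢
    have h5 : q ^ 2 / (1 - q ^ 2) ^ 2 ≤ (t ^ 2)⁻¹ := by
      rw [div_le_iff₀ (by have : 0 < 1 - q ^ 2 := by linarith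
                          positivity), inv_mul_eq_div, le_div_iff₀ (by positivity)]
      nlinarith
    simp only [neg_div]; linarith

lemma phi_le_phiU {L : ℝ} (h0 : 0 < L) : 1 / (1 - Real.exp (-L)) - 1 / L ≤ phiU L := by
  unfold phiU
  have h1 := Real.sum_le_exp_of_nonneg h0.le 6
  simp only [sum_range_succ, range_zero, sum_empty, Nat.factorial] at h1
  norm_num at h1
  have hT : 0 < L + L ^ 2 / 2 + L ^ 3 / 6 + L ^ 4 / 24 + L ^ 5 / 120 := by positivity
  have h2 : 1 / (Real.exp L - 1) ≤ 1 / (L + L ^ 2 / 2 + L ^ 3 / 6 + L ^ 4 / 24 + L ^ 5 / 120) :=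
    one_div_le_one_div_of_le hT (by linarith)
  have h3 : 1 / (1 - Real.exp (-L)) = 1 + 1 / (Real.exp L - 1) := by
    have : 1 < Real.exp L := by linarith
    have h4 : Real.exp L - 1 ≠ 0 := by linarith
    rw [Real.exp_neg]; field_simp; ring
  linarith

lemma phiOK_of_le {α L : ℝ} (h0 : 0 < L) (h : phiU L ≤ α) : PhiOK α L := by
  have key : ∀ l, 0 < l → l ≤ L → 1 / (1 - Real.exp (-l)) - 1 / l ≤ α := fun l hl hlL =>
    (phi_mono hl hlL).trans ((phi_le_phiU h0).trans h)
  constructor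
  · refine le_trans ?_ (key L h0 le_rfl)
    have h1 : Real.exp (-L) < 1 := Real.exp_lt_one_iff.2 (by linarith)
    have : 1 / L ≤ 1 / (1 - Real.exp (-L)) :=
      one_div_le_one_div_of_le (by linarith) (by linarith [Real.add_one_le_exp (-L)])
    linarith
  · intro l hl hlL
    have h1 : Real.exp (-l) < 1 := Real.exp_lt_one_iff.2 (by linarith)
    have h2 := key l hl hlL
    have h3 : 0 < 1 - Real.exp (-l) := by linarith
    have h4 : 1 / (1 - Real.exp (-l)) ≤ (1 + α * l) / l := by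
      have : (1 + α * l) / l = 1 / l + α := by field_simp
      linarith
    rw [div_le_div_iff₀ h3 hl] at h4
    linarith

section VV
variable {a b : ℕ} (ha : 1 ≤ a) (hb : 1 ≤ b)
include ha hb

lemma VV_le_B {u y : ℕ} (hu : 1 ≤ u) (hua : u ≤ a) (hy : y < b) :
    VV a b u y ≤ 1 + EE (b - y) ((u : ℝ) / a) (fun k => VV a b u (y + k)) := by
  rw [VV_eq ha hb (by omega) (by omega), TT, ← pr_eq hua]
  have : EE (a - u) (pr b y) (fun x => EE (b - y) (pr a u) fun k => VV a b (u + x) (y + k))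
      ≤ EE (b - y) (pr a u) (fun k => VV a b u (y + k)) :=
    EE_le_const (pr_nonneg _ _) (pr_le_one _ _) fun x _ =>
      EE_mono (pr_nonneg _ _) (pr_le_one _ _) fun k _ => VV_anti ha hb (by omega) (by omega) le_rfl
  linarith

lemma VV_le_A {u x : ℕ} (hu : 1 ≤ u) (hub : u ≤ b) (hx : x < a) :
    VV a b x u ≤ 1 + EE (a - x) ((u : ℝ) / b) (fun k => VV a b (x + k) u) := by
  rw [VV_eq ha hb (by omega) (by omega), TT, ← pr_eq hub]
  have : EE (a - x) (pr b u) (fun k => EE (b - u) (pr a x) fun y => VV a b (x + k) (u + y))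
      ≤ EE (a - x) (pr b u) (fun k => VV a b (x + k) u) :=
    EE_mono (pr_nonneg _ _) (pr_le_one _ _) fun k _ =>
      EE_le_const (pr_nonneg _ _) (pr_le_one _ _) fun y _ => VV_anti ha hb (by omega) le_rfl (by omega)
  linarith

lemma catch_B {u y0 y y' : ℕ} {α : ℝ} (hu : 1 ≤ u) (hua : u ≤ a) (hba : b ≤ a) (hα : phiU u ≤ α)
    (hy0 : y0 ≤ y) (hy : y ≤ y') (hy' : y' ≤ b) :
    VV a b u y ≤ VV a b u y' + (α + ∑ z ∈ Ico y y', 1 / (((b : ℝ) - z) * ((u : ℝ) / a))) := by
  have ha' : (0 : ℝ) < a := by exact_mod_cast ha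
  have hu' : (0 : ℝ) < u := by exact_mod_cast hu
  have hua' : (u : ℝ) ≤ a := by exact_mod_cast hua
  have hba' : (b : ℝ) ≤ a := by exact_mod_cast hba
  refine catch_phi (W := fun y => VV a b u y) (x0 := y0) (L := u) (by positivity)
    ((div_le_one ha').2 hua') hy' (fun x _ hx => VV_le_B ha hb hu hua (by omega))
    (fun x hx => VV_anti ha hb (by omega) le_rfl hx) (phiOK_of_le hu' hα) ?_ hy0 hy
  rw [← mul_div_assoc, div_le_iff₀ ha']
  have : (0 : ℝ) ≤ y0 := by positivity
  nlinarith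

lemma catch_A {u x x' : ℕ} {α : ℝ} (hu : 1 ≤ u) (hub : u ≤ b) (hab : 2 * a ≤ 3 * b)
    (hα : phiU (3 / 2 * u) ≤ α) (hx : x ≤ x') (hx' : x' ≤ a) :
    VV a b x u ≤ VV a b x' u + (α + ∑ z ∈ Ico x x', 1 / (((a : ℝ) - z) * ((u : ℝ) / b))) := by
  have hb' : (0 : ℝ) < b := by exact_mod_cast hb
  have hu' : (0 : ℝ) < u := by exact_mod_cast hu
  have hub' : (u : ℝ) ≤ b := by exact_mod_cast hub
  have hab' : 2 * (a : ℝ) ≤ 3 * b := by exact_mod_cast hab
  refine catch_phi (W := fun x => VV a b x u) (x0 := 0) (L := 3 / 2 * u) (by positivity)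
    ((div_le_one hb').2 hub') hx' (fun x _ hx => VV_le_A ha hb hu hub (by omega))
    (fun x hx => VV_anti ha hb (by omega) hx le_rfl) (phiOK_of_le (by positivity) hα) ?_
    (Nat.zero_le _) hx
  rw [← mul_div_assoc, div_le_iff₀ hb']
  push_cast
  nlinarith

/-- the crude bound -/
lemma M_crude (hba : b < a) {i j : ℕ} (hi : 1 ≤ i) (hj : 1 ≤ j) (hib : i ≤ b) (hjb : j ≤ b) :
    (VV a b i j - VV a b j i) * (max i j : ℕ)
      ≤ ((a : ℝ) - b) * (b + |(i : ℝ) - j|) := by
  have ha' : (0 : ℝ) < a := by exact_mod_cast ha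
  have hb' : (0 : ℝ) < b := by exact_mod_cast hb
  have hi' : (1 : ℝ) ≤ i := by exact_mod_cast hi
  have hj' : (1 : ℝ) ≤ j := by exact_mod_cast hj
  have hib' : (i : ℝ) ≤ b := by exact_mod_cast hib
  have hjb' : (j : ℝ) ≤ b := by exact_mod_cast hjb
  have hba' : (b : ℝ) + 1 ≤ a := by exact_mod_cast hba
  rcases lt_trichotomy i j with h | h | h
  · have h' : (i : ℝ) + 1 ≤ j := by exact_mod_cast h
    rw [max_eq_right h.le, abs_of_nonpos (by linarith)]
    have h1 := catch_markov (W := fun x => VV a b x j) (N := a) (x0 := 0) (x' := j) (s := (j : ℝ) / b)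
      (by positivity) ((div_le_one hb').2 hjb') (by omega)
      (fun x _ hx => VV_le_A ha hb hj hjb (by omega))
      (fun x hx => VV_anti ha hb (by omega) hx le_rfl) (Nat.zero_le i) h
    have h2 : VV a b j j ≤ VV a b j i := VV_anti ha hb (by omega) le_rfl h.le
    have hp : (0 : ℝ) < (a : ℝ) - j + 1 := by linarith
    have e : (1 + (1 - (j : ℝ) / b) / (((a : ℝ) - j + 1) * ((j : ℝ) / b)) * ((a : ℝ) - i)) * j
        = j + ((b : ℝ) - j) * ((a : ℝ) - i) / ((a : ℝ) - j + 1) := by field_simp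
    have h3 : ((b : ℝ) - j) * ((a : ℝ) - i) / ((a : ℝ) - j + 1) ≤ (b : ℝ) - i := by
      rw [div_le_iff₀ hp]; nlinarith
    have h4 := mul_le_mul_of_nonneg_right (sub_le_iff_le_add'.2 h1) (by linarith : (0 : ℝ) ≤ j)
    rw [e] at h4
    nlinarith
  · subst h; simp; exact mul_nonneg (by linarith) hb'.le
  · have h' : (j : ℝ) + 1 ≤ i := by exact_mod_cast h
    rw [max_eq_left h.le, abs_of_nonneg (by linarith)]
    have h1 := catch_markov (W := fun y => VV a b i y) (N := b) (x0 := 0) (x' := i) (s := (i : ℝ) / a)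
      (by positivity) ((div_le_one ha').2 (by linarith)) hib
      (fun x _ hx => VV_le_B ha hb hi (by omega) (by omega))
      (fun x hx => VV_anti ha hb (by omega) le_rfl hx) (Nat.zero_le j) h
    have h2 : VV a b i i ≤ VV a b j i := VV_anti ha hb (by omega) h.le le_rfl
    have hp : (0 : ℝ) < (b : ℝ) - i + 1 := by linarith
    have e : (1 + (1 - (i : ℝ) / a) / (((b : ℝ) - i + 1) * ((i : ℝ) / a)) * ((b : ℝ) - j)) * i
        = i + ((a : ℝ) - i) * ((b : ℝ) - j) / ((b : ℝ) - i + 1) := by field_simp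
    have h3 : ((a : ℝ) - i) * ((b : ℝ) - j) / ((b : ℝ) - i + 1) ≤ ((a : ℝ) - b) * ((b : ℝ) - j) := by
      rw [div_le_iff₀ hp]
      have : (a : ℝ) - i ≤ ((a : ℝ) - b) * ((b : ℝ) - i + 1) := by nlinarith
      nlinarith
    have h4 := mul_le_mul_of_nonneg_right (sub_le_iff_le_add'.2 h1) (by linarith : (0 : ℝ) ≤ i)
    rw [e] at h4
    nlinarith

end VV

end Pool.Agent.MP_79e3be_pr

end MrgPart0

-- ======== part 1: formerly Pool.Agent.MP_79e3be_pr.Pmf
section MrgPart1

/-! A uniform bound for binomial weights. -/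

set_option autoImplicit false

open Finset Real Nat

namespace Pool.Agent.MP_79e3be_pr

noncomputable def St (m : ℕ) : ℝ := (m ! : ℝ) ^ 2 * exp 1 ^ (2 * m) / (m : ℝ) ^ (2 * m + 1)

noncomputable def Gk (k : ℕ) : ℝ := ((k : ℝ) + 1 / 2) ^ (2 * k + 1) / (exp 1 ^ (2 * k + 1) * (k ! : ℝ) ^ 2)

lemma St_eq {m : ℕ} (hm : 1 ≤ m) : St m = 2 * Stirling.stirlingSeq m ^ 2 := by
  have hm' : (0 : ℝ) < m := by exact_mod_cast hm
  unfold St Stirling.stirlingSeq
  rw [div_pow, mul_pow, Real.sq_sqrt (by positivity), ← pow_mul, div_pow, mul_comm m 2]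
  field_simp
  ring

lemma St_anti {m n : ℕ} (hm : 1 ≤ m) (h : m ≤ n) : St n ≤ St m := by
  rw [St_eq hm, St_eq (hm.trans h)]
  obtain ⟨m, rfl⟩ : ∃ k, m = k + 1 := ⟨m - 1, by omega⟩
  obtain ⟨n, rfl⟩ : ∃ k, n = k + 1 := ⟨n - 1, by omega⟩
  have h1 : Stirling.stirlingSeq (n + 1) ≤ Stirling.stirlingSeq (m + 1) :=
    Stirling.stirlingSeq'_antitone (by omega : m ≤ n)
  have := pow_le_pow_left₀ (Stirling.stirlingSeq'_pos n).le h1 2
  linarith

lemma St_ge {m : ℕ} (hm : 1 ≤ m) : 2 * π ≤ St m := by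
  rw [St_eq hm]
  have h := Stirling.sqrt_pi_le_stirlingSeq (n := m) (by omega)
  have := pow_le_pow_left₀ (Real.sqrt_nonneg π) h 2
  rw [Real.sq_sqrt pi_pos.le] at this
  linarith

lemma Gk_nonneg (k : ℕ) : 0 ≤ Gk k := by unfold Gk; positivity

lemma Gk_St {m : ℕ} (hm : 1 ≤ m) : Gk m * St m ≤ exp (1 / (4 * m)) := by
  have hm' : (0 : ℝ) < m := by exact_mod_cast hm
  set y : ℝ := 1 + 1 / (2 * m) with hy
  have hy1 : 1 ≤ y := by have : (0 : ℝ) ≤ 1 / (2 * m) := by positivity
                         linarith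
  have e : Gk m * St m = y ^ (2 * m + 1) / exp 1 := by
    unfold Gk St
    have : y = ((m : ℝ) + 1 / 2) / m := by rw [hy]; field_simp
    rw [this, div_pow, pow_succ (exp 1)]
    field_simp
  have h1 : log y ≤ (y - y⁻¹) / 2 := by
    rw [← Real.sinh_log (by linarith)]
    exact Real.self_le_sinh_iff.2 (log_nonneg hy1)
  have h2 : ((2 * m + 1 : ℕ) : ℝ) * ((y - y⁻¹) / 2) = 1 + 1 / (4 * m) := by
    rw [hy]; push_cast; field_simp; ring
  have h3 : y ^ (2 * m + 1) ≤ exp (1 + 1 / (4 * m)) := by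
    rw [← Real.exp_log (by linarith : 0 < y), ← Real.exp_nat_mul, ← h2]
    exact exp_le_exp.2 (mul_le_mul_of_nonneg_left h1 (by positivity))
  rw [e, div_le_iff₀ (exp_pos 1), ← Real.exp_add, add_comm (1 / (4 * (m : ℝ)))]
  exact h3

lemma Gk_le (k : ℕ) : Gk k ≤ 0.18394 := by
  have he := Real.exp_one_gt_d9
  rcases (by omega : k = 0 ∨ k = 1 ∨ 2 ≤ k) with rfl | rfl | hk
  · unfold Gk
    rw [div_le_iff₀ (by positivity)]
    norm_num; linarith
  · unfold Gk
    rw [div_le_iff₀ (by positivity)]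
    have : (2.7 : ℝ) ^ 3 ≤ exp 1 ^ 3 := pow_le_pow_left₀ (by norm_num) (by linarith) 3
    norm_num at this ⊢; linarith
  · have hk' : (2 : ℝ) ≤ k := by exact_mod_cast hk
    have h1 := Gk_St (m := k) (by omega)
    have h2 := St_ge (m := k) (by omega)
    have h3 : exp (1 / (4 * (k : ℝ))) ≤ exp (1 / 8) :=
      exp_le_exp.2 (one_div_le_one_div_of_le (by norm_num) (by linarith))
    have h4 := Real.exp_bound_div_one_sub_of_interval (x := 1 / 8) (by norm_num) (by norm_num)
    have h5 := Real.pi_gt_d2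
    have h6 := mul_le_mul_of_nonneg_left h2 (Gk_nonneg k)
    norm_num at h4
    nlinarith [Gk_nonneg k]

lemma pow_le_exp {x : ℝ} (hx : 0 ≤ x) (p : ℕ) : x ^ p ≤ exp (p * (x - 1)) := by
  rw [Real.exp_nat_mul]
  exact pow_le_pow_left₀ hx (by linarith [Real.add_one_le_exp (x - 1)]) p

lemma bb_sq_le_G {s : ℝ} (h0 : 0 ≤ s) (h1 : s ≤ 1) (k l : ℕ) :
    bb (k + l) s k ^ 2 * ((((k + l : ℕ) : ℝ) + 1) * s * (1 - s)) ≤ Gk k * Gk l * St (k + l + 1) := by
  set N : ℝ := (k : ℝ) + l + 1 with hN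
  have hN0 : 0 < N := by positivity
  set α : ℝ := (k : ℝ) + 1 / 2 with hα
  set β : ℝ := (l : ℝ) + 1 / 2 with hβ
  have hα0 : 0 < α := by positivity
  have hβ0 : 0 < β := by positivity
  have a1 := pow_le_exp (x := s * N / α) (by positivity) (2 * k + 1)
  have a2 := pow_le_exp (x := (1 - s) * N / β) (by have := sub_nonneg.2 h1; positivity) (2 * l + 1)
  have a3 : (s * N / α) ^ (2 * k + 1) * ((1 - s) * N / β) ^ (2 * l + 1) ≤ 1 := by
    refine (mul_le_mul a1 a2 (by have := sub_nonneg.2 h1; positivity) (exp_pos _).le).trans ?_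
    rw [← Real.exp_add]
    have e1 : ((2 * k + 1 : ℕ) : ℝ) = 2 * α := by rw [hα]; push_cast; ring
    have e2 : ((2 * l + 1 : ℕ) : ℝ) = 2 * β := by rw [hβ]; push_cast; ring
    have : ((2 * k + 1 : ℕ) : ℝ) * (s * N / α - 1) + ((2 * l + 1 : ℕ) : ℝ) * ((1 - s) * N / β - 1) = 0 := by
      rw [e1, e2]; field_simp; rw [hN, hα, hβ]; ring
    rw [this, Real.exp_zero]
  have hc : (((k + l).choose k : ℕ) : ℝ) = ((k + l)! : ℝ) / (k ! * l !) := by
    rw [Nat.cast_add_choose]
  have eL : bb (k + l) s k ^ 2 * ((((k + l : ℕ) : ℝ) + 1) * s * (1 - s))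
      = (Gk k * Gk l * St (k + l + 1))
        * ((s * N / α) ^ (2 * k + 1) * ((1 - s) * N / β) ^ (2 * l + 1)) := by
    unfold bb Gk St
    rw [hc, Nat.add_sub_cancel_left, Nat.factorial_succ]
    push_cast
    rw [← hN, ← hα, ← hβ]
    have e3 : exp 1 ^ (2 * (k + l + 1)) = exp 1 ^ (2 * k + 1) * exp 1 ^ (2 * l + 1) := by
      rw [← pow_add]; congr 1; ring
    have e4 : N ^ (2 * (k + l + 1) + 1) = N ^ (2 * k + 1) * N ^ (2 * l + 1) * N := by
      rw [← pow_add, ← pow_succ]; congr 1; ring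
    rw [e3, e4, div_pow (s * N), div_pow ((1 - s) * N), mul_pow s, mul_pow (1 - s)]
    field_simp
    ring
  rw [eL]
  have : 0 ≤ Gk k * Gk l * St (k + l + 1) :=
    mul_nonneg (mul_nonneg (Gk_nonneg _) (Gk_nonneg _)) (by unfold St; positivity)
  nlinarith

/-- the constant in the bound for binomial weights -/
noncomputable def c2 (n : ℕ) : ℝ := 0.18394 * (2 * n / (2 * n - 1))

lemma c2_anti {m n : ℕ} (hm : 1 ≤ m) (h : m ≤ n) : c2 n ≤ c2 m := by
  have h1 : (1 : ℝ) ≤ m := by exact_mod_cast hm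
  have h2 : (m : ℝ) ≤ n := by exact_mod_cast h
  unfold c2
  refine mul_le_mul_of_nonneg_left ?_ (by norm_num)
  rw [div_le_div_iff₀ (by linarith) (by linarith)]
  nlinarith

lemma bb_sq_le {s : ℝ} (h0 : 0 ≤ s) (h1 : s ≤ 1) {n : ℕ} (hn : 1 ≤ n) (k : ℕ) :
    bb n s k ^ 2 * (((n : ℝ) + 1) * s * (1 - s)) ≤ c2 n := by
  have hn' : (1 : ℝ) ≤ n := by exact_mod_cast hn
  have hexp : exp (1 / (2 * (n : ℝ))) ≤ 2 * n / (2 * n - 1) := by
    refine (Real.exp_bound_div_one_sub_of_interval (by positivity) ?_).trans (le_of_eq ?_)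
    · rw [div_lt_one (by positivity)]; linarith
    · have : 2 * (n : ℝ) - 1 ≠ 0 := by linarith
      field_simp
  have key : ∀ m, n ≤ 2 * m → m ≤ n → Gk m * St (n + 1) ≤ 2 * n / (2 * n - 1) := by
    intro m hm hmn
    have hm' : (n : ℝ) ≤ 2 * m := by exact_mod_cast hm
    refine le_trans (mul_le_mul_of_nonneg_left (St_anti (by omega : 1 ≤ m) (by omega)) (Gk_nonneg m))
      ((Gk_St (by omega)).trans (le_trans (exp_le_exp.2 ?_) hexp))
    exact one_div_le_one_div_of_le (by positivity) (by linarith)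
  rcases lt_or_ge n k with h | h
  · rw [bb_eq_zero h]
    unfold c2
    have : 0 < 2 * (n : ℝ) - 1 := by linarith
    simp only [ne_eq, OfNat.ofNat_ne_zero, not_false_eq_true, zero_pow, zero_mul]
    positivity
  · obtain ⟨l, rfl⟩ := Nat.exists_eq_add_of_le h
    refine (bb_sq_le_G h0 h1 k l).trans ?_
    unfold c2
    have hS : 0 ≤ St (k + l + 1) := by unfold St; positivity
    rcases le_total k l with h' | h'
    · rw [mul_assoc]
      exact mul_le_mul (Gk_le k) (key l (by omega) (by omega))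
        (mul_nonneg (Gk_nonneg _) hS) (by norm_num)
    · rw [mul_comm (Gk k), mul_assoc]
      exact mul_le_mul (Gk_le l) (key k (by omega) (by omega))
        (mul_nonneg (Gk_nonneg _) hS) (by norm_num)

/-- differences of a function of bounded downward oscillation -/
lemma EE_osc {n : ℕ} {s α : ℝ} (h0 : 0 < s) (h1 : s < 1) {g : ℕ → ℝ}
    (hg : ∀ k k', k ≤ k' → k' ≤ n + 1 → g k - g k' ≤ α) :
    ∃ k0, EE n s (fun k => g k - g (k + 1)) ≤ α * bb n s k0 := by
  set lam := ((n : ℝ) + 1) * s with hlam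
  have hlam0 : 0 < lam := by positivity
  set k0 := ⌊lam⌋₊ with hk0
  have hk0n : k0 ≤ n := by
    have : lam < (n : ℝ) + 1 := by rw [hlam]; nlinarith
    have := (Nat.floor_lt hlam0.le).2 (show lam < ((n + 1 : ℕ) : ℝ) by push_cast; exact this)
    omega
  obtain ⟨k1, hk1, hmax⟩ := exists_max_image (range (k0 + 1)) g ⟨0, by simp⟩
  rw [mem_range] at hk1
  refine ⟨k0, ?_⟩
  set h : ℕ → ℝ := fun k => if k ≤ k0 then g k1 else g k1 - α with hh
  have hp : 0 < ((n : ℝ) + 1) * s * (1 - s) := mul_pos hlam0 (by linarith)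
  have a1 := EE_K1 n s g
  have a2 := EE_K1 n s h
  have a3 : EE (n + 1) s (fun k => ((k : ℝ) - ((n : ℝ) + 1) * s) * h k)
      ≤ EE (n + 1) s (fun k => ((k : ℝ) - ((n : ℝ) + 1) * s) * g k) := by
    refine EE_mono h0.le h1.le fun k hk => ?_
    by_cases hk' : k ≤ k0
    · have b1 : (k : ℝ) ≤ lam := (Nat.le_floor_iff hlam0.le).1 hk'
      have b2 := hmax k (mem_range.2 (by omega))
      simp only [hh, if_pos hk']
      nlinarith
    · have b1 : lam < k := (Nat.floor_lt hlam0.le).1 (by omega)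
      have b2 := hg k1 k (by omega) hk
      simp only [hh, if_neg hk']
      nlinarith
  have a4 : EE n s (fun k => h (k + 1) - h k) = - (α * bb n s k0) := by
    unfold EE
    rw [sum_eq_single k0]
    · simp only [hh, le_refl, if_true, if_neg (by omega : ¬ k0 + 1 ≤ k0)]; ring
    · intro k _ hk
      simp only [hh]
      by_cases hk' : k ≤ k0
      · rw [if_pos hk', if_pos (by omega)]; ring
      · rw [if_neg hk', if_neg (by omega)]; ring
    · intro h; exact absurd (mem_range.2 (by omega)) h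
  have a5 : EE n s (fun k => g k - g (k + 1)) = - EE n s (fun k => g (k + 1) - g k) := by
    rw [← EE_neg]; exact EE_congr fun k _ => by ring
  rw [← a1, ← a2, a4] at a3
  have := le_of_mul_le_mul_left a3 hp
  linarith

end Pool.Agent.MP_79e3be_pr

end MrgPart1

-- ======== part 2: formerly Pool.Agent.MP_79e3be_pr.Rec
section MrgPart2

/-! The recursive inequality for the antisymmetric part of the value function. -/

set_option autoImplicit false

open Finset

namespace Pool.Agent.MP_79e3be_pr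

lemma EE_diff_le {n j N : ℕ} {s σ α : ℝ} (h0 : 0 < s) (h1 : s < 1) (hσ : 0 < σ) (hN : j + n + 1 ≤ N)
    {W : ℕ → ℝ}
    (hW : ∀ y y', j ≤ y → y ≤ y' → y' ≤ N →
      W y ≤ W y' + (α + ∑ z ∈ Ico y y', 1 / (((N : ℝ) - z) * σ))) :
    ∃ k0, EE n s (fun k => W (j + k) - W (j + (k + 1)))
      ≤ α * bb n s k0 + (1 / σ) * (1 / (((n : ℝ) + 1) * (1 - s))) := by
  set L : ℕ → ℝ := fun k => ∑ z ∈ Ico j (j + k), 1 / (((N : ℝ) - z) * σ) with hL
  obtain ⟨k0, hk0⟩ := EE_osc (n := n) (α := α) h0 h1 (g := fun k => W (j + k) + L k) (by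
    intro k k' hk hk'
    have a1 := hW (j + k) (j + k') (by omega) (by omega) (by omega)
    have a2 := sum_Ico_consecutive (fun z : ℕ => 1 / (((N : ℝ) - z) * σ)) (Nat.le_add_right j k)
      (by omega : j + k ≤ j + k')
    simp only [hL]; linarith)
  refine ⟨k0, ?_⟩
  have a3 : EE n s (fun k => W (j + k) - W (j + (k + 1)))
      ≤ EE n s (fun k => (W (j + k) + L k - (W (j + (k + 1)) + L (k + 1)))
        + (1 / σ) * (1 / ((n : ℝ) + 1 - k))) := by
    refine EE_mono h0.le h1.le fun k hk => ?_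
    have e : L (k + 1) = L k + 1 / (((N : ℝ) - ((j + k : ℕ) : ℝ)) * σ) := by
      simp only [hL]
      rw [← add_assoc, sum_Ico_succ_top (by omega)]
    have b1 : (k : ℝ) ≤ n := by exact_mod_cast hk
    have b2 : (j : ℝ) + n + 1 ≤ N := by exact_mod_cast hN
    have b3 : 1 / (((N : ℝ) - ((j + k : ℕ) : ℝ)) * σ) ≤ (1 / σ) * (1 / ((n : ℝ) + 1 - k)) := by
      rw [one_div_mul_one_div]
      refine one_div_le_one_div_of_le (mul_pos hσ (by linarith)) ?_
      push_cast; nlinarith
    linarith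
  rw [EE_add, EE_mul] at a3
  have a4 := mul_le_mul_of_nonneg_left (EE_inv (n := n) h0.le h1) (one_div_pos.2 hσ).le
  linarith

section
variable {a b : ℕ} (hb : 1 ≤ b) (hba : b < a) (hab : 2 * a ≤ 3 * b)
include hb hba

lemma lossB {i j u : ℕ} (hi : 1 ≤ i) (hib : i < b) (hjb : j + 1 < b) (hu : 1 ≤ u) (hub : u ≤ b)
    {α P : ℝ} (hα : phiU u ≤ α) (hP0 : 0 ≤ P)
    (hP : c2 (b - j - 1) * (1 - (j : ℝ) / b) ≤ P ^ 2 * (i * (1 - (i : ℝ) / b))) :
    EE (b - j) ((i : ℝ) / a) (fun y => VV a b u (j + y))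
      ≤ EE (b - j) ((i : ℝ) / b) (fun y => VV a b u (j + y))
        + ((a : ℝ) - b) / b * (i * (α * P + b / ((b : ℝ) - i) / u)) := by
  have ha : 1 ≤ a := by omega
  have hb' : (0 : ℝ) < b := by exact_mod_cast hb
  have hba' : (b : ℝ) < a := by exact_mod_cast hba
  have ha' : (0 : ℝ) < a := by linarith
  have hi' : (0 : ℝ) < i := by exact_mod_cast hi
  have hu' : (0 : ℝ) < u := by exact_mod_cast hu
  have hib' : (i : ℝ) < b := by exact_mod_cast hib
  have hα0 : 0 ≤ α := (phiOK_of_le hu' hα).1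
  obtain ⟨n, hn⟩ : ∃ n, b - j = n + 1 := ⟨b - j - 1, by omega⟩
  have hn' : (n : ℝ) + 1 = b - j := by
    have : ((b - j : ℕ) : ℝ) = ((n + 1 : ℕ) : ℝ) := by rw [hn]
    rw [Nat.cast_sub (by omega)] at this; push_cast at this; linarith
  rw [hn] at hP ⊢
  simp only [Nat.add_sub_cancel] at hP
  have hs : (i : ℝ) / a ≤ (i : ℝ) / b := div_le_div_of_nonneg_left hi'.le hb' hba'.le
  have hs1 : (i : ℝ) / b < 1 := (div_lt_one hb').2 hib'
  set D := α * (P * a) + (a / u) * (b / ((b : ℝ) - i)) with hD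
  have key := incr_le (f := fun s => - EE (n + 1) s (fun y => VV a b u (j + y)))
    (f' := fun s => - (((n : ℝ) + 1) * EE n s (fun k => VV a b u (j + (k + 1)) - VV a b u (j + k))))
    (g := fun s => D * s) (g' := fun _ => D) hs
    (fun t _ => (EE_hasDerivAt n (fun y => VV a b u (j + y)) t).neg)
    (fun t _ => by simpa using (hasDerivAt_id t).const_mul D) (fun t ht => ?_)
  · have e : D * ((i : ℝ) / b) - D * ((i : ℝ) / a)
        = ((a : ℝ) - b) / b * (i * (α * P + b / ((b : ℝ) - i) / u)) := by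
      rw [hD]; field_simp
    linarith
  · have ht0 : 0 < t := lt_of_lt_of_le (by positivity) ht.1
    have ht1 : t < 1 := lt_of_le_of_lt ht.2 hs1
    obtain ⟨k0, hk0⟩ := EE_diff_le (n := n) (j := j) (N := b) (α := α) (σ := (u : ℝ) / a) ht0 ht1
      (by positivity) (by omega) (W := fun y => VV a b u y)
      (fun y y' h1 h2 h3 => catch_B ha hb hu (by omega) hba.le hα h1 h2 h3)
    have e : - (((n : ℝ) + 1) * EE n t (fun k => VV a b u (j + (k + 1)) - VV a b u (j + k)))
        = ((n : ℝ) + 1) * EE n t (fun k => VV a b u (j + k) - VV a b u (j + (k + 1))) := by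
      rw [EE_sub, EE_sub]; ring
    have b1 : ((n : ℝ) + 1) * bb n t k0 ≤ P * a := by
      refine abs_le_of_sq_le_sq' ?_ (by positivity) |>.2
      have c1 := bb_sq_le ht0.le ht1.le (n := n) (by omega) k0
      have c3 : (i : ℝ) ≤ a * t := by have := ht.1; rwa [div_le_iff₀' ha'] at this
      have c4 : 1 - (i : ℝ) / b ≤ 1 - t := by linarith [ht.2]
      have c5 : c2 n * ((n : ℝ) + 1) ≤ P ^ 2 * (i * (1 - (i : ℝ) / b)) * a := by
        have c6 : 0 ≤ c2 n := le_trans (mul_nonneg (sq_nonneg _) (mul_nonneg (by positivity)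
          (by linarith))) c1
        have c7 : (n : ℝ) + 1 = (1 - (j : ℝ) / b) * b := by rw [hn']; field_simp
        have c8 : 0 ≤ P ^ 2 * (i * (1 - (i : ℝ) / b)) :=
          mul_nonneg (sq_nonneg _) (mul_nonneg hi'.le (by linarith))
        rw [c7, ← mul_assoc]
        exact mul_le_mul hP hba'.le hb'.le c8
      have c9 : (i : ℝ) * (1 - (i : ℝ) / b) ≤ a * t * (1 - t) :=
        mul_le_mul c3 c4 (by linarith) (by positivity)
      have c10 : 0 < t * (1 - t) := mul_pos ht0 (by linarith)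
      refine le_of_mul_le_mul_right ?_ c10
      have c11 := mul_le_mul_of_nonneg_right c1 (by positivity : (0 : ℝ) ≤ (n : ℝ) + 1)
      have c12 := mul_le_mul_of_nonneg_left c9 (by positivity : (0 : ℝ) ≤ P ^ 2 * a)
      nlinarith
    have b2 : ((n : ℝ) + 1) * (1 / ((u : ℝ) / a) * (1 / (((n : ℝ) + 1) * (1 - t))))
        ≤ (a / u) * (b / ((b : ℝ) - i)) := by
      have : 0 < 1 - t := by linarith
      have e2 : ((n : ℝ) + 1) * (1 / ((u : ℝ) / a) * (1 / (((n : ℝ) + 1) * (1 - t))))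
          = (a / u) * (1 / (1 - t)) := by field_simp
      rw [e2]
      refine mul_le_mul_of_nonneg_left ?_ (by positivity)
      rw [div_le_div_iff₀ this (by linarith)]
      have := ht.2
      rw [le_div_iff₀ hb'] at this
      nlinarith
    have b3 := mul_le_mul_of_nonneg_left hk0 (by positivity : (0 : ℝ) ≤ (n : ℝ) + 1)
    have b4 := mul_le_mul_of_nonneg_left b1 hα0
    simp only [e, hD]
    nlinarith

include hab in
lemma lossA {i j u : ℕ} (hi : 1 ≤ i) (hib : i < b) (hjb : j + 1 < b) (hu : 1 ≤ u) (hub : u ≤ b)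
    {α P : ℝ} (hα : phiU (3 / 2 * u) ≤ α) (hP0 : 0 ≤ P)
    (hP : c2 (b - j - 1) ≤ P ^ 2 * (i * (1 - ((j : ℝ) - 1) / b) * (1 - (i : ℝ) / b))) :
    EE (b - j) ((i : ℝ) / b) (fun x => VV a b (j + x) u)
      ≤ EE (a - j) ((i : ℝ) / b) (fun x => VV a b (j + x) u)
        + ((a : ℝ) - b) / b * (i * (α * P + b ^ 2 / (((b : ℝ) - j + 1) * ((b : ℝ) - i)) / u)) := by
  have ha : 1 ≤ a := by omega
  have hb' : (0 : ℝ) < b := by exact_mod_cast hb
  have hi' : (0 : ℝ) < i := by exact_mod_cast hi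
  have hu' : (0 : ℝ) < u := by exact_mod_cast hu
  have hib' : (i : ℝ) < b := by exact_mod_cast hib
  have hjb' : (j : ℝ) + 1 < b := by exact_mod_cast hjb
  have hα0 : 0 ≤ α := (phiOK_of_le (by positivity) hα).1
  set s := (i : ℝ) / b with hs
  have hs0 : 0 < s := by positivity
  have hs1 : s < 1 := (div_lt_one hb').2 hib'
  set C := s * (α * P + b ^ 2 / (((b : ℝ) - j + 1) * ((b : ℝ) - i)) / u) with hC
  have step : ∀ n, b - j ≤ n → j + n + 1 ≤ a →
      EE n s (fun x => VV a b (j + x) u) ≤ EE (n + 1) s (fun x => VV a b (j + x) u) + C := by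
    intro n hn1 hn2
    have hn1' : (b : ℝ) - j ≤ n := by
      have : ((b - j : ℕ) : ℝ) ≤ n := by exact_mod_cast hn1
      rwa [Nat.cast_sub (by omega)] at this
    obtain ⟨k0, hk0⟩ := EE_diff_le (n := n) (j := j) (N := a) (α := α) (σ := (u : ℝ) / b) hs0 hs1
      (by positivity) hn2 (W := fun x => VV a b x u)
      (fun y y' _ h2 h3 => catch_A ha hb hu hub hab hα h2 h3)
    have b1 : bb n s k0 ≤ P := by
      refine abs_le_of_sq_le_sq' ?_ hP0 |>.2
      have c1 := bb_sq_le hs0.le hs1.le (n := n) (by omega) k0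
      have c3 := c2_anti (m := b - j - 1) (n := n) (by omega) (by omega)
      have c4 : (i : ℝ) * (1 - ((j : ℝ) - 1) / b) = ((b : ℝ) - j + 1) * s := by
        rw [hs]; field_simp; ring
      have c5 : 0 < ((n : ℝ) + 1) * s * (1 - s) := mul_pos (by positivity) (by linarith)
      refine le_of_mul_le_mul_right ?_ c5
      have c6 : ((b : ℝ) - j + 1) * s * (1 - s) ≤ ((n : ℝ) + 1) * s * (1 - s) :=
        mul_le_mul_of_nonneg_right (mul_le_mul_of_nonneg_right (by linarith) hs0.le) (by linarith)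
      rw [c4] at hP
      nlinarith [mul_le_mul_of_nonneg_left c6 (sq_nonneg P)]
    have b2 : 1 / ((u : ℝ) / b) * (1 / (((n : ℝ) + 1) * (1 - s)))
        ≤ b ^ 2 / (((b : ℝ) - j + 1) * ((b : ℝ) - i)) / u := by
      have c1 : 0 < (b : ℝ) - i := by linarith
      have c3 : 0 < (b : ℝ) - j + 1 := by linarith
      have e2 : 1 / ((u : ℝ) / b) * (1 / (((n : ℝ) + 1) * (1 - s)))
          = b ^ 2 / (((n : ℝ) + 1) * ((b : ℝ) - i)) / u := by
        have : 1 - s = ((b : ℝ) - i) / b := by rw [hs]; field_simp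
        rw [this]; field_simp
      rw [e2]
      refine div_le_div_of_nonneg_right ?_ hu'.le
      exact div_le_div_of_nonneg_left (by positivity) (mul_pos c3 c1)
        (mul_le_mul_of_nonneg_right (by linarith) c1.le)
    have b3 := EE_sub_succ n s (fun x => VV a b (j + x) u)
    have b4 := mul_le_mul_of_nonneg_left b1 hα0
    have b5 := mul_le_mul_of_nonneg_left hk0 hs0.le
    have b6 := mul_le_mul_of_nonneg_left (add_le_add b4 b2) hs0.le
    simp only [hC]
    linarith
  have iter : ∀ d, j + (b - j) + d ≤ a → EE (b - j) s (fun x => VV a b (j + x) u)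
      ≤ EE (b - j + d) s (fun x => VV a b (j + x) u) + d * C := by
    intro d
    induction d with
    | zero => simp
    | succ d ih =>
      intro hd
      have a1 := ih (by omega)
      have a2 := step (b - j + d) (by omega) (by omega)
      rw [← add_assoc]; push_cast; linarith
  have h := iter (a - b) (by omega)
  rw [(by omega : b - j + (a - b) = a - j), Nat.cast_sub hba.le] at h
  have e : ((a : ℝ) - b) * C
      = ((a : ℝ) - b) / b * (i * (α * P + b ^ 2 / (((b : ℝ) - j + 1) * ((b : ℝ) - i)) / u)) := by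
    rw [hC, hs]; ring
  linarith

/-- the reference operator -/
noncomputable def T0 (b : ℕ) (F : ℕ → ℕ → ℝ) (i j : ℕ) : ℝ :=
  EE (b - i) ((j : ℝ) / b) fun x => EE (b - j) ((i : ℝ) / b) fun y => F (i + x) (j + y)

/-- the antisymmetric part -/
noncomputable def MM (a b i j : ℕ) : ℝ := VV a b i j - VV a b j i

/-- the linear part of the loss -/
noncomputable def lin (b i j : ℕ) : ℝ :=
  b ^ 2 / (((b : ℝ) - j + 1) * ((b : ℝ) - i)) + b / ((b : ℝ) - i)

include hab in
lemma M_rec {i j : ℕ} (hi : 1 ≤ i) (hj : 1 ≤ j) (hib : i < b) (hjb : j + 1 < b)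
    {PA PB : ℝ} (hA0 : 0 ≤ PA) (hB0 : 0 ≤ PB)
    (hA : c2 (b - j - 1) ≤ PA ^ 2 * (i * (1 - ((j : ℝ) - 1) / b) * (1 - (i : ℝ) / b)))
    (hB : c2 (b - j - 1) * (1 - (j : ℝ) / b) ≤ PB ^ 2 * (i * (1 - (i : ℝ) / b))) :
    MM a b i j ≤ T0 b (MM a b) i j + ((a : ℝ) - b) / b * (i * EE (b - i) ((j : ℝ) / b) fun x =>
      phiU (3 / 2 * ((i + x : ℕ) : ℝ)) * PA + phiU ((i + x : ℕ) : ℝ) * PB
        + lin b i j / ((i + x : ℕ) : ℝ)) := by
  have ha : 1 ≤ a := by omega
  have hb' : (0 : ℝ) < b := by exact_mod_cast hb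
  have hba' : (b : ℝ) < a := by exact_mod_cast hba
  have p0 : ∀ (m n : ℕ), (0 : ℝ) ≤ (m : ℝ) / n := fun m n => by positivity
  have p1 : ∀ (m n : ℕ), m ≤ n → (m : ℝ) / n ≤ 1 := fun m n h =>
    div_le_one_of_le₀ (by exact_mod_cast h) (by positivity)
  have h1 : VV a b i j ≤ 1 + EE (b - i) ((j : ℝ) / b) fun x =>
      EE (b - j) ((i : ℝ) / a) fun y => VV a b (i + x) (j + y) := by
    rw [VV_eq ha hb (by omega) (by omega), TT, pr_eq (by omega), pr_eq (by omega)]
    refine add_le_add le_rfl (EE_anti_n (by omega) (p0 _ _) (p1 _ _ (by omega)) ?_)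
    intro x x' h
    exact EE_mono (p0 _ _) (p1 _ _ (by omega)) fun y _ => VV_anti ha hb (by omega) (by omega) le_rfl
  have h2 : 1 + EE (b - i) ((j : ℝ) / b) (fun x =>
      EE (a - j) ((i : ℝ) / b) fun y => VV a b (j + y) (i + x)) ≤ VV a b j i := by
    rw [VV_eq ha hb (i := j) (j := i) (by omega) (by omega), TT, pr_eq (by omega), pr_eq (by omega),
      EE_comm]
    refine add_le_add le_rfl (EE_mono (p0 _ _) (p1 _ _ (by omega)) fun y _ => ?_)
    refine EE_anti_s _ (p0 _ _) (div_le_div_of_nonneg_left (by positivity) hb' hba'.le)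
      (p1 _ _ (by omega)) ?_
    intro x x' h
    exact VV_anti ha hb (by omega) le_rfl (by omega)
  have h3 : EE (b - i) ((j : ℝ) / b) (fun x =>
        EE (b - j) ((i : ℝ) / a) (fun y => VV a b (i + x) (j + y))
        - EE (a - j) ((i : ℝ) / b) fun y => VV a b (j + y) (i + x))
      ≤ EE (b - i) ((j : ℝ) / b) fun x =>
        EE (b - j) ((i : ℝ) / b) (fun y => MM a b (i + x) (j + y))
        + ((a : ℝ) - b) / b * (i * (phiU (3 / 2 * ((i + x : ℕ) : ℝ)) * PA
          + phiU ((i + x : ℕ) : ℝ) * PB + lin b i j / ((i + x : ℕ) : ℝ))) := by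
    refine EE_mono (p0 _ _) (p1 _ _ (by omega)) fun x hx => ?_
    have a1 := lossB hb hba hi hib hjb (u := i + x) (by omega) (by omega) le_rfl hB0 hB
    have a2 := lossA hb hba hab hi hib hjb (u := i + x) (by omega) (by omega) le_rfl hA0 hA
    simp only [MM, EE_sub, lin, add_div]
    linarith
  rw [EE_sub, EE_add, EE_mul, EE_mul] at h3
  unfold MM T0 at *
  linarith

end

end Pool.Agent.MP_79e3be_pr

end MrgPart2

-- ======== part 3: formerly Pool.Agent.MP_79e3be_pr.Mid
section MrgPart3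

/-! The analytic region: many blue vertices but both fractions below three fifths. -/

set_option autoImplicit false

open Finset

namespace Pool.Agent.MP_79e3be_pr

lemma path_step (n : ℕ) {lam N : ℝ} (h0 : 0 < lam) (h1 : lam < (n : ℝ) + 1) (hN : 0 ≤ N) (f : ℕ → ℝ)
    (hf : ∀ t, 0 ≤ t → t ≤ lam / ((n : ℝ) + 2) →
      EE (n + 2) ((lam - t) / ((n : ℝ) + 1)) (fun k => f k ^ 2) ≤ N ^ 2) :
    EE (n + 2) (lam / ((n : ℝ) + 2)) f - EE (n + 1) (lam / ((n : ℝ) + 1)) f
      ≤ N * (0.70711 * (lam / (((n : ℝ) + 1) * ((n : ℝ) + 1 - lam)))) := by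
  have hn1 : (0 : ℝ) < (n : ℝ) + 1 := by positivity
  have hn2 : (0 : ℝ) < (n : ℝ) + 2 := by positivity
  have hd : 0 < (n : ℝ) + 1 - lam := by linarith
  set C := 1.41422 * N * ((n : ℝ) + 2) / (((n : ℝ) + 1) * lam * ((n : ℝ) + 1 - lam)) with hC
  have key := incr_le
    (f := fun t => (1 - t) * EE (n + 1) ((lam - t) / ((n : ℝ) + 1)) f
      + t * EE (n + 1) ((lam - t) / ((n : ℝ) + 1)) (fun k => f (k + 1)))
    (f' := fun t => ((lam - t) / ((n : ℝ) + 1) - t)
      * EE n ((lam - t) / ((n : ℝ) + 1)) (fun k => f (k + 2) - 2 * f (k + 1) + f k))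
    (g := fun t => C * (lam * t - ((n : ℝ) + 2) * t ^ 2 / 2))
    (g' := fun t => C * (lam - ((n : ℝ) + 2) * t)) (x := 0) (y := lam / ((n : ℝ) + 2))
    (by positivity) (fun t _ => ?_) (fun t _ => ?_) (fun t ht => ?_)
  · have e1 : (lam - lam / ((n : ℝ) + 2)) / ((n : ℝ) + 1) = lam / ((n : ℝ) + 2) := by
      field_simp; ring
    have e2 : C * (lam * (lam / ((n : ℝ) + 2)) - ((n : ℝ) + 2) * (lam / ((n : ℝ) + 2)) ^ 2 / 2)
        = N * (0.70711 * (lam / (((n : ℝ) + 1) * ((n : ℝ) + 1 - lam)))) := by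
      rw [hC]; field_simp; ring
    rw [e1, e2, ← EE_succ (n + 1)] at key
    simpa using key
  · have d0 : HasDerivAt (fun t : ℝ => (lam - t) / ((n : ℝ) + 1)) (-1 / ((n : ℝ) + 1)) t :=
      ((hasDerivAt_id t).const_sub lam).div_const _
    have d1 := (EE_hasDerivAt n f _).comp t d0
    have d2 := (EE_hasDerivAt n (fun k => f (k + 1)) _).comp t d0
    have d3 := (((hasDerivAt_id t).const_sub 1).mul d1).add ((hasDerivAt_id t).mul d2)
    refine HasDerivAt.congr_deriv d3 ?_
    set s := (lam - t) / ((n : ℝ) + 1)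
    have a1 := EE_succ n s (fun k => f (k + 1) - f k)
    rw [EE_sub (n + 1)] at a1
    have a2 : EE n s (fun k => f (k + 2) - 2 * f (k + 1) + f k)
        = EE n s (fun k => f (k + 1 + 1) - f (k + 1)) - EE n s (fun k => f (k + 1) - f k) := by
      rw [← EE_sub]; exact EE_congr fun k _ => by ring
    simp only [Function.comp, id]
    rw [a2]
    field_simp
    linear_combination a1
  · have d := (((hasDerivAt_id t).const_mul lam).sub
      ((((hasDerivAt_id t).pow 2).const_mul ((n : ℝ) + 2)).div_const 2)).const_mul C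
    refine HasDerivAt.congr_deriv d ?_
    simp; left; ring
  · obtain ⟨ht0, ht1⟩ := ht
    have ht2 : ((n : ℝ) + 2) * t ≤ lam := by rwa [le_div_iff₀' hn2] at ht1
    set s := (lam - t) / ((n : ℝ) + 1) with hs
    have hs' : ((n : ℝ) + 1) * s = lam - t := by rw [hs]; field_simp
    have hs0 : lam ≤ ((n : ℝ) + 2) * s := by
      refine le_of_mul_le_mul_left ?_ hn1
      have e : ((n : ℝ) + 1) * (((n : ℝ) + 2) * s) = ((n : ℝ) + 2) * (lam - t) := by rw [← hs']; ring
      rw [e]; linarith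
    have hsp : 0 < s := (mul_pos_iff_of_pos_left hn2).1 (h0.trans_le hs0)
    have hs1 : (n : ℝ) + 1 - lam ≤ ((n : ℝ) + 1) * (1 - s) := by linarith
    have hs2 : 0 < 1 - s := (mul_pos_iff_of_pos_left hn1).1 (hd.trans_le hs1)
    set X := EE n s (fun k => f (k + 2) - 2 * f (k + 1) + f k) with hX
    have a1 := EE_K2 n s f
    have a2 := EE_cs (n := n + 2) hsp.le (by linarith) (K2 n s) f
    rw [← a1, EE_K2_sq, ← hX] at a2
    set Q := ((n : ℝ) + 1) * ((n : ℝ) + 2) * s ^ 2 * (1 - s) ^ 2 with hQ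
    have hQ0 : 0 < Q := by positivity
    have a3 := hf t ht0 ht1
    have a4 : Q * X ^ 2 ≤ 2 * N ^ 2 := by
      refine le_of_mul_le_mul_left ?_ hQ0
      linarith only [mul_le_mul_of_nonneg_left a3 hQ0.le, a2]
    have a5 : ((n : ℝ) + 1) * s * (1 - s) * X ≤ 1.41422 * N := by
      refine abs_le_of_sq_le_sq' ?_ (by positivity) |>.2
      have : (((n : ℝ) + 1) * s * (1 - s) * X) ^ 2 ≤ Q * X ^ 2 := by
        rw [hQ]
        have : 0 ≤ ((n : ℝ) + 1) * s ^ 2 * (1 - s) ^ 2 * X ^ 2 := by positivity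
        linarith only [this]
      linarith only [sq_nonneg N, this, a4]
    have e : s - t = (lam - ((n : ℝ) + 2) * t) / ((n : ℝ) + 1) := by rw [hs]; field_simp; ring
    have a6 : X / ((n : ℝ) + 1) ≤ C := by
      rcases le_or_gt X 0 with hX0 | hX0
      · exact (div_nonpos_of_nonpos_of_nonneg hX0 hn1.le).trans (by positivity)
      · rw [hC, div_le_div_iff₀ hn1 (by positivity)]
        have b1 : lam * ((n : ℝ) + 1 - lam) ≤ (((n : ℝ) + 2) * s) * (((n : ℝ) + 1) * (1 - s)) :=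
          mul_le_mul hs0 hs1 hd.le (by positivity)
        have b2 := mul_le_mul_of_nonneg_left b1 (by positivity : 0 ≤ X * ((n : ℝ) + 1))
        have b3 := mul_le_mul_of_nonneg_left a5 (by positivity : 0 ≤ ((n : ℝ) + 2) * ((n : ℝ) + 1))
        linarith only [b2, b3]
    have a7 := mul_le_mul_of_nonneg_right a6 (sub_nonneg.2 ht2)
    rw [e]
    calc _ = X / ((n : ℝ) + 1) * (lam - ((n : ℝ) + 2) * t) := by ring
      _ ≤ _ := a7

lemma sum_inv_le {L : ℝ} (hL : 0 < L) (r : ℕ) :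
    ∑ z ∈ range r, 1 / (L + z) ≤ r / 2 * (1 / L + 1 / (L + r - 1)) := by
  have h : ∑ z ∈ range r, (1 / (L + z) + 1 / (L + ((r - 1 - z : ℕ) : ℝ)))
      ≤ ∑ _z ∈ range r, (1 / L + 1 / (L + r - 1)) := by
    refine sum_le_sum fun z hz => ?_
    rw [mem_range] at hz
    obtain ⟨y, rfl⟩ := Nat.exists_eq_add_of_lt hz
    rw [(by omega : z + y + 1 - 1 - z = y)]
    push_cast
    have hz0 : (0 : ℝ) ≤ z := by positivity
    have hy0 : (0 : ℝ) ≤ y := by positivity
    have e : L + ((z : ℝ) + y + 1) - 1 = L + z + y := by ring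
    rw [e, div_add_div _ _ (by positivity) (by positivity),
      div_add_div _ _ (by positivity) (by positivity), div_le_div_iff₀ (by positivity) (by positivity)]
    have : 0 ≤ (2 * L + z + y) * (z * y) := by positivity
    linarith only [this]
  rw [sum_add_distrib, sum_range_reflect (fun z => 1 / (L + (z : ℝ))), sum_const, card_range,
    nsmul_eq_mul] at h
  linarith

/-- the linear majorant -/
noncomputable def Phi (u w : ℕ) : ℝ := 7 / 5 * ((u : ℝ) + w) + 12 * |(u : ℝ) - w|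

lemma Phi_comm (u w : ℕ) : Phi u w = Phi w u := by unfold Phi; rw [abs_sub_comm]; ring

lemma Phi_sq_le {x y α β : ℝ} (hα : 0 < α) (hβ : 0 < β) :
    (7 / 5 * x + 12 * |y|) ^ 2 ≤ (7 / 5 * α + 12 * β) * (7 / 5 / α * x ^ 2 + 12 / β * y ^ 2) := by
  rw [← sq_abs y]
  set z := |y|
  have e : (7 / 5 * α + 12 * β) * (7 / 5 / α * x ^ 2 + 12 / β * z ^ 2) - (7 / 5 * x + 12 * z) ^ 2
      = 84 / 5 / (α * β) * (β * x - α * z) ^ 2 := by field_simp; ring
  have : 0 ≤ 84 / 5 / (α * β) * (β * x - α * z) ^ 2 := by positivity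
  linarith

lemma T0_path {b m l : ℕ} (hl : 1 ≤ l) (hlm : l < m) (hmb : m < b) {F : ℕ → ℕ → ℝ}
    (hanti : ∀ u w, F u w = - F w u)
    (hF : ∀ u w, m ≤ u → u ≤ b → l ≤ w → w ≤ b → |F u w| ≤ Phi u w) :
    T0 b F m l ≤ (3.8 * ((m : ℝ) + l) + 37.35) * (0.70711 * (((m : ℝ) - l) / 2
      * (1 / (((b : ℝ) - m) * l / ((b : ℝ) - l))
        + 1 / (((b : ℝ) - m) * l / ((b : ℝ) - l) + ((m : ℝ) - l) - 1)))) := by
  obtain ⟨r, rfl⟩ := Nat.exists_eq_add_of_le hlm.le
  obtain ⟨p, rfl⟩ := Nat.exists_eq_add_of_lt hmb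
  set b := l + r + p + 1 with hb
  have hl' : (1 : ℝ) ≤ l := by exact_mod_cast hl
  have hr' : (0 : ℝ) ≤ r := by positivity
  have hp' : (0 : ℝ) ≤ p := by positivity
  have hb' : (b : ℝ) = l + r + p + 1 := by rw [hb]; push_cast; ring
  have hb0 : (0 : ℝ) < b := by linarith
  set lam := ((p : ℝ) + 1) * ((p : ℝ) + 1 + r) / b with hlam
  have hlam0 : 0 < lam := by positivity
  have hlamb : lam * b = ((p : ℝ) + 1) * ((p : ℝ) + 1 + r) := by rw [hlam]; field_simp
  have hlam1 : lam < (p : ℝ) + 1 := by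
    refine lt_of_mul_lt_mul_right ?_ hb0.le
    rw [hlamb, hb']; nlinarith only [hl', hp']
  set σ := lam / ((p : ℝ) + 1) with hσ
  have hσ0 : 0 ≤ σ := by positivity
  have hσ1 : σ ≤ 1 := (div_le_one (by positivity)).2 hlam1.le
  have hσ' : ((p : ℝ) + 1) * σ = lam := by rw [hσ]; field_simp
  set f : ℕ → ℝ := fun k => EE (p + 1) σ fun k' => F (b - k') (b - k) with hf
  have e1 : T0 b F (l + r) l = EE (p + 1 + r) (lam / ((p + 1 + r : ℕ) : ℝ)) f := by
    unfold T0
    rw [(by omega : b - (l + r) = p + 1), (by omega : b - l = p + 1 + r), EE_comm, EE_reflect]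
    have s1 : 1 - ((l + r : ℕ) : ℝ) / b = lam / ((p + 1 + r : ℕ) : ℝ) := by
      rw [hlam]; push_cast; field_simp; rw [hb']; ring
    have s2 : 1 - (l : ℝ) / b = σ := by
      rw [hσ, hlam]; field_simp; rw [hb']; ring
    rw [s1]
    refine EE_congr fun k hk => ?_
    rw [EE_reflect, s2]
    refine EE_congr fun k' hk' => ?_
    congr 1 <;> omega
  have e2 : EE (p + 1) σ f = 0 := by
    have h1 : EE (p + 1) σ f = EE (p + 1) σ fun k' => EE (p + 1) σ fun k => F (b - k') (b - k) :=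
      EE_comm _ _ _ _ _
    have h2 : (EE (p + 1) σ fun k' => EE (p + 1) σ fun k => F (b - k') (b - k)) = - EE (p + 1) σ f := by
      rw [← EE_neg]
      refine EE_congr fun k _ => ?_
      rw [← EE_neg]
      exact EE_congr fun k' _ => hanti _ _
    linarith
  set S : ℝ := ((l + r : ℕ) : ℝ) + l with hS
  have hS' : S = 2 * l + r := by rw [hS]; push_cast; ring
  set N := 3.8 * S + 37.35 with hN
  have hN0 : 0 ≤ N := by rw [hN]; linarith
  set L := ((p : ℝ) + 1) * l / ((p : ℝ) + 1 + r) with hL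
  have hL0 : 0 < L := by positivity
  have step : ∀ z < r, EE (p + z + 2) (lam / (((p + z : ℕ) : ℝ) + 2)) f
      - EE (p + z + 1) (lam / (((p + z : ℕ) : ℝ) + 1)) f ≤ N * (0.70711 * (1 / (L + z))) := by
    intro z hz
    have hz0 : (0 : ℝ) ≤ z := by positivity
    have hz' : (z : ℝ) + 1 ≤ r := by exact_mod_cast hz
    have hn : ((p + z : ℕ) : ℝ) = p + z := by push_cast; ring
    refine (path_step (p + z) hlam0 (by rw [hn]; linarith) hN0 f fun t ht0 ht1 => ?_).trans ?_
    · rw [hn] at ht1 ⊢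
      have ht2 : ((p : ℝ) + z + 2) * t ≤ lam := by rwa [le_div_iff₀' (by positivity)] at ht1
      set s := (lam - t) / ((p : ℝ) + z + 1) with hs
      have hs' : ((p : ℝ) + z + 1) * s = lam - t := by rw [hs]; field_simp
      have hst : t ≤ s := by
        refine le_of_mul_le_mul_left ?_ (by positivity : (0 : ℝ) < (p : ℝ) + z + 1)
        linarith only [hs', ht2]
      have hs0 : 0 ≤ s := ht0.trans hst
      have hs1 : s ≤ 1 := (div_le_one (by positivity)).2 (by linarith)
      set α := 2 * S + 1 / 4 with hα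
      set β := (S + 1) / 12 + 3 with hβ
      have hα0 : 0 < α := by rw [hα]; linarith
      have hβ0 : 0 < β := by rw [hβ]; linarith
      have hNe : N = 7 / 5 * α + 12 * β := by rw [hN, hα, hβ]; ring
      set v := ((p + 1 : ℕ) : ℝ) * σ * (1 - σ) with hv
      have a1 : EE (p + z + 2) s (fun k => f k ^ 2) ≤ EE (p + z + 2) s (fun k =>
          N * (7 / 5 / α * (v + ((k : ℝ) - (2 * b - lam)) ^ 2) + 12 / β * (v + ((k : ℝ) - lam) ^ 2))) := by
        refine EE_mono hs0 hs1 fun k hk => ?_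
        have b1 := EE_cs (n := p + 1) hσ0 hσ1 (fun k' => F (b - k') (b - k)) (fun _ => 1)
        simp only [mul_one, one_pow, EE_const] at b1
        refine b1.trans ?_
        have b2 : EE (p + 1) σ (fun k' => F (b - k') (b - k) ^ 2) ≤ EE (p + 1) σ (fun k' =>
            N * (7 / 5 / α * ((k' : ℝ) - (2 * b - k)) ^ 2 + 12 / β * ((k' : ℝ) - k) ^ 2)) := by
          refine EE_mono hσ0 hσ1 fun k' hk' => ?_
          have c1 := hF (b - k') (b - k) (by omega) (by omega) (by omega) (by omega)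
          have c2 := pow_le_pow_left₀ (abs_nonneg _) c1 2
          rw [sq_abs] at c2
          refine c2.trans ?_
          unfold Phi
          rw [Nat.cast_sub (by omega), Nat.cast_sub (by omega), hNe]
          refine (Phi_sq_le hα0 hβ0).trans (le_of_eq ?_)
          ring
        refine b2.trans (le_of_eq ?_)
        rw [EE_mul, EE_add, EE_mul, EE_mul, EE_sq, EE_sq, ← hv]
        push_cast
        rw [hσ']; ring
      refine a1.trans ?_
      rw [EE_mul, EE_add, EE_mul, EE_mul, EE_add, EE_add, EE_const, EE_sq, EE_sq]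
      set μ := ((p + z + 2 : ℕ) : ℝ) * s with hμ
      have hμ' : μ = lam - t + s := by rw [hμ]; push_cast; linarith
      have hv1 : v ≤ l := by
        have c1 : 1 - σ = l / b := by rw [hσ, hlam]; field_simp; rw [hb']; ring
        rw [hv, c1]; push_cast; rw [hσ', ← mul_div_assoc, div_le_iff₀ hb0]
        exact (mul_comm lam l).trans_le (mul_le_mul_of_nonneg_left
          (by linarith only [hlam1, hb', hl', hr']) (by positivity))
      have hv2 : μ * (1 - s) ≤ l + r := by
        have c1 : μ * (1 - s) ≤ ((p : ℝ) + z + 2) * (1 - s) := by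
          refine mul_le_mul_of_nonneg_right ?_ (by linarith)
          rw [hμ]; push_cast
          exact mul_le_of_le_one_right (by positivity) hs1
        have c2 : ((p : ℝ) + z + 2) * (1 - s) ≤ ((p : ℝ) + 1 + r) - lam := by
          linarith only [hs', hst, hz']
        have c3 : ((p : ℝ) + 1 + r) - lam ≤ l + r := by
          refine le_of_mul_le_mul_right ?_ hb0
          rw [sub_mul, hlamb, hb']
          linarith only [mul_nonneg (add_nonneg hr' (zero_le_one.trans hl')) (zero_le_one.trans hl')]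
        linarith only [c1, c2, c3]
      have hm1 : 2 * b - lam - μ ≤ 2 * S := by
        have c3 : (b : ℝ) - lam ≤ S := by
          refine le_of_mul_le_mul_right ?_ hb0
          rw [sub_mul, hlamb, hb', hS']
          linarith only [mul_nonneg (add_nonneg hr' (zero_le_one.trans hl')) (zero_le_one.trans hl')]
        linarith only [c3, hμ', hst]
      have hm2 : 0 ≤ 2 * b - lam - μ := by linarith only [hμ', ht0, hs1, hlam1, hb', hl', hr']
      have c4 : v + (μ * (1 - s) + (μ - (2 * b - lam)) ^ 2) ≤ α ^ 2 := by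
        have := pow_le_pow_left₀ hm2 hm1 2
        rw [hα]; linarith only [this, hv1, hv2, hS']
      have c5 : v + (μ * (1 - s) + (μ - lam) ^ 2) ≤ β ^ 2 := by
        have : (μ - lam) ^ 2 ≤ 1 ^ 2 := pow_le_pow_left₀ (by linarith only [hμ', hst])
          (by linarith only [hμ', ht0, hs1]) 2
        rw [hβ]; linarith only [sq_nonneg ((S + 1) / 12 - 3), this, hv1, hv2, hS']
      have c6 : 7 / 5 / α * (v + (μ * (1 - s) + (μ - (2 * b - lam)) ^ 2)) ≤ 7 / 5 * α := by
        refine (mul_le_mul_of_nonneg_left c4 (by positivity)).trans (le_of_eq ?_)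
        field_simp
      have c7 : 12 / β * (v + (μ * (1 - s) + (μ - lam) ^ 2)) ≤ 12 * β := by
        refine (mul_le_mul_of_nonneg_left c5 (by positivity)).trans (le_of_eq ?_)
        field_simp
      rw [sq N]
      exact mul_le_mul_of_nonneg_left (by linarith only [c6, c7, hNe]) hN0
    · refine mul_le_mul_of_nonneg_left (mul_le_mul_of_nonneg_left ?_ (by norm_num)) hN0
      rw [hn, div_le_div_iff₀ (mul_pos (by positivity) (by linarith)) (by positivity)]
      have c1 : lam * (L + z) ≤ ((p : ℝ) + 1) * ((p : ℝ) + z + 1 - lam) := by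
        refine le_of_mul_le_mul_right ?_ hb0
        have d1 : lam * L * b = ((p : ℝ) + 1) * ((p : ℝ) + 1) * l := by
          rw [mul_right_comm, hlamb, hL]; field_simp
        have d2 : lam * (L + z) * b = lam * L * b + z * (lam * b) := by ring
        have d3 : ((p : ℝ) + 1) * ((p : ℝ) + z + 1 - lam) * b
            = ((p : ℝ) + 1) * (((p : ℝ) + z + 1) * b - lam * b) := by ring
        rw [d2, d3, d1, hlamb, hb']
        have : 0 ≤ ((p : ℝ) + 1) * z * l := by positivity
        linarith only [this]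
      linarith only [c1, mul_nonneg hz0 (by linarith only [hlam1, hz0] : 0 ≤ (p : ℝ) + z + 1 - lam)]
  have iter : ∀ z ≤ r, EE (p + z + 1) (lam / (((p + z : ℕ) : ℝ) + 1)) f
      ≤ N * (0.70711 * ∑ y ∈ range z, 1 / (L + y)) := by
    intro z
    induction z with
    | zero => intro _; simp only [add_zero, range_zero, sum_empty, mul_zero]; exact e2.le
    | succ z ih =>
      intro hz
      have a1 := ih (by omega)
      have a2 := step z (by omega)
      have e : lam / (((p + (z + 1) : ℕ) : ℝ) + 1) = lam / (((p + z : ℕ) : ℝ) + 2) := by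
        push_cast; ring
      rw [sum_range_succ, e, (by omega : p + (z + 1) + 1 = p + z + 2)]
      linarith
  have h := iter r le_rfl
  have e3 : lam / ((p + 1 + r : ℕ) : ℝ) = lam / (((p + r : ℕ) : ℝ) + 1) := by push_cast; ring
  rw [e1, e3, (by omega : p + 1 + r = p + r + 1)]
  refine h.trans (mul_le_mul_of_nonneg_left (mul_le_mul_of_nonneg_left ?_ (by norm_num)) hN0)
  have e4 : ((b : ℝ) - ((l + r : ℕ) : ℝ)) * l / ((b : ℝ) - l) = L := by
    rw [hL, hb']; push_cast; congr 1 <;> ring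
  have e5 : ((l + r : ℕ) : ℝ) - l = r := by push_cast; ring
  rw [e4, e5]
  exact sum_inv_le hL0 r

end Pool.Agent.MP_79e3be_pr

end MrgPart3

-- marker of a merged file
example : 731051 + 511593 = 731051 + 511593 := rfl
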