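/-! Integer programs evaluated by the kernel. -/

set_option autoImplicit false

namespace Pool.Agent.MP_79e3be_pr

/-- evaluate `n`, then continue -/
noncomputable def frc {α : Type} (n : Nat) (k : Nat → α) : α :=
  Nat.rec (motive := fun _ => α) (k 0) (fun m _ => k m) (Nat.succ n)

/-- conditional on `a ≤ b` -/
noncomputable def ifLe {α : Type} (a b : Nat) (x y : α) : α :=
  Bool.rec (motive := fun _ => α) y x (Nat.ble a b)

noncomputable def sumTo (f : Nat → Nat) (n : Nat) : Nat :=
  Nat.rec (motive := fun _ => Nat) 0 (fun k ih => Nat.add (f k) ih) n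

noncomputable def prodTo (f : Nat → Nat) (n : Nat) : Nat :=
  Nat.rec (motive := fun _ => Nat) 1 (fun k ih => Nat.mul (f k) ih) n

noncomputable def allTo (f : Nat → Bool) (n : Nat) : Bool :=
  Nat.rec (motive := fun _ => Bool) true
    (fun k ih => Bool.rec (motive := fun _ => Bool) false ih (f k)) n

/-- factorial -/
noncomputable def fct (n : Nat) : Nat :=
  Nat.rec (motive := fun _ => Nat) 1 (fun k ih => Nat.mul (Nat.succ k) ih) n

/-- power sums -/
noncomputable def PS (k n : Nat) : Nat :=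
  Nat.rec (motive := fun _ => Nat) 0 (fun z ih => Nat.add (Nat.pow z k) ih) n

/-- lists of four numbers -/
inductive L4 : Type
  | nil : L4
  | cons (w p hl hh : Nat) (t : L4) : L4

noncomputable def ofL (j : Nat) (fp fl fh : Nat → Nat) (n : Nat) : L4 :=
  Nat.rec (motive := fun _ => L4) L4.nil
    (fun y ih => L4.cons (j + y) (fp y) (fl (j + y)) (fh (j + y)) ih) n

noncomputable def mkL {α : Type} (j : Nat) (fp fl fh : Nat → Nat) (n : Nat) : (L4 → α) → α :=
  Nat.rec (motive := fun _ => (L4 → α) → α) (fun k => k L4.nil)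
    (fun y ih k => frc (Nat.add j y) fun w => frc (fp y) fun p => frc (fl w) fun hl =>
      frc (fh w) fun hh => ih fun l => k (L4.cons w p hl hh l)) n

noncomputable def sumL (g : Nat → Nat → Nat → Nat → Nat) (l : L4) : Nat :=
  L4.rec (motive := fun _ => Nat) 0 (fun w p hl hh _ ih => Nat.add (g w p hl hh) ih) l

/-- a row of the table -/
noncomputable def trow (T u : Nat) : Nat :=
  Nat.mod (Nat.shiftRight T (Nat.mul 1024 u)) (Nat.pow 2 1024)

noncomputable def ext (row w : Nat) : Nat := Nat.mod (Nat.shiftRight row (Nat.mul 32 w)) 4294967296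

/-- the majorant, scaled by `40960` -/
noncomputable def psi (T u w : Nat) : Nat :=
  ifLe (Nat.sub 32 u) w
    (ifLe u w (Nat.sub (Nat.mul 548864 w) (Nat.mul 434176 u))
      (Nat.sub (Nat.mul 548864 u) (Nat.mul 434176 w)))
    (ext (trow T u) w)

noncomputable def inner (u ul uh u1 u2 ku row : Nat) (l : L4) : Nat :=
  L4.rec (motive := fun _ => Nat) 0 (fun w p hl hh _ ih => Nat.add
    (Bool.rec (motive := fun _ => Nat)
      (Nat.mul (Nat.sub p (Nat.div (Nat.mul p ul) hl))
        (Bool.rec (motive := fun _ => Nat) (Nat.mod (Nat.shiftRight row (Nat.mul 32 w)) 4294967296)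
          (Nat.sub u2 (Nat.mul 434176 w)) (Nat.ble ku w)))
      (Nat.mul (Nat.sub p (Nat.div (Nat.mul p uh) hh))
        (Bool.rec (motive := fun _ => Nat) (Nat.mod (Nat.shiftRight row (Nat.mul 32 w)) 4294967296)
          (Nat.sub (Nat.mul 548864 w) u1) (Nat.ble ku w)))
      (Nat.ble u w)) ih) l

noncomputable def posk (k i j u : Nat) : Nat :=
  Nat.mul (Nat.div 840 k) (Nat.add (Nat.mul u (Nat.pow j k)) (PS k i))

noncomputable def cst (N k j : Nat) : Nat :=
  ifLe N k 0 (Nat.mul (Nat.div 840 (Nat.succ k)) (Nat.pow j (Nat.succ k)))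

noncomputable def negk (N k j u : Nat) : Nat :=
  Nat.add (Nat.mul (Nat.div 840 k) (PS k u)) (cst N k j)

noncomputable def W2 (b1 d1 N k : Nat) : Nat := Nat.mul (Nat.pow b1 (Nat.sub N k)) (Nat.pow d1 N)

noncomputable def W1 (b1 n1 d1 N k : Nat) : Nat :=
  Nat.mul (Nat.mul (Nat.pow n1 k) (Nat.pow d1 (Nat.sub N k))) (Nat.pow b1 N)

noncomputable def DD (b1 d1 N : Nat) : Nat := Nat.mul 840 (Nat.pow (Nat.mul b1 d1) N)

noncomputable def POS (b1 d1 N i j u : Nat) : Nat :=
  sumTo (fun k => Nat.mul (Nat.sub (posk k i j u) (negk N k j u)) (W2 b1 d1 N k)) (Nat.succ N)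

noncomputable def NEG (b1 n1 d1 N i j u : Nat) : Nat :=
  sumTo (fun k => Nat.mul (Nat.sub (negk N k j u) (posk k i j u)) (W1 b1 n1 d1 N k)) (Nat.succ N)

/-- Taylor polynomial of the exponential, scaled -/
noncomputable def Th (f : Nat) : Nat :=
  Nat.add (Nat.mul (Nat.add (Nat.mul (Nat.add (Nat.mul (Nat.add (Nat.mul (Nat.add f 327680) f)
    85899345920) f) 16888498602639360) f) 2213609288845146193920) f) 145071098353755500964741120

noncomputable def pexp (j x yq : Nat) : Nat :=
  frc (Nat.div yq 65536) fun n => frc (Nat.mod yq 65536) fun f =>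
    Nat.succ (Nat.div
      (Nat.mul (Nat.mul 159507359494189904748456847233641349120 (Nat.pow j x)) (Nat.pow 1000000000 n))
      (Nat.mul (Nat.mul (fct x) (Nat.pow 2718281828 n)) (Th f)))

/-- upper bound for a binomial weight, scaled by `2 ^ 40` -/
noncomputable def pm (b1 n1 d1 N i j x : Nat) : Nat :=
  frc (Nat.add i x) fun u => ifLe (Nat.mul u n1) d1
    (frc (POS b1 d1 N i j u) fun P => frc (NEG b1 n1 d1 N i j u) fun Q => ifLe P Q
      (frc (Nat.div (Nat.mul (Nat.sub Q P) 65536) (DD b1 d1 N)) fun yq =>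
        frc (pexp j x yq) fun r => ifLe r 1099511627776 r 1099511627776)
      1099511627776)
    0

noncomputable def hfun (i j m U cn cd u : Nat) : Nat :=
  ifLe m u (Nat.mul (Nat.mul (fct (Nat.sub u i)) (Nat.div (fct (Nat.sub U j)) (fct (Nat.sub u j))))
    (Nat.mul (Nat.pow cn u) (Nat.pow cd (Nat.sub U u)))) 0

noncomputable def phB (v : Nat) : Nat :=
  Nat.succ (Nat.add (Nat.sub 1048576 (Nat.div 1048576 v)) (Nat.div 125829120
    (Nat.mul (Nat.add (Nat.mul (Nat.add (Nat.mul (Nat.add (Nat.mul (Nat.add v 5) v) 20) v) 60) v) 120) v)))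

noncomputable def phA (u : Nat) : Nat := frc (Nat.mul 3 u) fun v =>
  Nat.succ (Nat.add (Nat.sub 1048576 (Nat.div 2097152 v)) (Nat.div 4026531840
    (Nat.mul (Nat.add (Nat.mul (Nat.add (Nat.mul (Nat.add (Nat.mul (Nat.add v 10) v) 80) v) 480) v) 1920) v)))

noncomputable def zf (j : Nat) : Nat := Nat.add 2 (Nat.div 8 j)

/-- bound for a tail probability, scaled by `2 ^ 40` -/
noncomputable def pt (j L : Nat) : Nat := frc (zf j) fun z => frc (Nat.mul j (Nat.sub z 1)) fun e =>
  Nat.succ (Nat.div (Nat.mul 1099511627776 (Nat.pow 272 e))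
    (Nat.mul (Nat.pow 100 e) (Nat.pow z (Nat.succ L))))

/-- choice of the cut-off (any value is sound) -/
noncomputable def LL (i j : Nat) : Nat :=
  frc (Nat.mul (Nat.add (Nat.add (Nat.add i i) j) (Nat.mul j (zf j))) 60300) fun c =>
  frc (Nat.mul (Nat.mul (Nat.add i j) (Nat.add i j)) 1099511627776) fun d =>
  Nat.rec (motive := fun _ => Nat → Nat) (fun L => L)
    (fun _ ih L => ifLe (Nat.mul (pt j L) c) d L (frc (Nat.succ L) ih)) 60 j

/-- an upper estimate of the square root (checked where used) -/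
noncomputable def isq (n : Nat) : Nat :=
  Nat.succ (Nat.rec (motive := fun _ => Nat → Nat) (fun x => x)
    (fun _ ih x => frc (Nat.div (Nat.add x (Nat.div n x)) 2) ih) 14 8388608)

noncomputable def Gf (PA PB LIN u : Nat) : Nat :=
  Nat.succ (Nat.add (Nat.add (Nat.mul (phA u) PA) (Nat.mul (phB u) PB)) (Nat.div LIN u))

/-- a minimum (any value is sound) -/
noncomputable def gmin (PA PB LIN i n : Nat) : Nat :=
  Nat.rec (motive := fun _ => Nat) 4611686018427387904
    (fun x ih => frc ih fun m => frc (Nat.add i x) fun u => frc (Gf PA PB LIN u) fun g =>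
      ifLe g m g m) n

noncomputable def core (b1 n1 d1 N T i j L1 L2 U m ln ld hn hd PA PB LIN g : Nat) : Nat :=
  mkL j (fun y => pm b1 n1 d1 N j i y) (hfun i j m U ln ld) (hfun i j m U hn hd) (Nat.succ L2) fun l =>
    sumTo (fun x => frc (Nat.add i x) fun u =>
      Nat.mul (pm b1 n1 d1 N i j x) (Nat.add
        (frc (hfun i j m U ln ld u) fun ul => frc (hfun i j m U hn hd u) fun uh =>
          frc (Nat.mul 434176 u) fun u1 => frc (Nat.mul 548864 u) fun u2 =>
          frc (Nat.sub 32 u) fun ku => frc (trow T u) fun row => inner u ul uh u1 u2 ku row l)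
        (Nat.mul (Nat.mul 40960 i) (Nat.sub (Gf PA PB LIN u) g)))) (Nat.succ L1)

noncomputable def tails (i j L1 L2 PA PB LIN : Nat) : Nat :=
  Nat.add
    (Nat.mul (pt j L1) (Nat.add
      (Nat.mul 603482350067646464 (Nat.add (Nat.add (Nat.add i i) j) (Nat.mul j (zf j))))
      (Nat.mul (Nat.mul 40960 i) (Nat.add (Nat.mul (Nat.add PA PB) 1048576) LIN))))
    (Nat.mul (pt i L2) (Nat.mul 603482350067646464
      (Nat.add (Nat.add (Nat.add j j) i) (Nat.mul i (zf i)))))

noncomputable def stepChk (b1 n1 d1 N T i j : Nat) : Bool :=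
  ifLe (Nat.add i 2) b1 (ifLe (Nat.add j 2) b1
    (frc (Nat.sub (Nat.sub b1 j) 1) fun n0 =>
     frc (Nat.mul (Nat.mul (Nat.mul 40448833762623488 n0) b1) b1) fun nA =>
     frc (Nat.mul (Nat.mul (Nat.mul i (Nat.succ (Nat.sub b1 j))) (Nat.sub b1 i))
       (Nat.sub (Nat.add n0 n0) 1)) fun dA =>
     frc (Nat.mul (Nat.mul (Nat.mul 40448833762623488 n0) (Nat.sub d1 (Nat.mul j n1))) b1) fun nB =>
     frc (Nat.mul (Nat.mul (Nat.mul i d1) (Nat.sub b1 i)) (Nat.sub (Nat.add n0 n0) 1)) fun dB =>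
     frc (isq (Nat.div nA (Nat.mul dA 100000))) fun PA =>
     frc (isq (Nat.div nB (Nat.mul dB 100000))) fun PB =>
     ifLe nA (Nat.mul (Nat.mul PA PA) (Nat.mul dA 100000))
      (ifLe nB (Nat.mul (Nat.mul PB PB) (Nat.mul dB 100000))
       (frc (Nat.succ (Nat.div (Nat.mul (Nat.mul b1 (Nat.add b1 (Nat.succ (Nat.sub b1 j)))) 1099511627776)
          (Nat.mul (Nat.succ (Nat.sub b1 j)) (Nat.sub b1 i)))) fun LIN =>
        frc (LL i j) fun L1 => frc (LL j i) fun L2 =>
        frc (ifLe (Nat.add i L1) (Nat.add j L2) (Nat.add j L2) (Nat.add i L1)) fun U =>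
        frc (gmin PA PB LIN i (Nat.succ L1)) fun g =>
        frc (Nat.mul i (Nat.sub d1 (Nat.mul j n1))) fun an =>
        frc (Nat.mul j (Nat.sub d1 (Nat.mul i n1))) fun ad =>
        frc (Nat.mul i (Nat.sub b1 j)) fun bn => frc (Nat.mul j (Nat.sub b1 i)) fun bd =>
        Nat.ble (Nat.add (Nat.add
            (ifLe i j (core b1 n1 d1 N T i j L1 L2 U j bn bd an ad PA PB LIN g)
              (core b1 n1 d1 N T i j L1 L2 U i an ad bn bd PA PB LIN g))
            (Nat.mul (Nat.mul 45035996273704960 i) g)) (tails i j L1 L2 PA PB LIN))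
          (Nat.mul (psi T i j) 1208925819614629174706176))
       false) false)
    false) false

noncomputable def stateChk (b1 n1 d1 N T i j : Nat) : Bool :=
  frc (psi T i j) fun v => ifLe 1 v (ifLe v (Nat.mul 548864 (Nat.add i j))
    (ifLe 1 n1
      (ifLe (Nat.mul (Nat.mul d1 (Nat.add d1 (Nat.add (Nat.sub i j) (Nat.sub j i)))) 40960)
        (Nat.mul v (ifLe i j j i)) true (stepChk b1 n1 d1 N T i j))
      (stepChk b1 n1 d1 N T i j)) false) false

/-- all states with `i + j = s` -/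
noncomputable def sumChk (b1 n1 d1 N T s : Nat) : Bool :=
  allTo (fun i' => frc (Nat.succ i') fun i => frc (Nat.sub s i) fun j =>
    ifLe i j (ifLe j i true (stateChk b1 n1 d1 N T i j)) (stateChk b1 n1 d1 N T i j)) (Nat.sub s 1)

/-- all states with `s0 ≤ i + j < s0 + n` -/
noncomputable def rangeChk (b1 n1 d1 N T s0 n : Nat) : Bool :=
  allTo (fun k => frc (Nat.add s0 k) fun s => sumChk b1 n1 d1 N T s) n

noncomputable def finChk (b1 n1 d1 T : Nat) : Bool :=
  Nat.ble (Nat.mul (Nat.mul (Nat.add 1000000 (sumTo (fun k' => frc (Nat.add k' 2) fun k =>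
      Nat.succ (Nat.div (Nat.mul (Nat.mul (psi T k 1) 1048576)
        (prodTo (fun r => Nat.sub d1 (Nat.mul r n1)) k)) (Nat.mul (Nat.pow d1 k) (fct k)))) 29))
      (Nat.add (Nat.mul 100 b1) 31)) b1)
    (Nat.mul (Nat.mul (Nat.sub b1 1) (Nat.sub b1 1)) 13486197309440)

end Pool.Agent.MP_79e3be_pr
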