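import Mathlib.Data.Int.Star
import Mathlib.Algebra.Order.Field.GeomSum
import Mathlib.Combinatorics.SimpleGraph.Basic
import Mathlib.RingTheory.PiTensorProduct
import Pool.Agent.MP_79e3be_pr.Mid
import Pool.Agent.MP_79e3be_pr.Prog
import Pool.Agent.MP_79e3be_pr.Val

-- ======== part 0: formerly Pool.Agent.MP_79e3be_pr.Princ
section MrgPart0

/-! The maximum principle for the antisymmetric part. -/

set_option autoImplicit false

open Finset

namespace Pool.Agent.MP_79e3be_pr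

lemma frac_nonneg (m n : ℕ) : (0 : ℝ) ≤ (m : ℝ) / n := by positivity

lemma frac_le_one {m n : ℕ} (h : m ≤ n) : (m : ℝ) / n ≤ 1 :=
  div_le_one_of_le₀ (by exact_mod_cast h) (by positivity)

/-- the loss term -/
noncomputable def HB (b i j : ℕ) (PA PB : ℝ) : ℝ :=
  i * EE (b - i) ((j : ℝ) / b) fun x =>
    phiU (3 / 2 * ((i + x : ℕ) : ℝ)) * PA + phiU ((i + x : ℕ) : ℝ) * PB + lin b i j / ((i + x : ℕ) : ℝ)

/-- the one-step condition at a state -/
def StepOK (b : ℕ) (ψ : ℕ → ℕ → ℝ) (i j : ℕ) : Prop :=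
  i < b ∧ j + 1 < b ∧ ∃ PA PB : ℝ, 0 ≤ PA ∧ 0 ≤ PB ∧
    c2 (b - j - 1) ≤ PA ^ 2 * (i * (1 - ((j : ℝ) - 1) / b) * (1 - (i : ℝ) / b)) ∧
    c2 (b - j - 1) * (1 - (j : ℝ) / b) ≤ PB ^ 2 * (i * (1 - (i : ℝ) / b)) ∧
    ∀ F : ℕ → ℕ → ℝ, (∀ u w, F u w = - F w u) →
      (∀ u w, 1 ≤ u → u ≤ b → 1 ≤ w → w ≤ b → u ≠ w → F u w ≤ ψ u w) →
      T0 b F i j + HB b i j PA PB ≤ ψ i j

lemma phiU_nonneg {l : ℝ} (h : 0 < l) : 0 ≤ phiU l := (phiOK_of_le h le_rfl).1

lemma lin_pos {b i j : ℕ} (hi : i < b) (hj : j ≤ b) : 0 < lin b i j := by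
  have h1 : (i : ℝ) < b := by exact_mod_cast hi
  have h2 : (j : ℝ) ≤ b := by exact_mod_cast hj
  have h3 : (0 : ℝ) ≤ i := by positivity
  unfold lin
  have h4 : 0 < (b : ℝ) - i := by linarith
  have h5 : 0 < (b : ℝ) - j + 1 := by linarith
  have h6 : (0 : ℝ) < b := by linarith
  positivity

lemma HB_pos {b i j : ℕ} (hi0 : 1 ≤ i) (hi : i < b) (hj : j ≤ b) {PA PB : ℝ} (hA : 0 ≤ PA)
    (hB : 0 ≤ PB) : 0 < HB b i j PA PB := by
  have hl := lin_pos hi hj
  have hb : (0 : ℝ) < b := by exact_mod_cast (by omega : 0 < b)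
  refine mul_pos (by exact_mod_cast hi0) (lt_of_lt_of_le (div_pos hl hb) ?_)
  rw [← EE_const (b - i) ((j : ℝ) / b) (lin b i j / b)]
  refine EE_mono (frac_nonneg _ _) (frac_le_one hj) fun x hx => ?_
  have h1 : (0 : ℝ) < ((i + x : ℕ) : ℝ) := by exact_mod_cast (by omega : 0 < i + x)
  have h2 : ((i + x : ℕ) : ℝ) ≤ b := by exact_mod_cast (by omega : i + x ≤ b)
  have h3 := div_le_div_of_nonneg_left hl.le h1 h2
  have h4 := mul_nonneg (phiU_nonneg (by positivity : 0 < 3 / 2 * ((i + x : ℕ) : ℝ))) hA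
  have h5 := mul_nonneg (phiU_nonneg h1) hB
  linarith

lemma T0_swap (b : ℕ) (F : ℕ → ℕ → ℝ) (i j : ℕ) : T0 b F i j = T0 b (fun u w => F w u) j i :=
  EE_comm _ _ _ _ _

lemma T0_trivial {b i j : ℕ} (hi : i ≤ b) (hj : j ≤ b) (hb : 1 ≤ b) {F : ℕ → ℕ → ℝ}
    (hF : ∀ u w, i ≤ u → u ≤ b → j ≤ w → w ≤ b → F u w ≤ Phi u w) :
    T0 b F i j ≤ 3.8 * ((i : ℝ) + j) + 36 := by
  have hb' : (0 : ℝ) < b := by exact_mod_cast hb
  have hi' : (i : ℝ) ≤ b := by exact_mod_cast hi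
  have hj' : (j : ℝ) ≤ b := by exact_mod_cast hj
  have hi0 : (0 : ℝ) ≤ i := by positivity
  have hj0 : (0 : ℝ) ≤ j := by positivity
  set m1 := ((b - i : ℕ) : ℝ) * ((j : ℝ) / b) with hm1
  set m2 := ((b - j : ℕ) : ℝ) * ((i : ℝ) / b) with hm2
  have e1 : m1 = j - i * j / b := by rw [hm1, Nat.cast_sub hi]; field_simp
  have e2 : m2 = i - i * j / b := by rw [hm2, Nat.cast_sub hj]; field_simp
  have h1 : T0 b F i j ≤ EE (b - i) ((j : ℝ) / b) fun x =>
      ((7 / 5 * (i + j + m2) + 36 + m2 * (1 - (i : ℝ) / b)) + 7 / 5 * (x : ℝ))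
        + ((x : ℝ) - m1) ^ 2 := by
    refine EE_mono (frac_nonneg _ _) (frac_le_one hj) fun x hx => ?_
    have h2 : EE (b - j) ((i : ℝ) / b) (fun y => F (i + x) (j + y)) ≤ EE (b - j) ((i : ℝ) / b) fun y =>
        ((7 / 5 * (i + j + x) + 36) + 7 / 5 * (y : ℝ)) + ((y : ℝ) - (i + x - j)) ^ 2 := by
      refine EE_mono (frac_nonneg _ _) (frac_le_one hi) fun y hy => ?_
      refine (hF _ _ (by omega) (by omega) (by omega) (by omega)).trans ?_
      unfold Phi
      push_cast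
      have := sq_nonneg (|(i : ℝ) + x - (j + y)| - 6)
      have h3 := sq_abs ((i : ℝ) + x - (j + y))
      linarith
    rw [EE_add, EE_affine, EE_sq, ← hm2] at h2
    refine h2.trans (le_of_eq ?_)
    rw [e1, e2]; ring
  rw [EE_add, EE_affine, ← hm1] at h1
  have h2 := EE_var (b - i) ((j : ℝ) / b)
  rw [← hm1] at h2
  rw [h2] at h1
  have h3 : 0 ≤ (i : ℝ) * j / b := by positivity
  have hm10 : 0 ≤ m1 := by positivity
  have hm20 : 0 ≤ m2 := by positivity
  have h4 := mul_nonneg hm10 (frac_nonneg j b)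
  have h5 := mul_nonneg hm20 (frac_nonneg i b)
  linarith

lemma num_mid {m l b : ℝ} (hl : 1 ≤ l) (hlm : l + 1 ≤ m) (hs : 32 ≤ m + l) (hb : 5 * m < 3 * b)
    (hr : m - l ≤ 0.345 * (m + l)) :
    (3.8 * (m + l) + 37.35) * (0.70711 * ((m - l) / 2
      * (1 / ((b - m) * l / (b - l)) + 1 / ((b - m) * l / (b - l) + (m - l) - 1))))
      ≤ 13.73 * (m - l) := by
  obtain ⟨s, hs'⟩ : ∃ s, s = m + l := ⟨_, rfl⟩
  obtain ⟨r, hr'⟩ : ∃ r, r = m - l := ⟨_, rfl⟩
  have hs0 : 0 < s := by linarith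
  have hr0 : 1 ≤ r := by linarith
  obtain ⟨L, hL⟩ : ∃ L, L = (b - m) * l / (b - l) := ⟨_, rfl⟩
  rw [← hs', ← hr', ← hL]
  rw [← hs', ← hr'] at hr
  rw [← hs'] at hs
  have h1 : s ^ 2 - r ^ 2 ≤ L * (2 * (s + 4 * r)) := by
    have hbl : 0 < b - l := by linarith
    rw [hL, div_mul_eq_mul_div, le_div_iff₀ hbl, hs', hr']
    have : 0 ≤ l * (m - l) * (3 * b - 5 * m) := mul_nonneg (mul_nonneg (by linarith) (by linarith)) (by linarith)
    nlinarith only [this]
  have hq : 0 < 2 * (s + 4 * r) := by linarith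
  have hL0 : 0 < L := by
    by_contra hc
    push Not at hc
    nlinarith only [h1, mul_nonneg (neg_nonneg.2 hc) hq.le, hr, hr0, hs]
  have h2 : 1 / L ≤ (2 * s + 9.9 * r) / s ^ 2 := by
    rw [div_le_div_iff₀ hL0 (by positivity)]
    refine le_of_mul_le_mul_right ?_ hq
    have a1 := mul_le_mul_of_nonneg_left h1 (by linarith : 0 ≤ 2 * s + 9.9 * r)
    have a2 : 0 ≤ 1.9 * s ^ 2 - 2 * r * s - 9.9 * r ^ 2 := by nlinarith only [hr, hr0, hs]
    nlinarith only [a1, mul_nonneg (by linarith : 0 ≤ r) a2]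
  have h3 : 5 / 12 * s ≤ L + r - 1 := by
    refine le_of_mul_le_mul_right ?_ hq
    have a1 : 1 * (2 * (s + 4 * r)) ≤ s / 32 * (2 * (s + 4 * r)) :=
      mul_le_mul_of_nonneg_right (by linarith) hq.le
    linarith only [h1, a1, sq_nonneg (r - 19 / 168 * s), sq_nonneg s]
  have h4 : 1 / (L + r - 1) ≤ 2.4 * s / s ^ 2 := by
    refine (one_div_le_one_div_of_le (by positivity) h3).trans (le_of_eq ?_)
    field_simp; norm_num
  have h5 : 1 / L + 1 / (L + r - 1) ≤ 7.8155 / s := by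
    have : (2 * s + 9.9 * r) / s ^ 2 + 2.4 * s / s ^ 2 ≤ 7.8155 / s := by
      rw [← add_div, div_le_div_iff₀ (by positivity) hs0]
      nlinarith only [mul_le_mul_of_nonneg_right hr hs0.le]
    linarith
  have h6 : 3.8 * s + 37.35 ≤ 4.9672 * s := by linarith
  calc _ ≤ (4.9672 * s) * (0.70711 * (r / 2 * (7.8155 / s))) := by
        have h7 : 0 < L + r - 1 := by linarith
        gcongr
    _ = (4.9672 * 0.70711 * 7.8155 / 2) * r := by field_simp
    _ ≤ _ := mul_le_mul_of_nonneg_right (by norm_num) (by linarith)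

lemma T0_mid {b i j : ℕ} (hi : 1 ≤ i) (hj : 1 ≤ j) (hij : i ≠ j) (hs : 32 ≤ i + j)
    (hib : 5 * i < 3 * b) (hjb : 5 * j < 3 * b) {F : ℕ → ℕ → ℝ} (hanti : ∀ u w, F u w = - F w u)
    (hF : ∀ u w, 1 ≤ u → u ≤ b → 1 ≤ w → w ≤ b → 32 ≤ u + w → |F u w| ≤ Phi u w) :
    T0 b F i j + (0.2012 * ((i : ℝ) + j) + 12.83) ≤ Phi i j := by
  have hs' : (32 : ℝ) ≤ i + j := by exact_mod_cast hs
  by_cases hr : 0.345 * ((i : ℝ) + j) ≤ |(i : ℝ) - j|
  · have := T0_trivial (b := b) (i := i) (j := j) (by omega) (by omega) (by omega) (F := F)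
      fun u w h1 h2 h3 h4 => (le_abs_self _).trans (hF u w (by omega) h2 (by omega) h4 (by omega))
    unfold Phi; linarith
  · push Not at hr
    have key : ∀ (m l : ℕ) (G : ℕ → ℕ → ℝ), 1 ≤ l → l < m → 32 ≤ m + l → 5 * m < 3 * b →
        (m : ℝ) - l ≤ 0.345 * ((m : ℝ) + l) → (∀ u w, G u w = - G w u) →
        (∀ u w, 1 ≤ u → u ≤ b → 1 ≤ w → w ≤ b → 32 ≤ u + w → |G u w| ≤ Phi u w) →
        T0 b G m l ≤ 13.73 * ((m : ℝ) - l) := by
      intro m l G h1 h2 h3 h4 h5 h6 h7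
      exact (T0_path h1 h2 (by omega) h6 fun u w a1 a2 a3 a4 =>
        h7 u w (by omega) a2 (by omega) a4 (by omega)).trans
        (num_mid (by exact_mod_cast h1) (by exact_mod_cast h2) (by exact_mod_cast h3)
          (by exact_mod_cast h4) h5)
    rcases lt_or_gt_of_ne hij with h | h
    · have h' : (i : ℝ) < j := by exact_mod_cast h
      have e : |(i : ℝ) - j| = j - i := by rw [abs_of_neg (by linarith)]; ring
      have := key j i (fun u w => F w u) hi h (by omega) hjb (by linarith) (fun u w => hanti w u)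
        fun u w a1 a2 a3 a4 a5 => by rw [Phi_comm]; exact hF w u a3 a4 a1 a2 (by omega)
      rw [← T0_swap] at this
      unfold Phi; linarith
    · have h' : (j : ℝ) < i := by exact_mod_cast h
      have e : |(i : ℝ) - j| = i - j := abs_of_pos (by linarith)
      have := key i j F hj h hs hib (by linarith) hanti hF
      unfold Phi; linarith

lemma stepOK_mid {b i j : ℕ} {ψ : ℕ → ℕ → ℝ} (hψ : ∀ u w, 32 ≤ u + w → ψ u w = Phi u w)
    (hi : 1 ≤ i) (hj : 1 ≤ j) (hij : i ≠ j) (hs : 32 ≤ i + j)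
    (hib : 5 * i < 3 * b) (hjb : 5 * j < 3 * b) : StepOK b ψ i j := by
  have hi' : (1 : ℝ) ≤ i := by exact_mod_cast hi
  have hj' : (1 : ℝ) ≤ j := by exact_mod_cast hj
  have hib' : 5 * (i : ℝ) < 3 * b := by exact_mod_cast hib
  have hjb' : 5 * (j : ℝ) < 3 * b := by exact_mod_cast hjb
  have hb : (0 : ℝ) < b := by linarith
  have hq : 0 < √(i : ℝ) := Real.sqrt_pos.2 (by linarith)
  have hq2 : √(i : ℝ) ^ 2 = i := Real.sq_sqrt (by linarith)
  have hc : c2 (b - j - 1) ≤ 0.1937 := by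
    refine (c2_anti (m := 10) (by norm_num) (by omega)).trans ?_
    unfold c2; norm_num
  have hc0 : 0 ≤ c2 (b - j - 1) := by
    unfold c2
    have : (1 : ℝ) ≤ ((b - j - 1 : ℕ) : ℝ) := by exact_mod_cast (by omega : 1 ≤ b - j - 1)
    exact mul_nonneg (by norm_num) (div_nonneg (by linarith) (by linarith))
  have x1 : 0.4 ≤ 1 - (i : ℝ) / b := by
    have : (i : ℝ) / b ≤ 0.6 := by rw [div_le_iff₀ hb]; linarith
    linarith
  have x2 : 0.4 ≤ 1 - ((j : ℝ) - 1) / b := by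
    have : ((j : ℝ) - 1) / b ≤ 0.6 := by rw [div_le_iff₀ hb]; linarith
    linarith
  refine ⟨by omega, by omega, 1.11 / √(i : ℝ), 0.7 / √(i : ℝ), by positivity, by positivity, ?_, ?_, ?_⟩
  · have e : (1.11 / √(i : ℝ)) ^ 2 * (i * (1 - ((j : ℝ) - 1) / b) * (1 - (i : ℝ) / b))
        = 1.11 ^ 2 * ((1 - ((j : ℝ) - 1) / b) * (1 - (i : ℝ) / b)) := by
      rw [div_pow, hq2]; field_simp
    rw [e]
    have := mul_le_mul x2 x1 (by norm_num) (by linarith)
    linarith
  · have e : (0.7 / √(i : ℝ)) ^ 2 * (i * (1 - (i : ℝ) / b)) = 0.7 ^ 2 * (1 - (i : ℝ) / b) := by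
      rw [div_pow, hq2]; field_simp
    rw [e]
    have := mul_nonneg hc0 (frac_nonneg j b)
    linarith
  · intro F hanti hF
    have h1 := T0_mid hi hj hij hs hib hjb hanti (by
      intro u w a1 a2 a3 a4 a5
      rcases eq_or_ne u w with rfl | huw
      · have : F u u = 0 := by linarith [hanti u u]
        rw [this, abs_zero]; unfold Phi; positivity
      · rw [abs_le]
        have b1 := hF u w a1 a2 a3 a4 huw
        have b2 := hF w u a3 a4 a1 a2 huw.symm
        rw [hψ _ _ a5] at b1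
        rw [hψ _ _ (by omega), Phi_comm] at b2
        exact ⟨by linarith [hanti u w], b1⟩)
    have hl : lin b i j ≤ 8.75 := by
      unfold lin
      have a1 : (b : ℝ) ^ 2 / (((b : ℝ) - j + 1) * ((b : ℝ) - i)) ≤ 6.25 := by
        rw [div_le_iff₀ (mul_pos (by linarith) (by linarith))]
        have := mul_le_mul (by linarith : 0.4 * (b : ℝ) ≤ b - j + 1) (by linarith : 0.4 * (b : ℝ) ≤ b - i)
          (by positivity) (by linarith)
        linarith
      have a2 : (b : ℝ) / ((b : ℝ) - i) ≤ 2.5 := by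
        rw [div_le_iff₀ (by linarith)]; linarith
      linarith
    have h2 : HB b i j (1.11 / √(i : ℝ)) (0.7 / √(i : ℝ))
        ≤ i * (1.11 / √(i : ℝ) + 0.7 / √(i : ℝ) + 8.75 / i) := by
      refine mul_le_mul_of_nonneg_left (EE_le_const (frac_nonneg _ _) (frac_le_one (by omega))
        fun x _ => ?_) (by positivity)
      have a0 : (i : ℝ) ≤ ((i + x : ℕ) : ℝ) := by exact_mod_cast Nat.le_add_right i x
      have a1 := mul_le_of_le_one_left (by positivity : 0 ≤ 1.11 / √(i : ℝ))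
        (phiU_le_one (l := 3 / 2 * ((i + x : ℕ) : ℝ)) (by linarith))
      have a2 := mul_le_of_le_one_left (by positivity : 0 ≤ 0.7 / √(i : ℝ))
        (phiU_le_one (l := ((i + x : ℕ) : ℝ)) (by linarith))
      have a3 : lin b i j / ((i + x : ℕ) : ℝ) ≤ 8.75 / i :=
        div_le_div₀ (by norm_num) hl (by linarith) a0
      linarith
    have e : (i : ℝ) * (1.11 / √(i : ℝ) + 0.7 / √(i : ℝ) + 8.75 / i) = 1.81 * √(i : ℝ) + 8.75 := by
      have : (i : ℝ) / √(i : ℝ) = √(i : ℝ) := Real.div_sqrt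
      calc _ = 1.81 * ((i : ℝ) / √(i : ℝ)) + 8.75 := by field_simp; ring
        _ = _ := by rw [this]
    have h3 : √(i : ℝ) ≤ i / 9 + 2.25 := by nlinarith only [hq2, sq_nonneg (√(i : ℝ) - 4.5)]
    rw [hψ i j hs]
    linarith

/-- the condition on the table of a given `b` -/
def TabOK (b : ℕ) (ψ : ℕ → ℕ → ℝ) : Prop :=
  (∀ u w, 32 ≤ u + w → ψ u w = Phi u w) ∧
  ∀ i j, 1 ≤ i → i ≤ b → 1 ≤ j → j ≤ b → i ≠ j → i + j < 32 →
    0 < ψ i j ∧ ((b : ℝ) * (b + |(i : ℝ) - j|) ≤ ψ i j * (max i j : ℕ) ∨ StepOK b ψ i j)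

theorem M_le {a b : ℕ} (hb : 1 ≤ b) (hba : b < a) (hab : 2 * a ≤ 3 * b) {ψ : ℕ → ℕ → ℝ}
    (hψ : TabOK b ψ) {i j : ℕ} (hi : 1 ≤ i) (hib : i ≤ b) (hj : 1 ≤ j) (hjb : j ≤ b) (hij : i ≠ j) :
    MM a b i j ≤ ((a : ℝ) - b) / b * ψ i j := by
  classical
  have hb' : (0 : ℝ) < b := by exact_mod_cast hb
  have hba' : (b : ℝ) < a := by exact_mod_cast hba
  obtain ⟨ε, hε⟩ : ∃ ε, ε = ((a : ℝ) - b) / b := ⟨_, rfl⟩
  have hε0 : 0 < ε := by rw [hε]; exact div_pos (by linarith) hb'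
  rw [← hε]
  have all : ∀ i j, 1 ≤ i → i ≤ b → 1 ≤ j → j ≤ b → i ≠ j →
      0 < ψ i j ∧ ((b : ℝ) * (b + |(i : ℝ) - j|) ≤ ψ i j * (max i j : ℕ) ∨ StepOK b ψ i j) := by
    intro i j hi hib hj hjb hij
    rcases lt_or_ge (i + j) 32 with hs | hs
    · exact hψ.2 i j hi hib hj hjb hij hs
    have hs' : (32 : ℝ) ≤ i + j := by exact_mod_cast hs
    refine ⟨by rw [hψ.1 i j hs]; unfold Phi; have := abs_nonneg ((i : ℝ) - j); linarith, ?_⟩
    by_cases hm : 5 * max i j < 3 * b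
    · exact Or.inr (stepOK_mid hψ.1 hi hj hij hs (by omega) (by omega))
    · left
      rw [hψ.1 i j hs]
      have h1 : 3 * (b : ℝ) ≤ 5 * (max i j : ℕ) := by exact_mod_cast (by omega : 3 * b ≤ 5 * max i j)
      have h2 : (i : ℝ) + j = 2 * (max i j : ℕ) - |(i : ℝ) - j| := by
        rcases le_total i j with h | h
        · have h' : (i : ℝ) ≤ j := by exact_mod_cast h
          rw [max_eq_right h, abs_of_nonpos (by linarith)]; ring
        · have h' : (j : ℝ) ≤ i := by exact_mod_cast h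
          rw [max_eq_left h, abs_of_nonneg (by linarith)]; ring
      unfold Phi
      rw [h2]
      have h3 := abs_nonneg ((i : ℝ) - j)
      generalize |(i : ℝ) - j| = r at *
      generalize ((max i j : ℕ) : ℝ) = m at *
      nlinarith only [h1, h3, hb', mul_le_mul_of_nonneg_right h1 h3,
        mul_le_mul h1 h1 (by positivity) (by linarith)]
  by_contra hc
  push Not at hc
  set S := (range (b + 1) ×ˢ range (b + 1)).filter fun p => 1 ≤ p.1 ∧ 1 ≤ p.2 ∧ p.1 ≠ p.2 with hS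
  have hmem : ∀ u w, 1 ≤ u → u ≤ b → 1 ≤ w → w ≤ b → u ≠ w → (u, w) ∈ S := fun u w _ _ _ _ _ => by
    simp only [hS, mem_filter, mem_product, mem_range]; omega
  obtain ⟨⟨u, w⟩, hp, hmax⟩ := exists_max_image S (fun p => MM a b p.1 p.2 / (ε * ψ p.1 p.2))
    ⟨_, hmem i j hi hib hj hjb hij⟩
  have hp' : 1 ≤ u ∧ u ≤ b ∧ 1 ≤ w ∧ w ≤ b ∧ u ≠ w := by
    simp only [hS, mem_filter, mem_product, mem_range] at hp; omega
  obtain ⟨hu, hub, hw, hwb, huw⟩ := hp'
  obtain ⟨hpos, hcase⟩ := all u w hu hub hw hwb huw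
  obtain ⟨Z, hZ⟩ : ∃ Z, Z = MM a b u w / (ε * ψ u w) := ⟨_, rfl⟩
  simp only [← hZ] at hmax
  have hZ1 : 1 < Z := lt_of_lt_of_le
    ((one_lt_div (mul_pos hε0 (all i j hi hib hj hjb hij).1)).2 hc) (hmax _ (hmem i j hi hib hj hjb hij))
  have hM : MM a b u w = Z * (ε * ψ u w) := by rw [hZ]; field_simp
  rcases hcase with h | ⟨h1, h2, PA, PB, hA0, hB0, hA, hB, h⟩
  · have h1 := M_crude (by omega) hb hba hu hw hub hwb
    have hm : (0 : ℝ) < (max u w : ℕ) := by exact_mod_cast (by omega : 0 < max u w)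
    have h2 := mul_le_mul_of_nonneg_left h hε0.le
    have e : ε * ((b : ℝ) * (b + |(u : ℝ) - w|)) = ((a : ℝ) - b) * (b + |(u : ℝ) - w|) := by
      rw [hε]; field_simp
    change MM a b u w * _ ≤ _ at h1
    rw [hM] at h1
    have := mul_pos (mul_pos (mul_pos hε0 hpos) hm) (sub_pos.2 hZ1)
    nlinarith only [h1, h2, e, this]
  · have h3 := M_rec hb hba hab hu hw h1 h2 hA0 hB0 hA hB
    have hZε : 0 < Z * ε := by positivity
    have h4 := h (fun x y => (1 / (Z * ε)) * MM a b x y) (fun x y => by unfold MM; ring) (by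
      intro x y a1 a2 a3 a4 a5
      have := hmax _ (hmem x y a1 a2 a3 a4 a5)
      rw [div_le_iff₀ (mul_pos hε0 (all x y a1 a2 a3 a4 a5).1)] at this
      rw [one_div, inv_mul_le_iff₀ hZε]; linarith)
    have e : T0 b (fun x y => (1 / (Z * ε)) * MM a b x y) u w = (1 / (Z * ε)) * T0 b (MM a b) u w := by
      simp only [T0, EE_mul]
    rw [e] at h4
    have h5 := mul_le_mul_of_nonneg_left h4 hZε.le
    rw [mul_add, ← mul_assoc, mul_one_div_cancel hZε.ne', one_mul] at h5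
    have h6 := HB_pos hu h1 hwb hA0 hB0
    rw [← hε] at h3
    change _ ≤ _ + ε * HB b u w PA PB at h3
    have := mul_pos (mul_pos hε0 h6) (sub_pos.2 hZ1)
    nlinarith only [h3, h5, hM, this]

end Pool.Agent.MP_79e3be_pr

end MrgPart0

-- ======== part 1: formerly Pool.Agent.MP_79e3be_pr.Ratio
section MrgPart1

/-! Cancellation for antisymmetric functions, truncation and tail bounds. -/

set_option autoImplicit false

open Finset Real

namespace Pool.Agent.MP_79e3be_pr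

/-- law of `i + Bin (b - i, j / b)` -/
noncomputable def mu (b i j u : ℕ) : ℝ := if i ≤ u then bb (b - i) ((j : ℝ) / b) (u - i) else 0

lemma mu_nonneg {b j : ℕ} (hj : j ≤ b) (i u : ℕ) : 0 ≤ mu b i j u := by
  unfold mu
  split_ifs
  · exact bb_nonneg (frac_nonneg _ _) (frac_le_one hj) _ _
  · exact le_rfl

lemma EE_mu {b i : ℕ} (hi : i ≤ b) (j : ℕ) (f : ℕ → ℝ) :
    EE (b - i) ((j : ℝ) / b) (fun x => f (i + x)) = ∑ u ∈ range (b + 1), mu b i j u * f u := by
  rw [(by omega : b + 1 = i + (b - i + 1)), sum_range_add, sum_eq_zero, zero_add]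
  · refine sum_congr rfl fun x _ => ?_
    rw [mu, if_pos (Nat.le_add_right i x), Nat.add_sub_cancel_left]
  · intro u hu
    rw [mem_range] at hu
    rw [mu, if_neg (by omega), zero_mul]

lemma T0_mu {b i j : ℕ} (hi : i ≤ b) (hj : j ≤ b) (F : ℕ → ℕ → ℝ) :
    T0 b F i j = ∑ u ∈ range (b + 1), ∑ w ∈ range (b + 1), mu b i j u * mu b j i w * F u w := by
  unfold T0
  rw [EE_mu hi j (fun u => EE (b - j) ((i : ℝ) / b) fun y => F u (j + y))]
  refine sum_congr rfl fun u _ => ?_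
  rw [EE_mu hj i (fun w => F u w), mul_sum]
  exact sum_congr rfl fun w _ => by ring

lemma T0_plus {b i j : ℕ} (hi : i ≤ b) (hj : j ≤ b) {F Ψ c : ℕ → ℕ → ℝ}
    (hanti : ∀ u w, F u w = - F w u)
    (h : ∀ u w, i ≤ u → u ≤ b → j ≤ w → w ≤ b → F u w ≤ Ψ u w ∧ 0 ≤ Ψ u w ∧ 0 ≤ c u w ∧
      (1 - c u w) * (mu b i j u * mu b j i w) ≤ mu b i j w * mu b j i u) :
    T0 b F i j ≤ T0 b (fun u w => c u w * Ψ u w) i j := by
  set m : ℕ → ℕ → ℝ := fun u w => min (mu b i j u * mu b j i w) (mu b i j w * mu b j i u) with hm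
  have h0 : ∑ u ∈ range (b + 1), ∑ w ∈ range (b + 1), m u w * F u w = 0 := by
    have : ∑ u ∈ range (b + 1), ∑ w ∈ range (b + 1), m u w * F u w
        = - ∑ u ∈ range (b + 1), ∑ w ∈ range (b + 1), m u w * F u w := by
      conv_lhs => rw [sum_comm]
      rw [← sum_neg_distrib]
      refine sum_congr rfl fun u _ => ?_
      rw [← sum_neg_distrib]
      refine sum_congr rfl fun w _ => ?_
      rw [hanti w u]; simp only [hm]; rw [min_comm]; ring
    linarith
  rw [T0_mu hi hj, T0_mu hi hj, ← sub_zero (∑ u ∈ range (b + 1), _), ← h0, ← sum_sub_distrib]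
  refine sum_le_sum fun u hu => ?_
  rw [← sum_sub_distrib]
  refine sum_le_sum fun w hw => ?_
  rw [mem_range] at hu hw
  have hP := mul_nonneg (mu_nonneg hj i u) (mu_nonneg hi j w)
  have hQ := mul_nonneg (mu_nonneg hj i w) (mu_nonneg hi j u)
  by_cases hs : i ≤ u ∧ j ≤ w
  · obtain ⟨h1, h2, h3, h4⟩ := h u w hs.1 (by omega) hs.2 (by omega)
    have a1 : m u w ≤ mu b i j u * mu b j i w := min_le_left _ _
    have a2 : (1 - c u w) * (mu b i j u * mu b j i w) ≤ m u w :=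
      le_min (by nlinarith [mul_nonneg h3 hP]) h4
    have a3 := mul_le_mul_of_nonneg_left h1 (sub_nonneg.2 a1)
    have a4 := mul_le_mul_of_nonneg_right a2 h2
    linarith
  · have a1 : mu b i j u * mu b j i w = 0 := by
      by_cases h1 : i ≤ u
      · rw [mu.eq_1 b j i w, if_neg (by omega), mul_zero]
      · rw [mu.eq_1 b i j u, if_neg h1, zero_mul]
    simp only [hm]
    rw [a1, min_eq_left hQ]; simp

/-- the likelihood ratio up to a constant -/
noncomputable def Hc (i j : ℕ) (c : ℝ) (u : ℕ) : ℝ :=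
  ((u - i).factorial : ℝ) / (u - j).factorial * c ^ u

lemma mu_ratio {b i j : ℕ} (hi0 : 1 ≤ i) (hj0 : 1 ≤ j) (hi : i < b) (hj : j < b) :
    ∃ κ : ℝ, 0 < κ ∧ ∀ u, i ≤ u → j ≤ u → u ≤ b → mu b j i u * κ
      = mu b i j u * Hc i j ((i : ℝ) * ((b : ℝ) - j) / (j * ((b : ℝ) - i))) u := by
  have hb : (0 : ℝ) < b := by exact_mod_cast (by omega : 0 < b)
  have hi' : (i : ℝ) < b := by exact_mod_cast hi
  have hj' : (j : ℝ) < b := by exact_mod_cast hj
  obtain ⟨σ, hσ⟩ : ∃ σ, σ = (j : ℝ) / b := ⟨_, rfl⟩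
  obtain ⟨τ, hτ⟩ : ∃ τ, τ = (i : ℝ) / b := ⟨_, rfl⟩
  have hσ0 : 0 < σ := by rw [hσ]; positivity
  have hτ0 : 0 < τ := by rw [hτ]; positivity
  have hσ1 : 0 < 1 - σ := by rw [hσ, sub_pos, div_lt_one hb]; exact hj'
  have hτ1 : 0 < 1 - τ := by rw [hτ, sub_pos, div_lt_one hb]; exact hi'
  have hc : (i : ℝ) * ((b : ℝ) - j) / (j * ((b : ℝ) - i)) = τ * (1 - σ) / (σ * (1 - τ)) := by
    have : (b : ℝ) - i ≠ 0 := by linarith
    rw [hσ, hτ]; field_simp
  refine ⟨((b - i).factorial : ℝ) / (b - j).factorial * ((1 - σ) ^ b * τ ^ j) / (σ ^ i * (1 - τ) ^ b),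
    by positivity, fun u h1 h2 h3 => ?_⟩
  unfold mu Hc bb
  rw [if_pos h1, if_pos h2, hc, ← hσ, ← hτ, Nat.cast_choose ℝ (by omega : u - j ≤ b - j),
    Nat.cast_choose ℝ (by omega : u - i ≤ b - i), (by omega : b - j - (u - j) = b - u),
    (by omega : b - i - (u - i) = b - u), div_pow, mul_pow, mul_pow]
  have e1 : σ ^ u = σ ^ i * σ ^ (u - i) := by rw [← pow_add]; congr 1; omega
  have e2 : τ ^ u = τ ^ j * τ ^ (u - j) := by rw [← pow_add]; congr 1; omega
  have e3 : (1 - σ) ^ b = (1 - σ) ^ u * (1 - σ) ^ (b - u) := by rw [← pow_add]; congr 1; omega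
  have e4 : (1 - τ) ^ b = (1 - τ) ^ u * (1 - τ) ^ (b - u) := by rw [← pow_add]; congr 1; omega
  rw [e1, e2, e3, e4]
  field_simp

lemma ratio_le {b i j : ℕ} (hi0 : 1 ≤ i) (hj0 : 1 ≤ j) (hi : i < b) (hj : j < b) {c' : ℝ}
    (hc' : 0 < c') {u w : ℕ} (hiu : i ≤ u) (hju : j ≤ u) (hub : u ≤ b) (hiw : i ≤ w) (hjw : j ≤ w)
    (hwb : w ≤ b)
    (h : (w ≤ u ∧ c' ≤ (i : ℝ) * ((b : ℝ) - j) / (j * ((b : ℝ) - i))) ∨
      (u ≤ w ∧ (i : ℝ) * ((b : ℝ) - j) / (j * ((b : ℝ) - i)) ≤ c')) :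
    Hc i j c' u / Hc i j c' w * (mu b i j u * mu b j i w) ≤ mu b i j w * mu b j i u := by
  obtain ⟨κ, hκ, hr⟩ := mu_ratio hi0 hj0 hi hj
  have hc : 0 < (i : ℝ) * ((b : ℝ) - j) / (j * ((b : ℝ) - i)) := by
    have hi' : (i : ℝ) < b := by exact_mod_cast hi
    have hj' : (j : ℝ) < b := by exact_mod_cast hj
    exact div_pos (mul_pos (by exact_mod_cast hi0) (by linarith))
      (mul_pos (by exact_mod_cast hj0) (by linarith))
  generalize (i : ℝ) * ((b : ℝ) - j) / (j * ((b : ℝ) - i)) = c at *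
  have h1 : c' ^ u * c ^ w ≤ c ^ u * c' ^ w := by
    rcases h with ⟨h1, h2⟩ | ⟨h1, h2⟩
    · obtain ⟨e, rfl⟩ := Nat.exists_eq_add_of_le h1
      have := mul_le_mul_of_nonneg_left (pow_le_pow_left₀ hc'.le h2 e) (by positivity : 0 ≤ c' ^ w * c ^ w)
      rw [pow_add, pow_add]; linarith
    · obtain ⟨e, rfl⟩ := Nat.exists_eq_add_of_le h1
      have := mul_le_mul_of_nonneg_left (pow_le_pow_left₀ hc.le h2 e) (by positivity : 0 ≤ c' ^ u * c ^ u)
      rw [pow_add, pow_add]; linarith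
  have h2 : Hc i j c' u / Hc i j c' w * Hc i j c w ≤ Hc i j c u := by
    have e : Hc i j c' u / Hc i j c' w * Hc i j c w
        = ((u - i).factorial : ℝ) / (u - j).factorial * (c' ^ u * c ^ w / c' ^ w) := by
      unfold Hc; field_simp
    rw [e]
    refine mul_le_mul_of_nonneg_left ?_ (by positivity)
    rwa [div_le_iff₀ (by positivity)]
  refine le_of_mul_le_mul_right ?_ hκ
  have a1 := hr u hiu hju hub
  have a2 := hr w hiw hjw hwb
  have a3 := mul_le_mul_of_nonneg_left h2 (mul_nonneg (mu_nonneg hj.le i u) (mu_nonneg hj.le i w))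
  calc _ = Hc i j c' u / Hc i j c' w * mu b i j u * (mu b j i w * κ) := by ring
    _ = mu b i j u * mu b i j w * (Hc i j c' u / Hc i j c' w * Hc i j c w) := by rw [a2]; ring
    _ ≤ _ := a3
    _ = mu b i j w * (mu b j i u * κ) := by rw [a1]; ring
    _ = _ := by ring

lemma EE_trunc {n L : ℕ} {s : ℝ} {P h : ℕ → ℝ} (hP0 : ∀ x ≤ L, 0 ≤ P x)
    (hP : ∀ x ≤ L, bb n s x ≤ P x) (hh : ∀ x ≤ L, 0 ≤ h x) :
    EE n s (fun x => if x ≤ L then h x else 0) ≤ ∑ x ∈ range (L + 1), P x * h x := by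
  unfold EE
  simp only [mul_ite, mul_zero]
  rw [← sum_filter]
  refine le_trans (sum_le_sum fun x hx => mul_le_mul_of_nonneg_right (hP x (mem_filter.1 hx).2)
    (hh x (mem_filter.1 hx).2)) (sum_le_sum_of_subset_of_nonneg (fun x hx => ?_) fun x hx _ => ?_)
  · exact mem_range.2 (Nat.lt_succ_of_le (mem_filter.1 hx).2)
  · have : x ≤ L := Nat.le_of_lt_succ (mem_range.1 hx)
    exact mul_nonneg (hP0 x this) (hh x this)

lemma EE_tail {n : ℕ} {s z lam c : ℝ} (h0 : 0 ≤ s) (hz : 1 ≤ z) (hl : n * s ≤ lam) (hc : 0 ≤ c) :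
    EE n s (fun k => (c + k) * z ^ k) ≤ (c + lam * z) * exp (lam * (z - 1)) := by
  have key : ∀ m : ℕ, m ≤ n → EE m s (fun k => z ^ k) ≤ exp (lam * (z - 1)) := by
    intro m hm
    have hm' : (m : ℝ) ≤ n := by exact_mod_cast hm
    rw [EE_pow]
    have h1 : 0 ≤ s * (z - 1) := mul_nonneg h0 (by linarith)
    refine (pow_le_exp (by linarith) m).trans (exp_le_exp.2 ?_)
    rw [add_sub_cancel_left, ← mul_assoc]
    exact mul_le_mul_of_nonneg_right (le_trans (mul_le_mul_of_nonneg_right hm' h0) hl) (by linarith)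
  have h2 : EE n s (fun k => (k : ℝ) * z ^ k) ≤ lam * z * exp (lam * (z - 1)) := by
    have hl0 : 0 ≤ lam := le_trans (by positivity) hl
    cases n with
    | zero => simp only [EE_zero, CharP.cast_eq_zero, zero_mul]; positivity
    | succ n =>
      rw [← EE_I1 n s (fun k => z ^ k)]
      have e : EE n s (fun k => z ^ (k + 1)) = z * EE n s (fun k => z ^ k) := by
        rw [← EE_mul]; exact EE_congr fun k _ => by ring
      rw [e, ← mul_assoc]
      push_cast at hl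
      refine mul_le_mul (mul_le_mul_of_nonneg_right hl (by linarith)) (key n (by omega)) ?_
        (by positivity)
      rw [EE_pow]
      exact pow_nonneg (by nlinarith) _
  simp only [add_mul, EE_add, EE_mul]
  exact add_le_add (mul_le_mul_of_nonneg_left (key n le_rfl) hc) h2

lemma one_le_tail {z : ℝ} (hz : 1 ≤ z) {x L : ℕ} (h : ¬ x ≤ L) : 1 ≤ z ^ x / z ^ (L + 1) :=
  (one_le_div (by positivity)).2 (pow_le_pow_right₀ hz (by omega))

lemma mean_le {b i : ℕ} (hi : i ≤ b) (j : ℕ) : ((b - i : ℕ) : ℝ) * ((j : ℝ) / b) ≤ j := by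
  rw [← mul_div_assoc, mul_div_right_comm]
  exact mul_le_of_le_one_left (by positivity) (frac_le_one (by omega))

/-- truncation of the reference operator -/
lemma T0_trunc {b i j L1 L2 : ℕ} (hi : i ≤ b) (hj : j ≤ b) {h : ℕ → ℕ → ℝ} {P R : ℕ → ℝ}
    {z1 z2 K : ℝ} (hz1 : 1 ≤ z1) (hz2 : 1 ≤ z2) (hK : 0 ≤ K)
    (hh : ∀ x ≤ b - i, ∀ y ≤ b - j, h (i + x) (j + y) ≤ K * (((i + x : ℕ) : ℝ) + ((j + y : ℕ) : ℝ)))
    (hP0 : ∀ x ≤ L1, 0 ≤ P x) (hP : ∀ x ≤ L1, bb (b - i) ((j : ℝ) / b) x ≤ P x)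
    (hR0 : ∀ x ≤ L1, 0 ≤ R x)
    (hR : ∀ x ≤ L1, EE (b - j) ((i : ℝ) / b) (fun y => if y ≤ L2 then h (i + x) (j + y) else 0) ≤ R x) :
    T0 b h i j ≤ ∑ x ∈ range (L1 + 1), P x * R x
      + K / z1 ^ (L1 + 1) * ((((i : ℝ) + i + j) + j * z1) * exp (j * (z1 - 1)))
      + K / z2 ^ (L2 + 1) * ((((j : ℝ) + j + i) + i * z2) * exp (i * (z2 - 1))) := by
  have p0 := frac_nonneg j b
  have p1 := frac_le_one hj
  have q0 := frac_nonneg i b
  have q1 := frac_le_one hi
  have h1 : T0 b h i j ≤ EE (b - i) ((j : ℝ) / b) fun x =>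
      (if x ≤ L1 then R x else 0)
      + K / z1 ^ (L1 + 1) * ((((i : ℝ) + i + j) + x) * z1 ^ x)
      + K / z2 ^ (L2 + 1) * EE (b - j) ((i : ℝ) / b) (fun y => (((j : ℝ) + i + x) + y) * z2 ^ y) := by
    refine EE_mono p0 p1 fun x hx => ?_
    have b0 : 0 ≤ EE (b - j) ((i : ℝ) / b) (fun y => (((j : ℝ) + i + x) + y) * z2 ^ y) :=
      EE_nonneg q0 q1 fun y _ => by positivity
    by_cases hxL : x ≤ L1
    · rw [if_pos hxL]
      have a1 : EE (b - j) ((i : ℝ) / b) (fun y => h (i + x) (j + y)) ≤ EE (b - j) ((i : ℝ) / b)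
          fun y => (if y ≤ L2 then h (i + x) (j + y) else 0)
            + K / z2 ^ (L2 + 1) * ((((j : ℝ) + i + x) + y) * z2 ^ y) := by
        refine EE_mono q0 q1 fun y hy => ?_
        by_cases hyL : y ≤ L2
        · rw [if_pos hyL]
          exact le_add_of_nonneg_right (by positivity)
        · rw [if_neg hyL, zero_add]
          have := mul_le_mul_of_nonneg_left (one_le_tail hz2 hyL)
            (by positivity : 0 ≤ K * (((j : ℝ) + i + x) + y))
          refine (hh x hx y hy).trans ?_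
          push_cast
          calc _ = K * (((j : ℝ) + i + x) + y) * 1 := by ring
            _ ≤ _ := this
            _ = _ := by ring
      rw [EE_add, EE_mul] at a1
      have a2 := hR x hxL
      have a3 : 0 ≤ K / z1 ^ (L1 + 1) * ((((i : ℝ) + i + j) + x) * z1 ^ x) := by positivity
      linarith
    · rw [if_neg hxL, zero_add]
      have a1 : EE (b - j) ((i : ℝ) / b) (fun y => h (i + x) (j + y)) ≤ EE (b - j) ((i : ℝ) / b)
          fun y => K * ((i : ℝ) + x + j) + K * y :=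
        EE_mono q0 q1 fun y hy => (hh x hx y hy).trans (le_of_eq (by push_cast; ring))
      rw [EE_affine] at a1
      have a2 := mul_le_mul_of_nonneg_left (mean_le hj i) hK
      have a3 := mul_le_mul_of_nonneg_left (one_le_tail hz1 hxL)
        (by positivity : 0 ≤ K * (((i : ℝ) + i + j) + x))
      have e : K / z1 ^ (L1 + 1) * ((((i : ℝ) + i + j) + x) * z1 ^ x)
          = K * (((i : ℝ) + i + j) + x) * (z1 ^ x / z1 ^ (L1 + 1)) := by ring
      have a4 : 0 ≤ K / z2 ^ (L2 + 1)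
          * EE (b - j) ((i : ℝ) / b) (fun y => (((j : ℝ) + i + x) + y) * z2 ^ y) := by positivity
      linarith
  rw [EE_add, EE_add, EE_mul, EE_mul, EE_comm] at h1
  have h2 := EE_trunc hP0 hP hR0
  have h3 := EE_tail p0 hz1 (mean_le hi j) (by positivity : (0 : ℝ) ≤ (i : ℝ) + i + j)
  have h4 : EE (b - j) ((i : ℝ) / b) (fun y => EE (b - i) ((j : ℝ) / b)
      fun x => (((j : ℝ) + i + x) + y) * z2 ^ y)
      ≤ (((j : ℝ) + j + i) + i * z2) * exp (i * (z2 - 1)) := by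
    refine le_trans (EE_mono q0 q1 fun y _ => ?_)
      (EE_tail q0 hz2 (mean_le hj i) (by positivity : (0 : ℝ) ≤ (j : ℝ) + j + i))
    rw [EE_congr (g := fun x => ((j : ℝ) + i + y) * z2 ^ y + z2 ^ y * x) fun x _ => by ring, EE_affine]
    have := mul_le_mul_of_nonneg_left (mean_le hi j) (by positivity : 0 ≤ z2 ^ y)
    linarith
  have h5 := mul_le_mul_of_nonneg_left h3 (by positivity : 0 ≤ K / z1 ^ (L1 + 1))
  have h6 := mul_le_mul_of_nonneg_left h4 (by positivity : 0 ≤ K / z2 ^ (L2 + 1))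
  linarith

/-- truncation for a bounded function -/
lemma EE_trunc' {b i j L : ℕ} (hi : i ≤ b) (hj : j ≤ b) {G P R : ℕ → ℝ} {z g g0 : ℝ} (hz : 1 ≤ z)
    (hg : 0 ≤ g) (hg0 : 0 ≤ g0) (hG : ∀ x, G x ≤ g0) (hP0 : ∀ x ≤ L, 0 ≤ P x)
    (hP : ∀ x ≤ L, bb (b - i) ((j : ℝ) / b) x ≤ P x) (hR0 : ∀ x ≤ L, 0 ≤ R x)
    (hR : ∀ x ≤ L, G x ≤ g + R x) :
    EE (b - i) ((j : ℝ) / b) G ≤ g + ∑ x ∈ range (L + 1), P x * R x
      + g0 / z ^ (L + 1) * exp (j * (z - 1)) := by
  have p0 := frac_nonneg j b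
  have p1 := frac_le_one hj
  have h1 : EE (b - i) ((j : ℝ) / b) G ≤ EE (b - i) ((j : ℝ) / b) fun x =>
      g + (if x ≤ L then R x else 0) + g0 / z ^ (L + 1) * z ^ x := by
    refine EE_mono p0 p1 fun x _ => ?_
    by_cases hx : x ≤ L
    · rw [if_pos hx]
      exact (hR x hx).trans (le_add_of_nonneg_right (by positivity))
    · rw [if_neg hx]
      have := mul_le_mul_of_nonneg_left (one_le_tail hz hx) hg0
      have e : g0 / z ^ (L + 1) * z ^ x = g0 * (z ^ x / z ^ (L + 1)) := by ring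
      linarith [hG x]
  rw [EE_add, EE_add, EE_const, EE_mul, EE_pow] at h1
  have h2 := EE_trunc hP0 hP hR0
  have h3 : (1 + (j : ℝ) / b * (z - 1)) ^ (b - i) ≤ exp (j * (z - 1)) := by
    have h4 : 0 ≤ (j : ℝ) / b * (z - 1) := mul_nonneg p0 (by linarith)
    refine (pow_le_exp (by linarith) _).trans (exp_le_exp.2 ?_)
    rw [add_sub_cancel_left, ← mul_assoc]
    exact mul_le_mul_of_nonneg_right (mean_le hi j) (by linarith)
  have h5 := mul_le_mul_of_nonneg_left h3 (by positivity : 0 ≤ g0 / z ^ (L + 1))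
  linarith

end Pool.Agent.MP_79e3be_pr

end MrgPart1

-- ======== part 2: formerly Pool.Agent.MP_79e3be_pr.Chk
section MrgPart2

/-! Unfolding lemmas for the integer programs. -/

set_option autoImplicit false

open Finset

namespace Pool.Agent.MP_79e3be_pr

lemma frc_eq {α : Type} (n : ℕ) (k : ℕ → α) : frc n k = k n := (rfl)

lemma n_add (a b : ℕ) : Nat.add a b = a + b := (rfl)
lemma n_mul (a b : ℕ) : Nat.mul a b = a * b := (rfl)
lemma n_sub (a b : ℕ) : Nat.sub a b = a - b := (rfl)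
lemma n_div (a b : ℕ) : Nat.div a b = a / b := (rfl)
lemma n_mod (a b : ℕ) : Nat.mod a b = a % b := (rfl)
lemma n_pow (a b : ℕ) : Nat.pow a b = a ^ b := (rfl)
lemma n_succ (a : ℕ) : Nat.succ a = a + 1 := (rfl)

lemma rec_ble {α : Type} (a b : ℕ) (x y : α) :
    Bool.rec (motive := fun _ => α) y x (Nat.ble a b) = if a ≤ b then x else y := by
  by_cases h : a ≤ b
  · rw [if_pos h, Nat.ble_eq_true_of_le h]
  · rw [if_neg h]
    cases hb : Nat.ble a b
    · rfl
    · exact absurd (Nat.le_of_ble_eq_true hb) h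

lemma ifLe_eq {α : Type} (a b : ℕ) (x y : α) : ifLe a b x y = if a ≤ b then x else y :=
  rec_ble a b x y

lemma sumTo_eq (f : ℕ → ℕ) (n : ℕ) : sumTo f n = ∑ k ∈ range n, f k := by
  induction n with
  | zero => rfl
  | succ n ih => rw [sum_range_succ, ← ih]; exact Nat.add_comm _ _

lemma prodTo_eq (f : ℕ → ℕ) (n : ℕ) : prodTo f n = ∏ k ∈ range n, f k := by
  induction n with
  | zero => rfl
  | succ n ih => rw [prod_range_succ, ← ih, mul_comm]; rfl

lemma allTo_spec {f : ℕ → Bool} {n : ℕ} (h : allTo f n = true) : ∀ k < n, f k = true := by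
  induction n with
  | zero => intro k hk; omega
  | succ n ih =>
    intro k hk
    have e : allTo f (n + 1) = Bool.rec (motive := fun _ => Bool) false (allTo f n) (f n) := rfl
    rw [e] at h
    cases hf : f n
    · rw [hf] at h; exact absurd h (by simp)
    · rw [hf] at h
      rcases (by omega : k < n ∨ k = n) with h' | rfl
      · exact ih h k h'
      · exact hf

lemma fct_eq (n : ℕ) : fct n = n.factorial := by
  induction n with
  | zero => rfl
  | succ n ih => rw [Nat.factorial_succ, ← ih]; rfl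

lemma PS_eq (k n : ℕ) : PS k n = ∑ z ∈ range n, z ^ k := sumTo_eq (fun z => z ^ k) n

lemma mkL_eq {α : Type} (j : ℕ) (fp fl fh : ℕ → ℕ) (n : ℕ) (k : L4 → α) :
    mkL j fp fl fh n k = k (ofL j fp fl fh n) := by
  induction n generalizing k with
  | zero => rfl
  | succ n ih => exact ih _

lemma sumL_ofL (g : ℕ → ℕ → ℕ → ℕ → ℕ) (j : ℕ) (fp fl fh : ℕ → ℕ) (n : ℕ) :
    sumL g (ofL j fp fl fh n) = ∑ y ∈ range n, g (j + y) (fp y) (fl (j + y)) (fh (j + y)) := by
  induction n with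
  | zero => rfl
  | succ n ih => rw [sum_range_succ, ← ih]; exact Nat.add_comm _ _

lemma inner_eq (T u ul uh j : ℕ) (fp fl fh : ℕ → ℕ) (n : ℕ) :
    inner u ul uh (Nat.mul 434176 u) (Nat.mul 548864 u) (Nat.sub 32 u) (trow T u) (ofL j fp fl fh n)
      = ∑ y ∈ range n, (if u ≤ j + y then fp y - fp y * uh / fh (j + y)
          else fp y - fp y * ul / fl (j + y)) * psi T u (j + y) := by
  refine (sumL_ofL _ j fp fl fh n).trans (sum_congr rfl fun y _ => ?_)
  simp only [rec_ble, psi, ifLe_eq]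
  split_ifs <;> rfl

end Pool.Agent.MP_79e3be_pr

end MrgPart2

-- ======== part 3: formerly Pool.Agent.MP_79e3be_pr.PmOK
section MrgPart3

/-! Soundness of the integer bound for binomial weights. -/

set_option autoImplicit false

open Finset Real

namespace Pool.Agent.MP_79e3be_pr

lemma one_sub_le_exp_sum {y : ℝ} (h0 : 0 ≤ y) (h1 : y < 1) (N : ℕ) :
    1 - y ≤ exp (-∑ k ∈ range N, y ^ (k + 1) / ((k : ℝ) + 1)) := by
  have h := Real.hasSum_pow_div_log_of_abs_lt_one (x := y) (by rwa [abs_of_nonneg h0])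
  have h2 := sum_le_hasSum (range N) (fun k _ => by positivity) h
  rw [← Real.exp_log (by linarith : 0 < 1 - y)]
  exact exp_le_exp.2 (by linarith)

lemma bb_eq_prod {b i x : ℕ} (hb : 1 ≤ b) (h : i + x ≤ b) (j : ℕ) :
    bb (b - i) ((j : ℝ) / b) x = (j : ℝ) ^ x / x.factorial
      * ((∏ r ∈ range x, (1 - ((i + r : ℕ) : ℝ) * (1 / b))) * (1 - (j : ℝ) * (1 / b)) ^ (b - (i + x))) := by
  have hb' : (0 : ℝ) < b := by exact_mod_cast hb
  have h1 : (((b - i).choose x : ℕ) : ℝ) = (∏ r ∈ range x, ((b : ℝ) - ((i + r : ℕ) : ℝ))) / x.factorial := by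
    rw [eq_div_iff (by positivity), mul_comm]
    have := Nat.descFactorial_eq_factorial_mul_choose (b - i) x
    rw [Nat.descFactorial_eq_prod_range] at this
    have h2 := congrArg (Nat.cast : ℕ → ℝ) this
    push_cast at h2
    rw [← h2]
    refine prod_congr rfl fun r hr => ?_
    rw [mem_range] at hr
    rw [Nat.sub_sub, Nat.cast_sub (by omega)]
  have h3 : ∏ r ∈ range x, (1 - ((i + r : ℕ) : ℝ) * (1 / b))
      = (∏ r ∈ range x, ((b : ℝ) - ((i + r : ℕ) : ℝ))) / (b : ℝ) ^ x := by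
    rw [← card_range x, ← prod_const, card_range, ← prod_div_distrib]
    exact prod_congr rfl fun r _ => by field_simp
  unfold bb
  rw [h1, h3, Nat.sub_sub, mul_one_div, div_pow]
  ring

/-- the coefficients of the exponent -/
noncomputable def ak (N i j u k : ℕ) : ℝ :=
  ((u : ℝ) * (j : ℝ) ^ k + (PS k i : ℕ) - (PS k u : ℕ)) / k
    - (if k < N then (j : ℝ) ^ (k + 1) / ((k : ℝ) + 1) else 0)

lemma bb_le_exp {b i j x : ℕ} (h : i + x ≤ b) (hj : j < b) (N : ℕ) :
    bb (b - i) ((j : ℝ) / b) x ≤ (j : ℝ) ^ x / x.factorial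
      * exp (∑ k ∈ range (N + 1), ak N i j (i + x) k * (1 / (b : ℝ)) ^ k) := by
  have hb : 1 ≤ b := by omega
  have hb' : (0 : ℝ) < b := by exact_mod_cast hb
  rw [bb_eq_prod hb h]
  refine mul_le_mul_of_nonneg_left ?_ (by positivity)
  set t : ℝ := 1 / b with ht
  have ht0 : 0 ≤ t := by positivity
  have hlt : ∀ z : ℕ, z < b → (z : ℝ) * t < 1 := fun z hz => by
    rw [ht, mul_one_div, div_lt_one hb']; exact_mod_cast hz
  have a1 : ∏ r ∈ range x, (1 - ((i + r : ℕ) : ℝ) * t)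
      ≤ ∏ r ∈ range x, exp (-∑ k ∈ range N, (((i + r : ℕ) : ℝ) * t) ^ (k + 1) / ((k : ℝ) + 1)) := by
    refine prod_le_prod (fun r hr => ?_) (fun r hr => ?_)
    · have := hlt (i + r) (by rw [mem_range] at hr; omega); linarith
    · exact one_sub_le_exp_sum (by positivity) (hlt (i + r) (by rw [mem_range] at hr; omega)) N
  have a2 : (1 - (j : ℝ) * t) ^ (b - (i + x))
      ≤ exp (-∑ k ∈ range N, ((j : ℝ) * t) ^ (k + 1) / ((k : ℝ) + 1)) ^ (b - (i + x)) :=
    pow_le_pow_left₀ (by linarith [hlt j hj]) (one_sub_le_exp_sum (by positivity) (hlt j hj) N) _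
  refine (mul_le_mul a1 a2 (pow_nonneg (by linarith [hlt j hj]) _) (by positivity)).trans (le_of_eq ?_)
  rw [← Real.exp_sum, ← Real.exp_nat_mul, ← Real.exp_add]
  congr 1
  simp only [ak, sub_mul, sum_sub_distrib]
  rw [sum_range_succ' (fun k => ((((i + x : ℕ) : ℝ)) * (j : ℝ) ^ k + (PS k i : ℕ) - (PS k (i + x) : ℕ)) / k * t ^ k),
    sum_range_succ (fun k => (if k < N then (j : ℝ) ^ (k + 1) / ((k : ℝ) + 1) else 0) * t ^ k)]
  simp only [lt_irrefl, if_false, zero_mul, add_zero, CharP.cast_eq_zero, div_zero]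
  rw [sum_neg_distrib, sum_comm, mul_neg, mul_sum, ← sum_neg_distrib, ← sum_neg_distrib,
    ← sum_add_distrib, ← sum_sub_distrib]
  refine sum_congr rfl fun k hk => ?_
  rw [if_pos (mem_range.1 hk), PS_eq, PS_eq, sum_range_add, Nat.cast_sub h]
  simp only [mul_pow, mul_div_assoc, ← sum_mul]
  have hbt : (b : ℝ) * t = 1 := by rw [ht]; field_simp
  push_cast
  have e : t ^ k = b * t ^ (k + 1) := by rw [pow_succ, mul_comm (t ^ k), ← mul_assoc, hbt, one_mul]
  rw [e]; ring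

lemma cast_840 {k : ℕ} (hk : k ≤ 8) : ((840 / k : ℕ) : ℝ) = 840 / (k : ℝ) := by
  interval_cases k <;> norm_num

lemma ak_eq {N k : ℕ} (hN : N ≤ 8) (hk : k ≤ N) (i j u : ℕ) :
    840 * ak N i j u k = (posk k i j u : ℝ) - (negk N k j u : ℝ) := by
  have e1 : posk k i j u = 840 / k * (u * j ^ k + PS k i) := rfl
  have e2 : negk N k j u = 840 / k * PS k u + cst N k j := rfl
  have e3 : cst N k j = if N ≤ k then 0 else 840 / (k + 1) * j ^ (k + 1) := ifLe_eq _ _ _ _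
  rw [e1, e2, e3]
  unfold ak
  by_cases h : k < N
  · rw [if_pos h, if_neg (by omega)]
    push_cast [cast_840 (show k ≤ 8 by omega), cast_840 (show k + 1 ≤ 8 by omega)]
    ring
  · rw [if_neg h, if_pos (by omega)]
    push_cast [cast_840 (show k ≤ 8 by omega)]
    ring

lemma cast_sub_sub (p q : ℕ) : (p : ℝ) - q = ((p - q : ℕ) : ℝ) - ((q - p : ℕ) : ℝ) := by
  rcases le_total p q with h | h
  · rw [Nat.sub_eq_zero_of_le h, Nat.cast_sub h]; simp
  · rw [Nat.sub_eq_zero_of_le h, Nat.cast_sub h]; simp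

lemma exponent_le {b b1 n1 d1 N : ℕ} (hN : N ≤ 8) (hb1 : 1 ≤ b1) (hd1 : 1 ≤ d1) (hb : b1 ≤ b)
    (hn : n1 * b ≤ d1) (i j u : ℕ) :
    ∑ k ∈ range (N + 1), ak N i j u k * (1 / (b : ℝ)) ^ k
      ≤ ((POS b1 d1 N i j u : ℝ) - (NEG b1 n1 d1 N i j u : ℝ)) / (DD b1 d1 N : ℕ) := by
  have hb1' : (0 : ℝ) < b1 := by exact_mod_cast hb1
  have hd1' : (0 : ℝ) < d1 := by exact_mod_cast hd1
  have hb' : (b1 : ℝ) ≤ b := by exact_mod_cast hb
  have hn' : (n1 : ℝ) * b ≤ d1 := by exact_mod_cast hn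
  have e1 : POS b1 d1 N i j u
      = ∑ k ∈ range (N + 1), (posk k i j u - negk N k j u) * (b1 ^ (N - k) * d1 ^ N) := sumTo_eq _ _
  have e2 : NEG b1 n1 d1 N i j u = ∑ k ∈ range (N + 1),
      (negk N k j u - posk k i j u) * (n1 ^ k * d1 ^ (N - k) * b1 ^ N) := sumTo_eq _ _
  have e3 : DD b1 d1 N = 840 * (b1 * d1) ^ N := rfl
  rw [e1, e2, e3, Nat.cast_sum, Nat.cast_sum, ← sum_sub_distrib, sum_div]
  refine sum_le_sum fun k hk => ?_
  have hk' : k ≤ N := by rw [mem_range] at hk; omega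
  have h1 := ak_eq hN hk' i j u
  rw [cast_sub_sub] at h1
  generalize posk k i j u - negk N k j u = p at *
  generalize negk N k j u - posk k i j u = q at *
  have t2 : (1 / (b : ℝ)) ^ k ≤ (1 / (b1 : ℝ)) ^ k :=
    pow_le_pow_left₀ (by positivity) (one_div_le_one_div_of_le hb1' hb') k
  have t1 : ((n1 : ℝ) / d1) ^ k ≤ (1 / (b : ℝ)) ^ k := by
    refine pow_le_pow_left₀ (by positivity) ?_ k
    rw [div_le_div_iff₀ hd1' (by linarith)]; linarith
  obtain ⟨e, rfl⟩ := Nat.exists_eq_add_of_le hk'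
  rw [Nat.add_sub_cancel_left]
  have e4 : (((p * (b1 ^ e * d1 ^ (k + e)) : ℕ) : ℝ) - ((q * (n1 ^ k * d1 ^ e * b1 ^ (k + e)) : ℕ) : ℝ))
      / ((840 * (b1 * d1) ^ (k + e) : ℕ) : ℝ)
      = (p * (1 / (b1 : ℝ)) ^ k - q * ((n1 : ℝ) / d1) ^ k) / 840 := by
    push_cast
    rw [mul_pow, pow_add, pow_add, div_pow, div_pow, one_pow]
    field_simp
  rw [e4, le_div_iff₀ (by norm_num)]
  have a1 := mul_le_mul_of_nonneg_left t2 (Nat.cast_nonneg (α := ℝ) p)
  have a2 := mul_le_mul_of_nonneg_left t1 (Nat.cast_nonneg (α := ℝ) q)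
  calc _ = (840 * ak (k + e) i j u k) * (1 / (b : ℝ)) ^ k := by ring
    _ ≤ _ := by rw [h1]; linarith

lemma le_succ_div (A B : ℕ) : (A : ℝ) / B ≤ ((A / B + 1 : ℕ) : ℝ) := by
  rcases Nat.eq_zero_or_pos B with rfl | hB
  · simp
  · have hB' : (0 : ℝ) < B := by exact_mod_cast hB
    rw [div_le_iff₀ hB']
    have := Nat.lt_div_mul_add (a := A) hB
    have h2 : A ≤ (A / B + 1) * B := by nlinarith
    exact_mod_cast h2

lemma pexp_ok (j x yq : ℕ) :
    (j : ℝ) ^ x / x.factorial * exp (-((yq : ℝ) / 65536)) ≤ (pexp j x yq : ℝ) / 2 ^ 40 := by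
  have e1 : pexp j x yq = 159507359494189904748456847233641349120 * j ^ x * 1000000000 ^ (yq / 65536)
      / (fct x * 2718281828 ^ (yq / 65536) * Th (yq % 65536)) + 1 := by
    simp only [pexp, frc_eq, n_mul, n_div, n_mod, n_pow, n_succ]
  have e0 := Nat.div_add_mod yq 65536
  generalize yq / 65536 = n at *
  generalize yq % 65536 = f at *
  have e2 : Th f = ((((f + 327680) * f + 85899345920) * f + 16888498602639360) * f
      + 2213609288845146193920) * f + 145071098353755500964741120 := rfl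
  rw [e1, le_div_iff₀ (by positivity)]
  refine le_trans ?_ (le_succ_div _ _)
  have h1 : ((Th f : ℕ) : ℝ) / 145071098353755500964741120 ≤ exp ((f : ℝ) / 65536) := by
    refine le_trans (le_of_eq ?_) (Real.sum_le_exp_of_nonneg (by positivity) 6)
    rw [e2]
    simp only [sum_range_succ, range_zero, sum_empty, Nat.factorial]
    push_cast; ring
  have h2 : ((2718281828 : ℝ) / 1000000000) ^ n ≤ exp n := by
    rw [← Real.exp_one_pow]
    exact pow_le_pow_left₀ (by norm_num) (by linarith [Real.exp_one_gt_d9]) n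
  have hT : (0 : ℝ) < (Th f : ℕ) := by rw [e2]; positivity
  have h3 : exp (-((yq : ℝ) / 65536))
      ≤ 1 / (((2718281828 : ℝ) / 1000000000) ^ n * (((Th f : ℕ) : ℝ) / 145071098353755500964741120)) := by
    have e3 : (yq : ℝ) / 65536 = n + (f : ℝ) / 65536 := by rw [← e0]; push_cast; ring
    rw [Real.exp_neg, ← one_div, e3, Real.exp_add]
    exact one_div_le_one_div_of_le (by positivity) (mul_le_mul h2 h1 (by positivity) (exp_pos _).le)
  refine (mul_le_mul_of_nonneg_right (mul_le_mul_of_nonneg_left h3 (by positivity))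
    (by positivity)).trans (le_of_eq ?_)
  rw [fct_eq, div_pow]
  push_cast
  field_simp
  ring

lemma pm_ok {b b1 n1 d1 N : ℕ} (hN : N ≤ 8) (hb1 : 1 ≤ b1) (hd1 : 1 ≤ d1) (hb : b1 ≤ b)
    (hn : n1 * b ≤ d1) {i j : ℕ} (hi : i ≤ b) (hj : j < b) (x : ℕ) :
    bb (b - i) ((j : ℝ) / b) x ≤ (pm b1 n1 d1 N i j x : ℝ) / 2 ^ 40 := by
  rcases lt_or_ge b (i + x) with h | h
  · rw [bb_eq_zero (by omega)]; positivity
  have hle : bb (b - i) ((j : ℝ) / b) x ≤ ((1099511627776 : ℕ) : ℝ) / 2 ^ 40 := by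
    refine (bb_le_one (by positivity) ?_ _ _).trans (by norm_num)
    exact div_le_one_of_le₀ (by exact_mod_cast hj.le) (by positivity)
  simp only [pm, frc_eq, ifLe_eq, n_add, n_mul, n_sub, n_div]
  rw [if_pos (by nlinarith)]
  split_ifs with h1 h2
  · refine (bb_le_exp h hj N).trans (le_trans ?_ (pexp_ok j x _))
    refine mul_le_mul_of_nonneg_left (exp_le_exp.2 ?_) (by positivity)
    refine (exponent_le hN hb1 hd1 hb hn i j (i + x)).trans ?_
    have h3 := Nat.cast_div_le (α := ℝ)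
      (m := (NEG b1 n1 d1 N i j (i + x) - POS b1 d1 N i j (i + x)) * 65536) (n := DD b1 d1 N)
    rw [Nat.cast_mul, Nat.cast_sub h1] at h3
    have h4 := div_le_div_of_nonneg_right h3 (by norm_num : (0 : ℝ) ≤ 65536)
    refine le_trans (le_of_eq ?_) (neg_le_neg h4)
    push_cast; ring
  · exact hle
  · exact hle

end Pool.Agent.MP_79e3be_pr

end MrgPart3

-- ======== part 4: formerly Pool.Agent.MP_79e3be_pr.Tab
section MrgPart4

/-! Soundness of the table check. -/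

set_option autoImplicit false

open Finset Real

namespace Pool.Agent.MP_79e3be_pr

/-- the majorant read from a table -/
noncomputable def psiR (T u w : ℕ) : ℝ := (psi T u w : ℝ) / 40960

lemma sub_le_cast (p q : ℕ) : (p : ℝ) - q ≤ ((p - q : ℕ) : ℝ) := by
  rw [cast_sub_sub]; linarith [Nat.cast_nonneg (α := ℝ) (q - p)]

lemma psiR_nonneg (T u w : ℕ) : 0 ≤ psiR T u w := by unfold psiR; positivity

lemma psiR_Phi (T : ℕ) {u w : ℕ} (h : 32 ≤ u + w) : psiR T u w = Phi u w := by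
  simp only [psiR, psi, ifLe_eq, n_sub, n_mul, Phi]
  rw [if_pos (by omega)]
  split_ifs with h1
  · have h1' : (u : ℝ) ≤ w := by exact_mod_cast h1
    rw [Nat.cast_sub (by omega), abs_of_nonpos (by linarith)]; push_cast; ring
  · have h1' : (w : ℝ) ≤ u := by exact_mod_cast (by omega : w ≤ u)
    rw [Nat.cast_sub (by omega), abs_of_nonneg (by linarith)]; push_cast; ring

lemma Phi_le (u w : ℕ) : Phi u w ≤ 13.4 * ((u : ℝ) + w) := by
  unfold Phi
  have h1 : (0 : ℝ) ≤ u := by positivity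
  have h2 : (0 : ℝ) ≤ w := by positivity
  have : |(u : ℝ) - w| ≤ u + w := abs_le.2 ⟨by linarith, by linarith⟩
  linarith

lemma phB_ok {v : ℕ} (hv : 1 ≤ v) : phiU v ≤ (phB v : ℝ) / 2 ^ 20 := by
  have hv' : (0 : ℝ) < v := by exact_mod_cast hv
  simp only [phB, n_add, n_mul, n_sub, n_div, n_succ]
  have h1 := sub_le_cast 1048576 (1048576 / v)
  have h2 := Nat.cast_div_le (α := ℝ) (m := 1048576) (n := v)
  have h3 := le_succ_div 125829120 (((((v + 5) * v + 20) * v + 60) * v + 120) * v)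
  have e : phiU v = (1048576 - ((1048576 : ℕ) : ℝ) / v + ((125829120 : ℕ) : ℝ)
      / ((((((v + 5) * v + 20) * v + 60) * v + 120) * v : ℕ) : ℝ)) / 2 ^ 20 := by
    unfold phiU; push_cast; field_simp; ring
  rw [e]
  refine div_le_div_of_nonneg_right ?_ (by positivity)
  rw [add_assoc, Nat.cast_add]
  simp only [Nat.cast_ofNat] at *
  linarith

lemma phA_ok {u : ℕ} (hu : 1 ≤ u) : phiU (3 / 2 * u) ≤ (phA u : ℝ) / 2 ^ 20 := by
  have hu' : (0 : ℝ) < u := by exact_mod_cast hu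
  simp only [phA, frc_eq, n_add, n_mul, n_sub, n_div, n_succ]
  have h1 := sub_le_cast 1048576 (2097152 / (3 * u))
  have h2 := Nat.cast_div_le (α := ℝ) (m := 2097152) (n := 3 * u)
  have h3 := le_succ_div 4026531840
    (((((3 * u + 10) * (3 * u) + 80) * (3 * u) + 480) * (3 * u) + 1920) * (3 * u))
  have e : phiU (3 / 2 * u) = (1048576 - ((2097152 : ℕ) : ℝ) / ((3 * u : ℕ) : ℝ) + ((4026531840 : ℕ) : ℝ)
      / ((((((3 * u + 10) * (3 * u) + 80) * (3 * u) + 480) * (3 * u) + 1920) * (3 * u) : ℕ) : ℝ)) / 2 ^ 20 := by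
    unfold phiU; push_cast; field_simp; ring
  rw [e]
  refine div_le_div_of_nonneg_right ?_ (by positivity)
  rw [add_assoc, Nat.cast_add]
  simp only [Nat.cast_ofNat] at *
  linarith

lemma zf_ge (j : ℕ) : 1 ≤ zf j := by simp only [zf, n_add]; omega

lemma pt_ok (j L : ℕ) :
    exp (j * ((zf j : ℝ) - 1)) / (zf j : ℝ) ^ (L + 1) ≤ (pt j L : ℝ) / 2 ^ 40 := by
  simp only [pt, frc_eq, n_mul, n_sub, n_div, n_succ, n_pow]
  have hz := zf_ge j
  generalize zf j = z at *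
  have hz' : (0 : ℝ) < z := by exact_mod_cast hz
  rw [le_div_iff₀ (by positivity)]
  refine le_trans ?_ (le_succ_div _ _)
  have e : (j : ℝ) * ((z : ℝ) - 1) = ((j * (z - 1) : ℕ) : ℝ) := by
    rw [Nat.cast_mul, Nat.cast_sub hz]; simp
  rw [e, ← Real.exp_one_pow]
  generalize j * (z - 1) = n
  have h1 : exp 1 ^ n ≤ ((272 : ℝ) / 100) ^ n :=
    pow_le_pow_left₀ (exp_pos 1).le (by linarith [Real.exp_one_lt_d9]) n
  refine (mul_le_mul_of_nonneg_right (div_le_div_of_nonneg_right h1 (by positivity))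
    (by positivity)).trans (le_of_eq ?_)
  rw [div_pow]; push_cast; field_simp; ring

lemma hfun_lt {i j m U cn cd u : ℕ} (h : u < m) : hfun i j m U cn cd u = 0 := by
  simp only [hfun, ifLe_eq]; rw [if_neg (by omega)]

lemma hfun_eq {i j m U cn cd u : ℕ} (h : m ≤ u) (hU : u ≤ U) (hcd : 0 < cd) :
    (hfun i j m U cn cd u : ℝ) = ((U - j).factorial * (cd : ℝ) ^ U) * Hc i j ((cn : ℝ) / cd) u := by
  simp only [hfun, ifLe_eq, n_mul, n_sub, n_div, n_pow, fct_eq]
  rw [if_pos h, Nat.cast_mul, Nat.cast_mul, Nat.cast_div (Nat.factorial_dvd_factorial (by omega))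
    (by positivity)]
  have hcd' : (0 : ℝ) < cd := by exact_mod_cast hcd
  have e : (cd : ℝ) ^ U = (cd : ℝ) ^ u * (cd : ℝ) ^ (U - u) := by rw [← pow_add]; congr 1; omega
  unfold Hc
  rw [e, div_pow]; push_cast; field_simp

lemma hfun_ratio {b i j U cn cd u w : ℕ} (hi0 : 1 ≤ i) (hj0 : 1 ≤ j) (hi : i < b) (hj : j < b)
    (hcn : 0 < cn) (hcd : 0 < cd) (hub : u ≤ b) (hwb : w ≤ b) (huU : u ≤ U) (hwU : w ≤ U)
    (h : (w ≤ u ∧ (cn : ℝ) / cd ≤ (i : ℝ) * ((b : ℝ) - j) / (j * ((b : ℝ) - i))) ∨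
      (u ≤ w ∧ (i : ℝ) * ((b : ℝ) - j) / (j * ((b : ℝ) - i)) ≤ (cn : ℝ) / cd)) :
    (hfun i j (max i j) U cn cd u : ℝ) / (hfun i j (max i j) U cn cd w : ℝ)
      * (mu b i j u * mu b j i w) ≤ mu b i j w * mu b j i u := by
  have hQ := mul_nonneg (mu_nonneg hj.le i w) (mu_nonneg hi.le j u)
  rcases lt_or_ge u (max i j) with h1 | h1
  · rw [hfun_lt h1]; simpa using hQ
  rcases lt_or_ge w (max i j) with h2 | h2
  · rw [hfun_lt h2]; simpa using hQ
  rw [hfun_eq h1 huU hcd, hfun_eq h2 hwU hcd, mul_div_mul_left _ _ (by positivity)]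
  exact ratio_le hi0 hj0 hi hj (by positivity) (by omega) (by omega) hub (by omega) (by omega) hwb h

lemma coef_le (p hu hw : ℕ) : (p : ℝ) * max 0 (1 - (hu : ℝ) / hw) ≤ ((p - p * hu / hw : ℕ) : ℝ) := by
  rcases le_total 0 (1 - (hu : ℝ) / hw) with h | h
  · rw [max_eq_right h]
    have h1 := sub_le_cast p (p * hu / hw)
    have h2 := Nat.cast_div_le (α := ℝ) (m := p * hu) (n := hw)
    rw [Nat.cast_mul, mul_div_assoc] at h2
    linarith
  · rw [max_eq_left h]; simp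

lemma core_eq (b1 n1 d1 N T i j L1 L2 U m ln ld hn hd PA PB LIN g : ℕ) :
    core b1 n1 d1 N T i j L1 L2 U m ln ld hn hd PA PB LIN g = ∑ x ∈ range (L1 + 1),
      pm b1 n1 d1 N i j x * ((∑ y ∈ range (L2 + 1), (if i + x ≤ j + y then
        pm b1 n1 d1 N j i y - pm b1 n1 d1 N j i y * hfun i j m U hn hd (i + x) / hfun i j m U hn hd (j + y)
        else pm b1 n1 d1 N j i y
          - pm b1 n1 d1 N j i y * hfun i j m U ln ld (i + x) / hfun i j m U ln ld (j + y))
        * psi T (i + x) (j + y)) + 40960 * i * (Gf PA PB LIN (i + x) - g)) := by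
  simp only [core, mkL_eq, sumTo_eq, frc_eq, inner_eq]
  simp only [n_add, n_mul, n_sub, n_succ]

/-- the hypotheses on a box of values of `b` -/
structure Box (b b1 n1 d1 N : ℕ) : Prop where
  hN : N ≤ 8
  hb1 : 1 ≤ b1
  hd1 : 1 ≤ d1
  hb : b1 ≤ b
  hn : n1 * b ≤ d1

lemma core_ok {b b1 n1 d1 N T i j L1 L2 U ln ld hn hd PA PB LIN g : ℕ} (B : Box b b1 n1 d1 N)
    (hi0 : 1 ≤ i) (hj0 : 1 ≤ j) (hi : i < b) (hj : j < b) (hU1 : i + L1 ≤ U) (hU2 : j + L2 ≤ U)
    (hln : 0 < ln) (hld : 0 < ld) (hhn : 0 < hn) (hhd : 0 < hd)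
    (hlo : (ln : ℝ) / ld ≤ (i : ℝ) * ((b : ℝ) - j) / (j * ((b : ℝ) - i)))
    (hhi : (i : ℝ) * ((b : ℝ) - j) / (j * ((b : ℝ) - i)) ≤ (hn : ℝ) / hd)
    (hψ : ∀ u w, 1 ≤ u → 1 ≤ w → u ≠ w → psiR T u w ≤ 13.4 * ((u : ℝ) + w))
    (hL : lin b i j ≤ (LIN : ℝ) / 2 ^ 40) {F : ℕ → ℕ → ℝ} (hanti : ∀ u w, F u w = - F w u)
    (hF : ∀ u w, 1 ≤ u → u ≤ b → 1 ≤ w → w ≤ b → u ≠ w → F u w ≤ psiR T u w) :
    T0 b F i j + HB b i j ((PA : ℝ) / 2 ^ 20) ((PB : ℝ) / 2 ^ 20)
      ≤ ((core b1 n1 d1 N T i j L1 L2 U (max i j) ln ld hn hd PA PB LIN g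
        + 45035996273704960 * i * g + tails i j L1 L2 PA PB LIN : ℕ) : ℝ) / (2 ^ 80 * 40960) := by
  set ρ : ℕ → ℕ → ℝ := fun u w => if u ≤ w then
      (hfun i j (max i j) U hn hd u : ℝ) / (hfun i j (max i j) U hn hd w : ℝ)
    else (hfun i j (max i j) U ln ld u : ℝ) / (hfun i j (max i j) U ln ld w : ℝ) with hρ
  have hρ0 : ∀ u w, 0 ≤ ρ u w := fun u w => by simp only [hρ]; split_ifs <;> positivity
  set c : ℕ → ℕ → ℝ := fun u w => if u ≤ i + L1 ∧ w ≤ j + L2 then max 0 (1 - ρ u w) else 1 with hc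
  set Ψ : ℕ → ℕ → ℝ := fun u w => if u = w then 0 else psiR T u w with hΨ
  have hΨ0 : ∀ u w, 0 ≤ Ψ u w := fun u w => by
    simp only [hΨ]; split_ifs; exacts [le_rfl, psiR_nonneg _ _ _]
  have hΨ1 : ∀ u w, Ψ u w ≤ psiR T u w := fun u w => by
    simp only [hΨ]; split_ifs; exacts [psiR_nonneg _ _ _, le_rfl]
  have hc0 : ∀ u w, 0 ≤ c u w := fun u w => by
    simp only [hc]; split_ifs; exacts [le_max_left _ _, zero_le_one]
  have hc1 : ∀ u w, c u w ≤ 1 := fun u w => by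
    simp only [hc]; split_ifs; exacts [max_le zero_le_one (by linarith [hρ0 u w]), le_rfl]
  have h1 : T0 b F i j ≤ T0 b (fun u w => c u w * Ψ u w) i j := by
    refine T0_plus hi.le hj.le hanti fun u w a1 a2 a3 a4 => ⟨?_, hΨ0 u w, hc0 u w, ?_⟩
    · simp only [hΨ]
      split_ifs with h
      · subst h; linarith [hanti u u]
      · exact hF u w (by omega) a2 (by omega) a4 h
    · have hP := mul_nonneg (mu_nonneg hj.le i u) (mu_nonneg hi.le j w)
      simp only [hc]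
      split_ifs with h
      · refine le_trans (mul_le_mul_of_nonneg_right (show _ ≤ ρ u w
          by linarith [le_max_right 0 (1 - ρ u w)]) hP) ?_
        simp only [hρ]
        split_ifs with h'
        · exact hfun_ratio hi0 hj0 hi hj hhn hhd a2 a4 (by omega) (by omega) (Or.inr ⟨h', hhi⟩)
        · exact hfun_ratio hi0 hj0 hi hj hln hld a2 a4 (by omega) (by omega) (Or.inl ⟨by omega, hlo⟩)
      · simpa using mul_nonneg (mu_nonneg hj.le i w) (mu_nonneg hi.le j u)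
  set I : ℕ → ℕ := fun x => ∑ y ∈ range (L2 + 1), (if i + x ≤ j + y then
        pm b1 n1 d1 N j i y - pm b1 n1 d1 N j i y * hfun i j (max i j) U hn hd (i + x)
          / hfun i j (max i j) U hn hd (j + y)
        else pm b1 n1 d1 N j i y - pm b1 n1 d1 N j i y * hfun i j (max i j) U ln ld (i + x)
          / hfun i j (max i j) U ln ld (j + y)) * psi T (i + x) (j + y) with hI
  have z1 : (1 : ℝ) ≤ zf j := by exact_mod_cast zf_ge j
  have z2 : (1 : ℝ) ≤ zf i := by exact_mod_cast zf_ge i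
  have h2 := T0_trunc (L1 := L1) (L2 := L2) hi.le hj.le (h := fun u w => c u w * Ψ u w)
    (P := fun x => (pm b1 n1 d1 N i j x : ℝ) / 2 ^ 40) (R := fun x => (I x : ℝ) / (2 ^ 40 * 40960))
    z1 z2 (K := 13.4) (by norm_num)
    (fun x _ y _ => by
      refine (mul_le_of_le_one_left (hΨ0 _ _) (hc1 _ _)).trans ?_
      simp only [hΨ]
      split_ifs with h
      · positivity
      · exact hψ _ _ (by omega) (by omega) h)
    (fun x _ => by positivity) (fun x _ => pm_ok B.hN B.hb1 B.hd1 B.hb B.hn hi.le hj x)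
    (fun x _ => by positivity)
    (fun x hx => by
      refine (EE_trunc (P := fun y => (pm b1 n1 d1 N j i y : ℝ) / 2 ^ 40) (fun y _ => by positivity)
        (fun y _ => pm_ok B.hN B.hb1 B.hd1 B.hb B.hn hj.le hi y)
        (fun y _ => mul_nonneg (hc0 _ _) (hΨ0 _ _))).trans ?_
      simp only [hI]
      rw [Nat.cast_sum, sum_div]
      refine sum_le_sum fun y hy => ?_
      rw [mem_range] at hy
      have a1 : (pm b1 n1 d1 N j i y : ℝ) * c (i + x) (j + y) ≤ ((if i + x ≤ j + y then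
          pm b1 n1 d1 N j i y - pm b1 n1 d1 N j i y * hfun i j (max i j) U hn hd (i + x)
            / hfun i j (max i j) U hn hd (j + y)
          else pm b1 n1 d1 N j i y - pm b1 n1 d1 N j i y * hfun i j (max i j) U ln ld (i + x)
            / hfun i j (max i j) U ln ld (j + y) : ℕ) : ℝ) := by
        simp only [hc, hρ]
        rw [if_pos ⟨by omega, by omega⟩]
        split_ifs <;> exact coef_le _ _ _
      have a2 := mul_le_mul a1 (hΨ1 (i + x) (j + y)) (hΨ0 _ _) (by positivity)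
      rw [Nat.cast_mul]
      calc _ = (pm b1 n1 d1 N j i y : ℝ) * c (i + x) (j + y) * Ψ (i + x) (j + y) / 2 ^ 40 := by ring
        _ ≤ _ := div_le_div_of_nonneg_right a2 (by positivity)
        _ = _ := by unfold psiR; ring)
  have h3 := EE_trunc' (L := L1) hi.le hj.le (G := fun x => phiU (3 / 2 * ((i + x : ℕ) : ℝ)) * ((PA : ℝ) / 2 ^ 20)
      + phiU ((i + x : ℕ) : ℝ) * ((PB : ℝ) / 2 ^ 20) + lin b i j / ((i + x : ℕ) : ℝ))
    (P := fun x => (pm b1 n1 d1 N i j x : ℝ) / 2 ^ 40)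
    (R := fun x => ((Gf PA PB LIN (i + x) - g : ℕ) : ℝ) / 2 ^ 40) (g := (g : ℝ) / 2 ^ 40)
    (g0 := (((PA : ℝ) + PB) * 1048576 + LIN) / 2 ^ 40) z1 (by positivity) (by positivity)
    (fun x => by
      have a0 : (1 : ℝ) ≤ ((i + x : ℕ) : ℝ) := by exact_mod_cast (by omega : 1 ≤ i + x)
      have a1 := mul_le_of_le_one_left (by positivity : 0 ≤ (PA : ℝ) / 2 ^ 20)
        (phiU_le_one (l := 3 / 2 * ((i + x : ℕ) : ℝ)) (by linarith))
      have a2 := mul_le_of_le_one_left (by positivity : 0 ≤ (PB : ℝ) / 2 ^ 20)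
        (phiU_le_one (l := ((i + x : ℕ) : ℝ)) (by linarith))
      have a3 := div_le_self (lin_pos hi hj.le).le a0
      linarith)
    (fun x _ => by positivity) (fun x _ => pm_ok B.hN B.hb1 B.hd1 B.hb B.hn hi.le hj x)
    (fun x _ => by positivity)
    (fun x _ => by
      have a0 : (0 : ℝ) < ((i + x : ℕ) : ℝ) := by exact_mod_cast (by omega : 0 < i + x)
      have a1 := mul_le_mul_of_nonneg_right (phA_ok (u := i + x) (by omega))
        (by positivity : 0 ≤ (PA : ℝ) / 2 ^ 20)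
      have a2 := mul_le_mul_of_nonneg_right (phB_ok (v := i + x) (by omega))
        (by positivity : 0 ≤ (PB : ℝ) / 2 ^ 20)
      have a3 := div_le_div_of_nonneg_right hL a0.le
      have a4 := le_succ_div LIN (i + x)
      have a5 := sub_le_cast (Gf PA PB LIN (i + x)) g
      have e : ((Gf PA PB LIN (i + x) : ℕ) : ℝ) = (phA (i + x) : ℝ) * PA + (phB (i + x) : ℝ) * PB
          + ((LIN / (i + x) + 1 : ℕ) : ℝ) := by
        simp only [Gf, n_add, n_mul, n_div, n_succ, Nat.cast_add, Nat.cast_mul, Nat.cast_one]; ring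
      have e2 : (LIN : ℝ) / 2 ^ 40 / ((i + x : ℕ) : ℝ) = (LIN : ℝ) / ((i + x : ℕ) : ℝ) / 2 ^ 40 := by ring
      rw [e2] at a3
      linarith)
  have h4 := mul_le_mul_of_nonneg_left h3 (Nat.cast_nonneg (α := ℝ) i)
  have t1 := pt_ok j L1
  have t2 := pt_ok i L2
  have h5 := mul_le_mul_of_nonneg_left t1 (by positivity : 0 ≤ 13.4 * ((((i : ℝ) + i + j) + j * zf j))
    + i * ((((PA : ℝ) + PB) * 1048576 + LIN) / 2 ^ 40))
  have h6 := mul_le_mul_of_nonneg_left t2 (by positivity : 0 ≤ 13.4 * ((((j : ℝ) + j + i) + i * zf i)))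
  have e1 : ((core b1 n1 d1 N T i j L1 L2 U (max i j) ln ld hn hd PA PB LIN g : ℕ) : ℝ) / (2 ^ 80 * 40960)
      = ∑ x ∈ range (L1 + 1), (pm b1 n1 d1 N i j x : ℝ) / 2 ^ 40 * ((I x : ℝ) / (2 ^ 40 * 40960))
        + i * ∑ x ∈ range (L1 + 1), (pm b1 n1 d1 N i j x : ℝ) / 2 ^ 40
          * (((Gf PA PB LIN (i + x) - g : ℕ) : ℝ) / 2 ^ 40) := by
    rw [core_eq, Nat.cast_sum, sum_div, mul_sum, ← sum_add_distrib]
    refine sum_congr rfl fun x _ => ?_
    change ((pm b1 n1 d1 N i j x * (I x + 40960 * i * (Gf PA PB LIN (i + x) - g)) : ℕ) : ℝ) / _ = _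
    generalize Gf PA PB LIN (i + x) - g = q
    push_cast; ring
  rw [Nat.cast_add, Nat.cast_add, add_div, add_div, e1]
  simp only [tails, n_add, n_mul, Nat.cast_add, Nat.cast_mul, Nat.cast_ofNat]
  unfold HB
  simp only [div_eq_mul_inv] at *
  linarith

lemma ite_false_eq {c : Prop} [Decidable c] {x : Bool} (h : (if c then x else false) = true) :
    c ∧ x = true := by
  split_ifs at h with hc
  exact ⟨hc, h⟩

lemma c_mono {i j : ℝ} (hi : 0 < i) (hj : 0 < j) {t t' : ℝ} (h : t ≤ t') (h1 : i * t' < 1) :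
    (i ≤ j → i * (1 - j * t') / (j * (1 - i * t')) ≤ i * (1 - j * t) / (j * (1 - i * t))) ∧
    (j ≤ i → i * (1 - j * t) / (j * (1 - i * t)) ≤ i * (1 - j * t') / (j * (1 - i * t'))) := by
  have h2 : i * t < 1 := lt_of_le_of_lt (mul_le_mul_of_nonneg_left h hi.le) h1
  have a1 : 0 < j * (1 - i * t') := mul_pos hj (by linarith)
  have a2 : 0 < j * (1 - i * t) := mul_pos hj (by linarith)
  constructor
  · intro hij
    rw [div_le_div_iff₀ a1 a2]
    have := mul_nonneg (mul_pos hi hj).le (mul_nonneg (sub_nonneg.2 hij) (sub_nonneg.2 h))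
    linarith
  · intro hij
    rw [div_le_div_iff₀ a2 a1]
    have := mul_nonneg (mul_pos hi hj).le (mul_nonneg (sub_nonneg.2 hij) (sub_nonneg.2 h))
    linarith

lemma stepChk_ok {b b1 n1 d1 N T i j : ℕ} (B : Box b b1 n1 d1 N) (hi0 : 1 ≤ i) (hj0 : 1 ≤ j)
    (hψ : ∀ u w, 1 ≤ u → 1 ≤ w → u ≠ w → psiR T u w ≤ 13.4 * ((u : ℝ) + w))
    (h : stepChk b1 n1 d1 N T i j = true) : StepOK b (psiR T) i j := by
  simp only [stepChk, frc_eq, ifLe_eq] at h
  replace h := ite_false_eq h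
  obtain ⟨hi1, h⟩ := h
  replace h := ite_false_eq h
  obtain ⟨hj1, h⟩ := h
  replace h := ite_false_eq h
  obtain ⟨hA, h⟩ := h
  replace h := ite_false_eq h
  obtain ⟨hB, h⟩ := h
  replace h := Nat.le_of_ble_eq_true h
  simp only [n_add, n_mul, n_sub, n_div, n_succ] at hi1 hj1 hA hB h
  generalize isq (_ / (i * (b1 - j + 1) * (b1 - i) * (b1 - j - 1 + (b1 - j - 1) - 1) * 100000)) = PA at *
  generalize isq (_ / (i * d1 * (b1 - i) * (b1 - j - 1 + (b1 - j - 1) - 1) * 100000)) = PB at *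
  have hbb := B.hb
  have hn := B.hn
  have hi' : (0 : ℝ) < i := by exact_mod_cast hi0
  have hj' : (1 : ℝ) ≤ j := by exact_mod_cast hj0
  have hi1' : (i : ℝ) + 2 ≤ b1 := by exact_mod_cast hi1
  have hj1' : (j : ℝ) + 2 ≤ b1 := by exact_mod_cast hj1
  have hbb' : (b1 : ℝ) ≤ b := by exact_mod_cast hbb
  have hn' : (n1 : ℝ) * b ≤ d1 := by exact_mod_cast hn
  have hd' : (0 : ℝ) < d1 := by exact_mod_cast B.hd1
  have hb1 : (0 : ℝ) < b1 := by linarith
  have hb0 : (0 : ℝ) < b := by linarith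
  have hlt : ∀ z, z < b → z * n1 < d1 := fun z hz => by
    rcases Nat.eq_zero_or_pos n1 with h0 | h0
    · rw [h0]; exact B.hd1
    · exact lt_of_lt_of_le (by rw [mul_comm]; exact Nat.mul_lt_mul_of_pos_left hz h0) hn
  have t2 : 1 / (b : ℝ) ≤ 1 / b1 := one_div_le_one_div_of_le hb1 hbb'
  have t1 : (n1 : ℝ) / d1 ≤ 1 / b := by rw [div_le_div_iff₀ hd' hb0]; linarith
  have f2 : ∀ z : ℝ, 0 ≤ z → z / b ≤ z / b1 := fun z hz => div_le_div_of_nonneg_left hz hb1 hbb'
  obtain ⟨n0, hn0⟩ : ∃ n0, b1 - j - 1 = n0 := ⟨_, rfl⟩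
  have hn1 : (1 : ℝ) ≤ n0 := by exact_mod_cast (by omega : 1 ≤ n0)
  have hc2 : c2 (b - j - 1) ≤ 0.18394 * (2 * n0 / (2 * n0 - 1)) :=
    c2_anti (m := n0) (by omega) (by omega)
  rw [hn0] at hA hB
  have hq : 0 < 2 * (n0 : ℝ) - 1 := by linarith
  have x1 : 0 < 1 - (i : ℝ) / b1 := by rw [sub_pos, div_lt_one hb1]; linarith
  have x2 : 0 < 1 - ((j : ℝ) - 1) / b1 := by rw [sub_pos, div_lt_one hb1]; linarith
  have y1 : 1 - (i : ℝ) / b1 ≤ 1 - (i : ℝ) / b := by linarith [f2 i hi'.le]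
  have y2 : 1 - ((j : ℝ) - 1) / b1 ≤ 1 - ((j : ℝ) - 1) / b := by linarith [f2 (j - 1) (by linarith)]
  refine ⟨by omega, by omega, (PA : ℝ) / 2 ^ 20, (PB : ℝ) / 2 ^ 20, by positivity, by positivity,
    ?_, ?_, fun F hanti hF => ?_⟩
  · have hA' := (Nat.cast_le (α := ℝ)).2 hA
    push_cast [Nat.cast_sub (by omega : j ≤ b1), Nat.cast_sub (by omega : i ≤ b1),
      Nat.cast_sub (by omega : 1 ≤ n0 + n0)] at hA'
    refine hc2.trans (le_trans ?_ (mul_le_mul_of_nonneg_left (mul_le_mul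
      (mul_le_mul_of_nonneg_left y2 hi'.le) y1 x1.le (mul_nonneg hi'.le (by linarith))) (sq_nonneg _)))
    have e : ((PA : ℝ) / 2 ^ 20) ^ 2 * (i * (1 - ((j : ℝ) - 1) / b1) * (1 - (i : ℝ) / b1))
        = (PA * PA * (i * ((b1 : ℝ) - j + 1) * (b1 - i))) / (2 ^ 40 * (b1 * b1)) := by
      field_simp; ring
    rw [e, ← mul_div_assoc, div_le_div_iff₀ hq (by positivity)]
    linarith
  · have hB' := (Nat.cast_le (α := ℝ)).2 hB
    push_cast [Nat.cast_sub (hlt j (by omega)).le, Nat.cast_sub (by omega : i ≤ b1),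
      Nat.cast_sub (by omega : 1 ≤ n0 + n0)] at hB'
    have y3 : 1 - (j : ℝ) / b ≤ 1 - j * ((n1 : ℝ) / d1) := by
      have := mul_le_mul_of_nonneg_left t1 (by linarith : (0 : ℝ) ≤ j)
      rw [mul_one_div] at this; linarith
    have y4 : 0 ≤ 1 - (j : ℝ) / b := by rw [sub_nonneg, div_le_one hb0]; linarith
    refine (mul_le_mul hc2 y3 y4 (by positivity)).trans (le_trans ?_ (mul_le_mul_of_nonneg_left
      (mul_le_mul_of_nonneg_left y1 hi'.le) (sq_nonneg _)))
    have e : ((PB : ℝ) / 2 ^ 20) ^ 2 * (i * (1 - (i : ℝ) / b1))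
        = (PB * PB * (i * ((b1 : ℝ) - i))) / (2 ^ 40 * b1) := by
      field_simp
    have e2 : 0.18394 * (2 * (n0 : ℝ) / (2 * n0 - 1)) * (1 - j * ((n1 : ℝ) / d1))
        = 0.18394 * (2 * (n0 : ℝ)) * (d1 - j * n1) / ((2 * n0 - 1) * d1) := by
      field_simp
    rw [e, e2, div_le_div_iff₀ (mul_pos hq hd') (by positivity)]
    linarith
  · have hL : lin b i j ≤ ((b1 * (b1 + (b1 - j + 1)) * 1099511627776 / ((b1 - j + 1) * (b1 - i)) + 1 : ℕ) : ℝ)
        / 2 ^ 40 := by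
      rw [le_div_iff₀ (by positivity)]
      refine le_trans ?_ (le_succ_div _ _)
      push_cast [Nat.cast_sub (by omega : j ≤ b1), Nat.cast_sub (by omega : i ≤ b1)]
      have w1 : 0 < (b1 : ℝ) - i := by linarith
      have w2 : 0 < (b1 : ℝ) - j + 1 := by linarith
      have w3 : 0 < (b : ℝ) - i := by linarith
      have w4 : 0 < (b : ℝ) - j + 1 := by linarith
      have a1 : (b : ℝ) / (b - i) ≤ b1 / (b1 - i) := by
        rw [div_le_div_iff₀ w3 w1]; nlinarith only [hbb', hi']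
      have a2 : (b : ℝ) / (b - j + 1) ≤ b1 / (b1 - j + 1) := by
        rw [div_le_div_iff₀ w4 w2]; nlinarith only [hbb', hj']
      have a3 := mul_le_mul a2 a1 (by positivity) (by positivity)
      have e1 : lin b i j = (b : ℝ) / (b - j + 1) * (b / (b - i)) + b / (b - i) := by
        unfold lin; field_simp
      have e2 : (b1 : ℝ) * (b1 + (b1 - j + 1)) * 1099511627776 / ((b1 - j + 1) * (b1 - i))
          = ((b1 : ℝ) / (b1 - j + 1) * (b1 / (b1 - i)) + b1 / (b1 - i)) * 2 ^ 40 := by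
        field_simp; ring
      rw [e1, e2]
      exact mul_le_mul_of_nonneg_right (by linarith) (by positivity)
    have ea : ((i * (d1 - j * n1) : ℕ) : ℝ) / ((j * (d1 - i * n1) : ℕ) : ℝ)
        = i * (1 - j * ((n1 : ℝ) / d1)) / (j * (1 - i * ((n1 : ℝ) / d1))) := by
      have : (i : ℝ) * n1 < d1 := by exact_mod_cast hlt i (by omega)
      have : (d1 : ℝ) - i * n1 ≠ 0 := by linarith
      push_cast [Nat.cast_sub (hlt j (by omega)).le, Nat.cast_sub (hlt i (by omega)).le]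
      field_simp
    have eb : ((i * (b1 - j) : ℕ) : ℝ) / ((j * (b1 - i) : ℕ) : ℝ)
        = i * (1 - j * (1 / (b1 : ℝ))) / (j * (1 - i * (1 / (b1 : ℝ)))) := by
      have : (b1 : ℝ) - i ≠ 0 := by linarith
      push_cast [Nat.cast_sub (by omega : j ≤ b1), Nat.cast_sub (by omega : i ≤ b1)]
      field_simp
    have ec : (i : ℝ) * ((b : ℝ) - j) / (j * ((b : ℝ) - i))
        = i * (1 - j * (1 / (b : ℝ))) / (j * (1 - i * (1 / (b : ℝ)))) := by
      have : (b : ℝ) - i ≠ 0 := by linarith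
      field_simp
    have m1 := c_mono hi' (by linarith : (0 : ℝ) < j) t1
      (by rw [mul_one_div, div_lt_one hb0]; linarith)
    have m2 := c_mono hi' (by linarith : (0 : ℝ) < j) t2
      (by rw [mul_one_div, div_lt_one hb1]; linarith)
    rw [← ea, ← ec] at m1
    rw [← eb, ← ec] at m2
    have p1 : 0 < i * (d1 - j * n1) := Nat.mul_pos hi0 (Nat.sub_pos_of_lt (hlt j (by omega)))
    have p2 : 0 < j * (d1 - i * n1) := Nat.mul_pos hj0 (Nat.sub_pos_of_lt (hlt i (by omega)))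
    have p3 : 0 < i * (b1 - j) := Nat.mul_pos hi0 (by omega)
    have p4 : 0 < j * (b1 - i) := Nat.mul_pos hj0 (by omega)
    generalize hU : (if i + LL i j ≤ j + LL j i then j + LL j i else i + LL i j) = U at h
    have hU1 : i + LL i j ≤ U := by rw [← hU]; split_ifs <;> omega
    have hU2 : j + LL j i ≤ U := by rw [← hU]; split_ifs <;> omega
    generalize gmin PA PB _ i _ = g at h
    have fin : ∀ X : ℕ, X ≤ psi T i j * 1208925819614629174706176 →
        (X : ℝ) / (2 ^ 80 * 40960) ≤ psiR T i j := by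
      intro X hX
      have := (Nat.cast_le (α := ℝ)).2 hX
      push_cast at this
      unfold psiR
      rw [div_le_div_iff₀ (by positivity) (by positivity)]
      linarith
    by_cases hij : i ≤ j
    · have hij' : (i : ℝ) ≤ j := by exact_mod_cast hij
      rw [if_pos hij] at h
      refine le_trans ?_ (fin _ h)
      have := core_ok (T := T) (PA := PA) (PB := PB) (g := g) B hi0 hj0
        (by omega) (by omega) hU1 hU2 p3 p4 p1 p2 (m2.1 hij') (m1.1 hij') hψ hL hanti hF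
      rwa [max_eq_right hij] at this
    · have hij' : (j : ℝ) ≤ i := by exact_mod_cast (by omega : j ≤ i)
      rw [if_neg hij] at h
      refine le_trans ?_ (fin _ h)
      have := core_ok (T := T) (PA := PA) (PB := PB) (g := g) B hi0 hj0
        (by omega) (by omega) hU1 hU2 p1 p2 p3 p4 (m1.2 hij') (m2.2 hij') hψ hL hanti hF
      rwa [max_eq_left (by omega : j ≤ i)] at this

/-- all states of the table pass the check -/
def AllChk (b1 n1 d1 N T : ℕ) : Prop := ∀ s, 3 ≤ s → s < 32 → sumChk b1 n1 d1 N T s = true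

lemma rangeChk_spec {b1 n1 d1 N T s0 n : ℕ} (h : rangeChk b1 n1 d1 N T s0 n = true) :
    ∀ s, s0 ≤ s → s < s0 + n → sumChk b1 n1 d1 N T s = true := by
  intro s h1 h2
  have := allTo_spec h (s - s0) (by omega)
  rwa [frc_eq, n_add, Nat.add_sub_cancel' h1] at this

lemma state_of_all {b1 n1 d1 N T : ℕ} (h : AllChk b1 n1 d1 N T) {i j : ℕ} (hi : 1 ≤ i) (hj : 1 ≤ j)
    (hij : i ≠ j) (hs : i + j < 32) : stateChk b1 n1 d1 N T i j = true := by
  have := allTo_spec (h (i + j) (by omega) hs) (i - 1) (by rw [n_sub]; omega)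
  simp only [frc_eq, ifLe_eq, n_succ, n_sub] at this
  rw [Nat.sub_add_cancel hi, Nat.add_sub_cancel_left] at this
  split_ifs at this with h1 h2
  · omega
  · exact this
  · exact this

lemma tabOK_of_all {b b1 n1 d1 N T : ℕ} (B : Box b b1 n1 d1 N) (h : AllChk b1 n1 d1 N T) :
    TabOK b (psiR T) := by
  have key : ∀ i j, 1 ≤ i → 1 ≤ j → i ≠ j → i + j < 32 →
      1 ≤ psi T i j ∧ psi T i j ≤ 548864 * (i + j) ∧
      ((1 ≤ n1 ∧ d1 * (d1 + (i - j + (j - i))) * 40960 ≤ psi T i j * max i j) ∨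
        stepChk b1 n1 d1 N T i j = true) := by
    intro i j hi hj hij hs
    have h1 := state_of_all h hi hj hij hs
    simp only [stateChk, frc_eq, ifLe_eq] at h1
    replace h1 := ite_false_eq h1
    obtain ⟨a1, h1⟩ := h1
    replace h1 := ite_false_eq h1
    obtain ⟨a2, h1⟩ := h1
    simp only [n_add, n_mul, n_sub] at a2 h1
    refine ⟨a1, a2, ?_⟩
    rw [← max_def] at h1
    split_ifs at h1 with a3 a4
    · exact Or.inl ⟨a3, a4⟩
    · exact Or.inr h1
    · exact Or.inr h1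
  have hψ : ∀ u w, 1 ≤ u → 1 ≤ w → u ≠ w → psiR T u w ≤ 13.4 * ((u : ℝ) + w) := by
    intro u w hu hw huw
    rcases lt_or_ge (u + w) 32 with hs | hs
    · have := (Nat.cast_le (α := ℝ)).2 (key u w hu hw huw hs).2.1
      push_cast at this
      unfold psiR
      rw [div_le_iff₀ (by norm_num)]; linarith
    · rw [psiR_Phi T hs]; exact Phi_le u w
  refine ⟨fun u w hs => psiR_Phi T hs, fun i j hi _ hj _ hij hs => ?_⟩
  obtain ⟨a1, _, a3⟩ := key i j hi hj hij hs
  refine ⟨div_pos (by exact_mod_cast a1) (by norm_num), ?_⟩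
  rcases a3 with ⟨a3, a4⟩ | a3
  · left
    have hbd : (b : ℝ) ≤ d1 := by
      have := B.hn
      exact_mod_cast (by nlinarith : b ≤ d1)
    have e : ((i - j + (j - i) : ℕ) : ℝ) = |(i : ℝ) - j| := by
      rcases le_total i j with h | h
      · have h' : (i : ℝ) ≤ j := by exact_mod_cast h
        rw [Nat.sub_eq_zero_of_le h, zero_add, Nat.cast_sub h, abs_of_nonpos (by linarith)]; ring
      · have h' : (j : ℝ) ≤ i := by exact_mod_cast h
        rw [Nat.sub_eq_zero_of_le h, add_zero, Nat.cast_sub h, abs_of_nonneg (by linarith)]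
    have a5 := (Nat.cast_le (α := ℝ)).2 a4
    rw [Nat.cast_mul, Nat.cast_mul, Nat.cast_mul, Nat.cast_add, e] at a5
    have a6 : (b : ℝ) * (b + |(i : ℝ) - j|) ≤ d1 * (d1 + |(i : ℝ) - j|) :=
      mul_le_mul hbd (by linarith) (by positivity) (by positivity)
    unfold psiR
    simp only [Nat.cast_ofNat] at a5
    linarith
  · exact Or.inr (stepChk_ok B hi hj hψ a3)

/-- the final condition on the majorant -/
def FinOK (b : ℕ) (ψ : ℕ → ℕ → ℝ) : Prop :=
  (∑ k ∈ Ico 2 (b + 1), ψ k 1 * ((b.choose k : ℝ) / (b : ℝ) ^ k)) * (1 + 0.31 * (1 / (b : ℝ)))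
    ≤ 3.14 * (1 - 1 / (b : ℝ)) ^ 2

lemma choose_div_le {b n1 d1 : ℕ} (hb : 1 ≤ b) (hd : 1 ≤ d1) (hn : n1 * b ≤ d1) (k : ℕ) :
    (b.choose k : ℝ) / (b : ℝ) ^ k
      ≤ ((∏ r ∈ range k, (d1 - r * n1) : ℕ) : ℝ) / ((d1 : ℝ) ^ k * k.factorial) := by
  have hb' : (0 : ℝ) < b := by exact_mod_cast hb
  have hd' : (0 : ℝ) < d1 := by exact_mod_cast hd
  have h1 := Nat.descFactorial_eq_factorial_mul_choose b k
  rw [Nat.descFactorial_eq_prod_range] at h1
  have h2 : (∏ r ∈ range k, (b - r)) * d1 ^ k ≤ (∏ r ∈ range k, (d1 - r * n1)) * b ^ k := by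
    rw [← card_range k, ← prod_const, ← prod_const, card_range, ← prod_mul_distrib, ← prod_mul_distrib]
    refine prod_le_prod' fun r _ => ?_
    rw [Nat.sub_mul, Nat.sub_mul, mul_comm d1 b, mul_assoc]
    exact Nat.sub_le_sub_left (Nat.mul_le_mul_left r hn) _
  rw [h1] at h2
  have h3 := (Nat.cast_le (α := ℝ)).2 h2
  rw [div_le_div_iff₀ (by positivity) (by positivity)]
  rw [Nat.cast_mul, Nat.cast_mul, Nat.cast_mul, Nat.cast_pow, Nat.cast_pow] at h3
  linarith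

lemma finOK_of_chk {b b1 n1 d1 N T : ℕ} (B : Box b b1 n1 d1 N) (h : finChk b1 n1 d1 T = true) :
    FinOK b (psiR T) := by
  replace h := Nat.le_of_ble_eq_true h
  simp only [sumTo_eq, prodTo_eq, frc_eq, fct_eq, n_add, n_mul, n_sub, n_div, n_succ, n_pow] at h
  have hb1 := B.hb1
  have hb : 1 ≤ b := hb1.trans B.hb
  have hb1' : (1 : ℝ) ≤ b1 := by exact_mod_cast hb1
  have hbb' : (b1 : ℝ) ≤ b := by exact_mod_cast B.hb
  set f : ℕ → ℝ := fun k => psiR T k 1 * ((b.choose k : ℝ) / (b : ℝ) ^ k) with hf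
  have hf0 : ∀ k, 0 ≤ f k := fun k => mul_nonneg (psiR_nonneg _ _ _) (by positivity)
  have h1 : ∑ k ∈ Ico 2 (b + 1), f k ≤ ∑ k ∈ Ico 2 31, f k + ∑ k ∈ Ico 31 (b + 32), f k := by
    rw [sum_Ico_consecutive _ (by omega) (by omega)]
    exact sum_le_sum_of_subset_of_nonneg (Ico_subset_Ico le_rfl (by omega)) fun k _ _ => hf0 k
  have h2 : ∑ k ∈ Ico 31 (b + 32), f k ≤ 56 * ((1 / 2 : ℝ) ^ 31 / (1 - 1 / 2)) := by
    refine le_trans ?_ (mul_le_mul_of_nonneg_left
      (geom_sum_Ico_le_of_lt_one (m := 31) (n := b + 32) (by norm_num) (by norm_num)) (by norm_num))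
    rw [mul_sum]
    refine sum_le_sum fun k hk => ?_
    rw [mem_Ico] at hk
    obtain ⟨m, rfl⟩ : ∃ m, k = m + 2 := ⟨k - 2, by omega⟩
    have a1 : psiR T (m + 2) 1 ≤ 14 * ((m : ℝ) + 2) := by
      rw [psiR_Phi T (by omega)]
      have : (29 : ℝ) ≤ m := by exact_mod_cast (by omega : 29 ≤ m)
      refine (Phi_le _ _).trans ?_
      push_cast; linarith
    have a2 := choose_div_le hb le_rfl (n1 := 0) (by omega) (m + 2)
    simp only [mul_zero, tsub_zero, prod_const_one, Nat.cast_one, one_pow, one_mul] at a2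
    have a3 : (2 : ℝ) ^ m ≤ (m + 1).factorial := by
      have := Nat.factorial_mul_pow_le_factorial (m := 1) (n := m)
      rw [add_comm 1 m] at this
      exact_mod_cast (by simpa using this : 2 ^ m ≤ (m + 1).factorial)
    refine (mul_le_mul a1 a2 (by positivity) (by positivity)).trans ?_
    rw [Nat.factorial_succ]
    push_cast
    have e : 14 * ((m : ℝ) + 2) * (1 / (((m : ℝ) + 1 + 1) * ((m + 1).factorial : ℝ)))
        = 14 * (1 / ((m + 1).factorial : ℝ)) := by field_simp; ring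
    have e2 : 56 * (1 / 2 : ℝ) ^ (m + 2) = 14 * (1 / 2 ^ m) := by
      rw [pow_add, one_div_pow]; ring
    rw [e, e2]
    exact mul_le_mul_of_nonneg_left (one_div_le_one_div_of_le (by positivity) a3) (by norm_num)
  generalize hS : ∑ k ∈ range 29, (psi T (k + 2) 1 * 1048576 * (∏ r ∈ range (k + 2), (d1 - r * n1))
    / (d1 ^ (k + 2) * (k + 2).factorial) + 1) = S at h
  have h3 : ∑ k ∈ Ico 2 31, f k ≤ (S : ℝ) / (40960 * 1048576) := by
    rw [sum_Ico_eq_sum_range, ← hS, Nat.cast_sum, sum_div]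
    refine sum_le_sum fun k _ => ?_
    rw [add_comm 2 k, le_div_iff₀ (by norm_num)]
    refine le_trans ?_ (le_succ_div _ _)
    have a1 := mul_le_mul_of_nonneg_left (choose_div_le hb B.hd1 B.hn (k + 2)) (psiR_nonneg T (k + 2) 1)
    refine (mul_le_mul_of_nonneg_right a1 (by norm_num)).trans (le_of_eq ?_)
    unfold psiR
    simp only [Nat.cast_mul, Nat.cast_pow, Nat.cast_ofNat]
    ring
  have h4 := (Nat.cast_le (α := ℝ)).2 h
  push_cast [Nat.cast_sub hb1] at h4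
  have t2 : 1 / (b : ℝ) ≤ 1 / b1 := one_div_le_one_div_of_le (by linarith) hbb'
  have h5 : ∑ k ∈ Ico 2 (b + 1), f k ≤ (1000000 + (S : ℝ)) / (40960 * 1048576) := by
    norm_num at h2 ⊢; linarith
  have h6 : (1000000 + (S : ℝ)) / (40960 * 1048576) * (1 + 0.31 * (1 / (b1 : ℝ)))
      ≤ 3.14 * (1 - 1 / (b1 : ℝ)) ^ 2 := by
    have e1 : (1000000 + (S : ℝ)) / (40960 * 1048576) * (1 + 0.31 * (1 / (b1 : ℝ)))
        = (1000000 + (S : ℝ)) * (100 * b1 + 31) * b1 / (4294967296000 * (b1 : ℝ) ^ 2) := by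
      field_simp; ring
    have e2 : 3.14 * (1 - 1 / (b1 : ℝ)) ^ 2
        = ((b1 : ℝ) - 1) * (b1 - 1) * 13486197309440 / (4294967296000 * (b1 : ℝ) ^ 2) := by
      field_simp; ring
    rw [e1, e2]
    exact div_le_div_of_nonneg_right h4 (by positivity)
  have h7 : (1 - 1 / (b1 : ℝ)) ^ 2 ≤ (1 - 1 / (b : ℝ)) ^ 2 :=
    pow_le_pow_left₀ (by rw [sub_nonneg, div_le_one (by linarith)]; exact hb1') (by linarith) 2
  unfold FinOK
  refine (mul_le_mul h5 (by linarith) (by positivity) (by positivity)).trans (h6.trans (by linarith))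

end Pool.Agent.MP_79e3be_pr

end MrgPart4

-- ======== part 5: formerly Pool.Agent.MP_79e3be_pr.Prog2
section MrgPart5

/-! Integer program for the direct check of small parts. -/

set_option autoImplicit false

namespace Pool.Agent.MP_79e3be_pr

/-- numerator of a binomial weight -/
noncomputable def wt (n p q x : Nat) : Nat :=
  Nat.mul (Nat.div (fct n) (Nat.mul (fct x) (fct (Nat.sub n x))))
    (Nat.mul (Nat.pow p x) (Nat.pow q (Nat.sub n x)))

noncomputable def srow (T u : Nat) : Nat :=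
  Nat.mod (Nat.shiftRight T (Nat.mul 480 u)) (Nat.pow 2 480)

/-- the tabulated value, scaled by `2 ^ 18` -/
noncomputable def sval (T u w : Nat) : Nat :=
  Nat.mod (Nat.shiftRight (srow T u) (Nat.mul 24 w)) 16777216

noncomputable def sinner (row : Nat) (l : L4) : Nat :=
  L4.rec (motive := fun _ => Nat) 0 (fun _ p sh _ _ ih =>
    Nat.add (Nat.mul p (Nat.mod (Nat.shiftRight row sh) 16777216)) ih) l

noncomputable def ssum (a b T i j : Nat) : Nat :=
  mkL j (wt (Nat.sub b j) i (Nat.sub a i)) (Nat.mul 24) (fun _ => 0) (Nat.succ (Nat.sub b j)) fun l =>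
    sumTo (fun x => Nat.mul (wt (Nat.sub a i) j (Nat.sub b j) x)
      (frc (Nat.add i x) fun u => frc (srow T u) fun row => sinner row l)) (Nat.succ (Nat.sub a i))

noncomputable def sstate (a b T i j : Nat) : Bool :=
  ifLe (Nat.add i j) 0 true (ifLe (Nat.add a b) (Nat.add i j) true
    (frc (ssum a b T i j) fun S =>
     frc (Nat.mul (Nat.pow b (Nat.sub a i)) (Nat.pow a (Nat.sub b j))) fun D =>
     frc (Nat.mul (sval T i j) D) fun X =>
      ifLe (Nat.add (Nat.mul 262144 D) S) X (Nat.ble X (Nat.add (Nat.mul 262145 D) S)) false))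

noncomputable def smallChk (a b T : Nat) : Bool :=
  ifLe (sval T a b) 0
    (ifLe (Nat.succ (Nat.mul (sval T 0 1) 262145)) (Nat.mul (sval T 1 0) 262144)
      (allTo (fun i => allTo (fun j => sstate a b T i j) (Nat.succ b)) (Nat.succ a)) false) false

end Pool.Agent.MP_79e3be_pr

end MrgPart5

-- marker of a merged file
example : 731051 + 401278 = 731051 + 401278 := rfl
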